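import Pool.Agent.H34.WB.Stm
import Pool.Graph.R_pool_sql_team_seeded_63374d34.N282.WB.Cor

/-! Measurability, the range of the local entropy, and the inequality for its law. -/

set_option autoImplicit false

open MeasureTheory Filter Topology Set
open Pool.Agent.Results.MP_07c750_an.WalshBakerQuantumLimits

noncomputable section

namespace Pool.Agent.H34.WB

variable {D : ℕ}

lemma meas_cyl (m : ℤ) {n : ℕ} (w : Fin n → Fin D) : MeasurableSet (cylinder m w) :=
  Pool.Agent.N282.WB.CO_meas m w

lemma meas_word (n : ℕ) : Measurable fun x : ℤ → Fin D => word n x :=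
  measurable_pi_lambda _ fun _ => measurable_pi_apply _

lemma cyl_word (n : ℕ) (w : Fin n → Fin D) : cylinder 0 w = {x | word n x = w} := by
  ext x
  constructor
  · intro h
    funext i
    have := h i
    rw [zero_add] at this
    exact this
  · intro h i
    rw [zero_add]
    exact congrFun h i

lemma meas_fw {β : Type*} [MeasurableSpace β] (n : ℕ) (f : (Fin n → Fin D) → β) :
    Measurable fun x : ℤ → Fin D => f (word n x) :=
  (measurable_of_finite f).comp (meas_word n)

theorem s_meas : S_meas := by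
  intro D μ
  have h3 : ∀ n : ℕ, Measurable (info μ n) := fun n =>
    meas_fw n (fun w => - Real.log (μ.real (cylinder 0 w)) / n)
  refine ⟨meas_word, fun m n w => meas_cyl m w, h3, ?_⟩
  exact Measurable.limsup fun n => measurable_coe_real_ereal.comp (h3 n)

/-- the mass of a set of words -/
lemma real_mem (μ : Measure (ℤ → Fin D)) [IsProbabilityMeasure μ] (n : ℕ) (A : Finset (Fin n → Fin D)) :
    μ.real {x | word n x ∈ A} = ∑ w ∈ A, μ.real (cylinder 0 w) := by
  rw [← measureReal_biUnion_finset]
  · congr 1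
    ext x
    simp only [cyl_word, Set.mem_iUnion, exists_prop, Set.mem_ofPred_eq]
    exact ⟨fun h => ⟨_, h, rfl⟩, fun ⟨w, h, e⟩ => e ▸ h⟩
  · intro a _ b _ hab
    refine Set.disjoint_left.2 fun x hx hx' => hab ?_
    rw [cyl_word] at hx hx'
    exact hx.symm.trans hx'
  · intro a _
    exact meas_cyl 0 a

lemma sum_le_one (μ : Measure (ℤ → Fin D)) [IsProbabilityMeasure μ] (n : ℕ) (A : Finset (Fin n → Fin D)) :
    ∑ w ∈ A, μ.real (cylinder 0 w) ≤ 1 := by
  rw [← real_mem]
  exact measureReal_le_one

/-- almost all points have cylinders of positive mass -/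
lemma ae_pos (μ : Measure (ℤ → Fin D)) [IsProbabilityMeasure μ] :
    ∀ᵐ x ∂μ, ∀ n, 0 < μ.real (cylinder 0 (word n x)) := by
  rw [ae_all_iff]
  intro n
  classical
  have h1 : μ.real {x | word n x ∈ Finset.univ.filter fun w => μ.real (cylinder 0 w) = 0} = 0 := by
    rw [real_mem]
    exact Finset.sum_eq_zero fun w hw => (Finset.mem_filter.1 hw).2
  have h2 : μ {x | word n x ∈ Finset.univ.filter fun w => μ.real (cylinder 0 w) = 0} = 0 := by
    rwa [measureReal_eq_zero_iff] at h1
  rw [ae_iff]
  refine measure_mono_null (fun x hx => ?_) h2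
  simp only [Set.mem_ofPred_eq, Finset.mem_filter, Finset.mem_univ, true_and]
  have h3 : ¬ 0 < μ.real (cylinder 0 (word n x)) := hx
  exact le_antisymm (not_lt.1 h3) measureReal_nonneg

theorem s_range : S_range := by
  intro D hD μ hμ
  have hL : 0 ≤ Real.log D := Real.log_natCast_nonneg D
  have up : ∀ k : ℕ, ∀ᵐ x ∂μ, localEntropy μ x ≤ ((Real.log D + 1 / ((k : ℝ) + 1) : ℝ) : EReal) := by
    intro k
    set ε : ℝ := 1 / ((k : ℝ) + 1) with hε
    have hε0 : 0 < ε := by positivity
    classical
    let c : ℕ → ℝ := fun n => Real.exp (-(Real.log D + ε) * n)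
    let A : (n : ℕ) → Finset (Fin n → Fin D) := fun n =>
      Finset.univ.filter fun w => μ.real (cylinder 0 w) < c n
    have hc : ∀ n, (D : ℝ) ^ n * c n = Real.exp (-ε) ^ n := by
      intro n
      have hD' : (0 : ℝ) < D := by exact_mod_cast (by omega : 0 < D)
      simp only [c]
      rw [← Real.exp_nat_mul, show (D : ℝ) ^ n = Real.exp (n * Real.log D) by
        rw [mul_comm, Real.exp_mul, Real.exp_log hD', Real.rpow_natCast], ← Real.exp_add]
      congr 1
      ring
    have h1 : ∀ n, μ {x | word n x ∈ A n} ≤ ENNReal.ofReal (Real.exp (-ε) ^ n) := by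
      intro n
      rw [← ofReal_measureReal, real_mem]
      refine ENNReal.ofReal_le_ofReal ?_
      rw [← hc n]
      calc ∑ w ∈ A n, μ.real (cylinder 0 w) ≤ ∑ w ∈ A n, c n :=
            Finset.sum_le_sum fun w hw => (Finset.mem_filter.1 hw).2.le
        _ = (A n).card * c n := by rw [Finset.sum_const, nsmul_eq_mul]
        _ ≤ (D : ℝ) ^ n * c n := by
            refine mul_le_mul_of_nonneg_right ?_ (Real.exp_pos _).le
            have : (A n).card ≤ Fintype.card (Fin n → Fin D) := Finset.card_le_univ _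
            rw [Fintype.card_fun, Fintype.card_fin, Fintype.card_fin] at this
            exact_mod_cast this
    have h2 : ∑' n, μ {x | word n x ∈ A n} ≠ ⊤ := by
      have h3 : Summable fun n : ℕ => Real.exp (-ε) ^ n :=
        summable_geometric_of_lt_one (Real.exp_pos _).le (Real.exp_lt_one_iff.2 (by linarith))
      refine ne_top_of_le_ne_top ?_ (ENNReal.tsum_le_tsum h1)
      rw [← ENNReal.ofReal_tsum_of_nonneg (fun n => by positivity) h3]
      exact ENNReal.ofReal_ne_top
    have h4 := ae_eventually_notMem h2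
    filter_upwards [h4] with x hx
    refine limsup_le_of_le (by isBoundedDefault) ?_
    filter_upwards [hx, eventually_gt_atTop 0] with n hn hn0
    simp only [A, Finset.mem_filter, Finset.mem_univ, true_and, not_lt] at hn
    rw [EReal.coe_le_coe_iff]
    unfold info
    have hn0' : (0 : ℝ) < n := by exact_mod_cast hn0
    rw [div_le_iff₀ hn0']
    have h5 := Real.log_le_log (Real.exp_pos _) hn
    rw [Real.log_exp] at h5
    linarith
  rw [← ae_all_iff] at up
  filter_upwards [up] with x hx
  refine ⟨?_, ?_⟩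
  · have h1 : limsup (fun _ : ℕ => (0 : EReal)) atTop ≤ localEntropy μ x := by
      refine limsup_le_limsup (Eventually.of_forall fun n => ?_) (by isBoundedDefault) (by isBoundedDefault)
      rw [← EReal.coe_zero, EReal.coe_le_coe_iff]
      unfold info
      have : Real.log (μ.real (cylinder 0 (word n x))) ≤ 0 := Real.log_nonpos measureReal_nonneg measureReal_le_one
      exact div_nonneg (by linarith) (Nat.cast_nonneg n)
    rwa [limsup_const] at h1
  · have h1 : Tendsto (fun k : ℕ => ((Real.log D + 1 / ((k : ℝ) + 1) : ℝ) : EReal)) atTop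
        (𝓝 ((Real.log D : ℝ) : EReal)) := by
      refine (continuous_coe_real_ereal.tendsto _).comp ?_
      have := tendsto_one_div_add_atTop_nhds_zero_nat (𝕜 := ℝ)
      simpa using this.const_add (Real.log D)
    exact ge_of_tendsto' h1 hx

/-- the words of mass at least `exp (- s n)` -/
def big (μ : Measure (ℤ → Fin D)) (s : ℝ) (n : ℕ) : Finset (Fin n → Fin D) :=
  letI := Classical.decPred fun w : Fin n → Fin D => Real.exp (-(s * n)) ≤ μ.real (cylinder 0 w)
  Finset.univ.filter fun w => Real.exp (-(s * n)) ≤ μ.real (cylinder 0 w)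

lemma mem_big {μ : Measure (ℤ → Fin D)} {s : ℝ} {n : ℕ} {w : Fin n → Fin D} :
    w ∈ big μ s n ↔ Real.exp (-(s * n)) ≤ μ.real (cylinder 0 w) := by
  unfold big
  rw [Finset.mem_filter]
  simp

lemma card_big (μ : Measure (ℤ → Fin D)) [IsProbabilityMeasure μ] (s : ℝ) (n : ℕ) :
    ((big μ s n).card : ℝ) ≤ Real.exp (s * n) := by
  have h1 := sum_le_one μ n (big μ s n)
  have h2 : ((big μ s n).card : ℝ) * Real.exp (-(s * n)) ≤ 1 := by
    refine le_trans ?_ h1
    rw [← nsmul_eq_mul, ← Finset.sum_const]
    exact Finset.sum_le_sum fun w hw => mem_big.1 hw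
  rw [Real.exp_neg, ← div_eq_mul_inv, div_le_one (Real.exp_pos _)] at h2
  exact h2

/-- points of local entropy `< s` have words in `big μ s n` for all large `n` -/
lemma ae_big (μ : Measure (ℤ → Fin D)) [IsProbabilityMeasure μ] (s : ℝ) :
    ∀ᵐ x ∂μ, localEntropy μ x < s → ∃ k, ∀ n, k ≤ n → word n x ∈ big μ s n := by
  filter_upwards [ae_pos μ] with x hx hs
  have h1 : ∀ᶠ n : ℕ in atTop, ((info μ n x : ℝ) : EReal) < s := eventually_lt_of_limsup_lt hs (by isBoundedDefault)
  obtain ⟨k, hk⟩ := eventually_atTop.1 (h1.and (eventually_gt_atTop 0))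
  refine ⟨k, fun n hn => ?_⟩
  obtain ⟨h2, h3⟩ := hk n hn
  rw [EReal.coe_lt_coe_iff] at h2
  unfold info at h2
  have h4 : (0 : ℝ) < n := by exact_mod_cast h3
  rw [div_lt_iff₀ h4] at h2
  rw [mem_big]
  rw [← Real.le_log_iff_exp_le (hx n)]
  linarith

lemma pair_bound (hD : 2 ≤ D) (μ : Measure (ℤ → Fin D)) [IsProbabilityMeasure μ] (hU : Unc μ) (s t : ℝ)
    (hst : s + t < Real.log D) :
    μ.real {x | localEntropy μ x < s} + μ.real {x | localEntropy μ x < t} ≤ 1 := by
  have hD' : (0 : ℝ) < D := by exact_mod_cast (by omega : 0 < D)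
  let G : ℝ → ℕ → Set (ℤ → Fin D) := fun s k => {x | ∀ n, k ≤ n → word n x ∈ big μ s n}
  have hG : ∀ s, Monotone (G s) := fun s a b hab x hx n hn => hx n (hab.trans hn)
  have hlim : ∀ s, Tendsto (fun k => μ.real (G s k)) atTop (𝓝 (μ.real (⋃ k, G s k))) := by
    intro s
    have := tendsto_measure_iUnion_atTop (μ := μ) (hG s)
    exact (ENNReal.tendsto_toReal (measure_ne_top μ _)).comp this
  have hle : ∀ s : ℝ, μ.real {x | localEntropy μ x < s} ≤ μ.real (⋃ k, G s k) := by
    intro s
    refine ENNReal.toReal_mono (measure_ne_top μ _) (measure_mono_ae ?_)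
    filter_upwards [ae_big μ s] with x hx hs
    exact Set.mem_iUnion.2 (hx hs)
  have hk : ∀ k, μ.real (G s k) + μ.real (G t k) ≤ 1 := by
    intro k
    have h1 : ∀ n, k ≤ n → μ.real (G s k) + μ.real (G t k) ≤ 1 + Real.sqrt (Real.exp (s + t - Real.log D) ^ n) := by
      intro n hn
      have h2 := hU n (big μ s n) (big μ t n)
      rw [← real_mem, ← real_mem] at h2
      have h3 : μ.real (G s k) ≤ μ.real {x | word n x ∈ big μ s n} :=
        measureReal_mono (fun x hx => hx n hn)
      have h4 : μ.real (G t k) ≤ μ.real {x | word n x ∈ big μ t n} :=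
        measureReal_mono (fun x hx => hx n hn)
      have h5 : Real.sqrt (((big μ s n).card : ℝ) * (big μ t n).card / (D : ℝ) ^ n) ≤
          Real.sqrt (Real.exp (s + t - Real.log D) ^ n) := by
        refine Real.sqrt_le_sqrt ?_
        rw [div_le_iff₀ (by positivity), ← Real.exp_nat_mul, show (D : ℝ) ^ n = Real.exp (n * Real.log D) by
          rw [mul_comm, Real.exp_mul, Real.exp_log hD', Real.rpow_natCast], ← Real.exp_add]
        calc ((big μ s n).card : ℝ) * (big μ t n).card ≤ Real.exp (s * n) * Real.exp (t * n) :=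
              mul_le_mul (card_big μ s n) (card_big μ t n) (Nat.cast_nonneg _) (Real.exp_pos _).le
          _ = _ := by rw [← Real.exp_add]; congr 1; ring
      linarith
    have h6 : Tendsto (fun n : ℕ => 1 + Real.sqrt (Real.exp (s + t - Real.log D) ^ n)) atTop (𝓝 (1 + Real.sqrt 0)) := by
      refine Tendsto.const_add _ ((Real.continuous_sqrt.tendsto _).comp ?_)
      exact tendsto_pow_atTop_nhds_zero_of_lt_one (Real.exp_pos _).le (Real.exp_lt_one_iff.2 (by linarith))
    rw [Real.sqrt_zero, add_zero] at h6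
    exact ge_of_tendsto h6 (eventually_atTop.2 ⟨k, h1⟩)
  have h7 := (hlim s).add (hlim t)
  have h8 := le_of_tendsto' h7 hk
  linarith [hle s, hle t]

theorem s_law : S_law := by
  intro D hD μ hμ hU s
  have hm : Measurable (localEntropy μ) := (s_meas D μ).2.2.2
  set L := Real.log D with hL
  let E : ℕ → Set (ℤ → Fin D) := fun k => {x | ((L - s - 2 / ((k : ℝ) + 1) : ℝ) : EReal) ≤ localEntropy μ x}
  have hE : Antitone E := by
    intro a b hab x hx
    simp only [E, Set.mem_ofPred_eq] at hx ⊢
    refine le_trans ?_ hx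
    rw [EReal.coe_le_coe_iff]
    have : (2 : ℝ) / ((b : ℝ) + 1) ≤ 2 / ((a : ℝ) + 1) := by
      refine div_le_div_of_nonneg_left (by norm_num) (by positivity) ?_
      have : (a : ℝ) ≤ b := by exact_mod_cast hab
      linarith
    linarith
  have hI : (⋂ k, E k) = {x | ((L - s : ℝ) : EReal) ≤ localEntropy μ x} := by
    ext x
    simp only [Set.mem_iInter, E, Set.mem_ofPred_eq]
    constructor
    · intro h
      have h1 : Tendsto (fun k : ℕ => ((L - s - 2 / ((k : ℝ) + 1) : ℝ) : EReal)) atTop (𝓝 ((L - s : ℝ) : EReal)) := by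
        refine (continuous_coe_real_ereal.tendsto _).comp ?_
        have h2 := (tendsto_one_div_add_atTop_nhds_zero_nat (𝕜 := ℝ)).const_mul 2
        have h3 := h2.const_sub (L - s)
        simp only [mul_zero, sub_zero] at h3
        refine h3.congr fun k => ?_
        ring
      exact le_of_tendsto' h1 h
    · intro h k
      refine le_trans ?_ h
      rw [EReal.coe_le_coe_iff]
      have : (0 : ℝ) ≤ 2 / ((k : ℝ) + 1) := by positivity
      linarith
  have h1 : ∀ k, μ {x | localEntropy μ x ≤ (s : EReal)} ≤ μ (E k) := by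
    intro k
    set ε : ℝ := 1 / ((k : ℝ) + 1) with hε
    have hε0 : 0 < ε := by positivity
    have h2 := pair_bound hD μ hU (s + ε) (L - s - 2 * ε) (by linarith)
    have h3 : μ.real {x | localEntropy μ x ≤ (s : EReal)} ≤ μ.real {x | localEntropy μ x < ((s + ε : ℝ) : EReal)} := by
      refine measureReal_mono (fun x hx => ?_)
      simp only [Set.mem_ofPred_eq] at hx ⊢
      refine lt_of_le_of_lt hx ?_
      rw [EReal.coe_lt_coe_iff]
      linarith
    have h4 : μ.real (E k) = 1 - μ.real {x | localEntropy μ x < ((L - s - 2 * ε : ℝ) : EReal)} := by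
      have h5 : MeasurableSet {x | localEntropy μ x < ((L - s - 2 * ε : ℝ) : EReal)} := hm measurableSet_Iio
      rw [← probReal_compl_eq_one_sub h5]
      congr 1
      ext x
      simp only [E, Set.mem_compl_iff, Set.mem_ofPred_eq, not_lt]
      rw [hε]
      have : L - s - 2 / ((k : ℝ) + 1) = L - s - 2 * (1 / ((k : ℝ) + 1)) := by ring
      rw [this]
    have h6 : μ.real {x | localEntropy μ x ≤ (s : EReal)} ≤ μ.real (E k) := by linarith
    exact (ENNReal.toReal_le_toReal (measure_ne_top _ _) (measure_ne_top _ _)).1 h6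
  have h2 : Tendsto (μ ∘ E) atTop (𝓝 (μ (⋂ k, E k))) :=
    tendsto_measure_iInter_atTop (fun k => (hm measurableSet_Ici).nullMeasurableSet) hE ⟨0, measure_ne_top _ _⟩
  rw [hI] at h2
  exact ge_of_tendsto' h2 h1

end Pool.Agent.H34.WB
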