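import Pool.Agent.H34.WB.Lim
import Pool.Graph.R_pool_sql_team_seeded_63374d34.N282.WB.All

/-! Mixtures of quantum limits, and mixtures of invariant measures with the uniform measure. -/

set_option autoImplicit false

open MeasureTheory Filter Topology Set
open scoped ComplexConjugate Matrix ComplexOrder ENNReal
open Pool.Agent.Results.MP_07c750_an.WalshBakerQuantumLimits

noncomputable section

namespace Pool.Agent.H34.WB

variable {D : ℕ}

lemma inv_convex {ρ ρ' : (n : ℕ) → Matrix (Fin n → Fin D) (Fin n → Fin D) ℂ} (h : IsInvariantState D ρ)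
    (h' : IsInvariantState D ρ') (a b : ℝ) (ha : 0 ≤ a) (hb : 0 ≤ b) (hab : a + b = 1) :
    IsInvariantState D (fun n => (a : ℂ) • ρ n + (b : ℂ) • ρ' n) := by
  refine ⟨fun n => ?_, fun u v => ?_, fun n u v => ?_, fun n u v => ?_, fun n => ?_⟩
  · exact ((h.posSemidef n).smul (Complex.zero_le_real.2 ha)).add ((h'.posSemidef n).smul (Complex.zero_le_real.2 hb))
  · simp only [Matrix.add_apply, Matrix.smul_apply, smul_eq_mul]
    rw [h.normalized, h'.normalized, mul_one, mul_one, ← Complex.ofReal_add, hab, Complex.ofReal_one]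
  · simp only [Matrix.add_apply, Matrix.smul_apply, smul_eq_mul]
    rw [Finset.sum_add_distrib, ← Finset.mul_sum, ← Finset.mul_sum, h.right, h'.right]
  · simp only [Matrix.add_apply, Matrix.smul_apply, smul_eq_mul]
    rw [Finset.sum_add_distrib, ← Finset.mul_sum, ← Finset.mul_sum, h.left, h'.left]
  · rw [Matrix.mul_add, Matrix.add_mul, Matrix.mul_smul, Matrix.mul_smul, Matrix.smul_mul, Matrix.smul_mul, h.fourier,
      h'.fourier]

lemma QL_state (hD : 2 ≤ D) {μ : Measure (ℤ → Fin D)} [IsProbabilityMeasure μ] (h : IsQuantumLimit D μ) :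
    ∃ ρ, IsInvariantState D ρ ∧ IsDiagonal μ ρ :=
  (Pool.Agent.Results.MP_07c750_an.WalshBakerQuantumLimits.result D hD μ).1.1 h

lemma state_QL (hD : 2 ≤ D) {μ : Measure (ℤ → Fin D)} [IsProbabilityMeasure μ]
    {ρ : (n : ℕ) → Matrix (Fin n → Fin D) (Fin n → Fin D) ℂ} (h : IsInvariantState D ρ) (h' : IsDiagonal μ ρ) :
    IsQuantumLimit D μ :=
  (Pool.Agent.Results.MP_07c750_an.WalshBakerQuantumLimits.result D hD μ).1.2 ⟨ρ, h, h'⟩

lemma prob_convex {μ ν : Measure (ℤ → Fin D)} [IsProbabilityMeasure μ] [IsProbabilityMeasure ν] (a b : ℝ≥0∞)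
    (hab : a + b = 1) : IsProbabilityMeasure (a • μ + b • ν) := by
  constructor
  rw [Measure.add_apply, Measure.smul_apply, Measure.smul_apply, measure_univ, measure_univ, smul_eq_mul, smul_eq_mul,
    mul_one, mul_one, hab]

lemma real_convex {μ ν : Measure (ℤ → Fin D)} [IsProbabilityMeasure μ] [IsProbabilityMeasure ν] (a b : ℝ≥0∞)
    (hab : a + b = 1) (S : Set (ℤ → Fin D)) :
    (a • μ + b • ν).real S = a.toReal * μ.real S + b.toReal * ν.real S := by
  have ha : a ≠ ⊤ := ne_top_of_le_ne_top ENNReal.one_ne_top (hab ▸ le_self_add)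
  have hb : b ≠ ⊤ := ne_top_of_le_ne_top ENNReal.one_ne_top (hab ▸ le_add_self)
  unfold Measure.real
  rw [Measure.add_apply, Measure.smul_apply, Measure.smul_apply, smul_eq_mul, smul_eq_mul, ENNReal.toReal_add,
    ENNReal.toReal_mul, ENNReal.toReal_mul]
  · exact ENNReal.mul_ne_top ha (measure_ne_top _ _)
  · exact ENNReal.mul_ne_top hb (measure_ne_top _ _)

/-- a mixture of two quantum limits is a quantum limit -/
theorem QL_convex (hD : 2 ≤ D) {μ ν : Measure (ℤ → Fin D)} [IsProbabilityMeasure μ] [IsProbabilityMeasure ν]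
    (h : IsQuantumLimit D μ) (h' : IsQuantumLimit D ν) (a b : ℝ≥0∞) (hab : a + b = 1) :
    IsQuantumLimit D (a • μ + b • ν) := by
  have ha : a ≠ ⊤ := ne_top_of_le_ne_top ENNReal.one_ne_top (hab ▸ le_self_add)
  have hb : b ≠ ⊤ := ne_top_of_le_ne_top ENNReal.one_ne_top (hab ▸ le_add_self)
  obtain ⟨ρ, h1, h2⟩ := QL_state hD h
  obtain ⟨ρ', h3, h4⟩ := QL_state hD h'
  have := prob_convex (μ := μ) (ν := ν) a b hab
  have h5 : a.toReal + b.toReal = 1 := by
    rw [← ENNReal.toReal_add ha hb, hab, ENNReal.toReal_one]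
  refine state_QL hD (inv_convex h1 h3 a.toReal b.toReal ENNReal.toReal_nonneg ENNReal.toReal_nonneg h5)
    fun m n w => ?_
  rw [real_convex a b hab, h2 m n w, h4 m n w]
  simp only [Matrix.add_apply, Matrix.smul_apply, smul_eq_mul, Complex.add_re, Complex.re_ofReal_mul]

variable [NeZero D]

lemma meas_ngv : Measurable (ngv : (ℤ → Fin D) → (ℤ → Fin D)) :=
  measurable_pi_lambda _ fun i => (measurable_of_finite fun a : Fin D => - a).comp (measurable_pi_apply i)

lemma digits_cyl (m : ℤ) {n : ℕ} (w : Fin n → Fin D) : (digits D).real (cylinder m w) = ((D : ℝ) ^ n)⁻¹ := by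
  have h := digits_box m (fun _ : Fin n => (1 : Fin 3)) w
  have e1 : {y : ℤ → Fin D | ∀ i : Fin n, (if (1 : Fin 3) = 0 then 0 else y (m + i)) = w i} = cylinder m w := by
    ext y
    rfl
  rw [e1] at h
  rw [h]
  simp [dg]

omit [NeZero D] in
lemma shf_cyl (m : ℤ) {n : ℕ} (w : Fin n → Fin D) : shf ⁻¹' (cylinder m w) = cylinder (m + 1) w := by
  ext x
  refine forall_congr' fun i => ?_
  unfold shf
  rw [show m + (i : ℤ) + 1 = m + 1 + i by ring]

lemma ngv_cyl (m : ℤ) {n : ℕ} (w : Fin n → Fin D) : ngv ⁻¹' (cylinder m w) = cylinder m (fun i => - w i) := by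
  ext x
  refine forall_congr' fun i => ?_
  exact neg_eq_iff_eq_neg

lemma neg_mod (a b : Fin D) (h : ((a : ℕ) + (b : ℕ)) % D = 0) : b = - a := by
  have : a + b = 0 := by
    rw [Fin.ext_iff, Fin.val_add, h]
    rfl
  exact (neg_eq_of_add_eq_zero_right this).symm

/-- the mixture of an invariant measure with the uniform measure -/
theorem QL_half (hD : 2 ≤ D) {κ : Measure (ℤ → Fin D)} [IsProbabilityMeasure κ] (h1 : κ.map shf = κ)
    (h2 : κ.map ngv = κ) : IsQuantumLimit D ((1 / 2 : ℝ≥0∞) • κ + (1 / 2 : ℝ≥0∞) • digits D) := by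
  have hab : (1 / 2 : ℝ≥0∞) + 1 / 2 = 1 := by rw [one_div, ENNReal.inv_two_add_inv_two]
  have hP := prob_convex (μ := κ) (ν := digits D) (1 / 2) (1 / 2) hab
  obtain ⟨ρ, h3, h4⟩ := Pool.Agent.N282.WB.CO_mix Pool.Agent.N282.WB.a_MX hD
    ((1 / 2 : ℝ≥0∞) • κ + (1 / 2 : ℝ≥0∞) • digits D) κ
    (fun m n w => by
      have e1 : κ.real (cylinder (m + 1) w) = κ.real (cylinder m w) := by
        rw [← shf_cyl, ← map_measureReal_apply meas_shf (meas_cyl m w), h1]
      exact e1)
    (fun m n w w' hw => by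
      have e1 : w' = fun i => - w i := funext fun i => neg_mod _ _ (hw i)
      have e2 : κ.real (cylinder m w') = κ.real (cylinder m w) := by
        rw [e1, ← ngv_cyl, ← map_measureReal_apply meas_ngv (meas_cyl m w), h2]
      have e3 := real_convex (μ := κ) (ν := digits D) (1 / 2) (1 / 2) hab (cylinder m w)
      rw [digits_cyl] at e3
      have e4 : (1 / 2 : ℝ≥0∞).toReal = 1 / 2 := by simp
      rw [e4] at e3
      have e5 : 1 / 2 * κ.real (cylinder m w) + 1 / 2 * ((D : ℝ) ^ n)⁻¹ =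
        1 / 4 * κ.real (cylinder m w) + 1 / 4 * κ.real (cylinder m w') + 1 / 2 * ((D : ℝ) ^ n)⁻¹ := by
        rw [e2]
        ring
      exact e3.trans e5)
  have h5 : IsInvariantState D ρ :=
    (Pool.Agent.Results.MP_07c750_an.WalshBakerQuantumLimits.isInv_iff D ρ).2 h3
  exact state_QL hD h5 fun m n w => h4 m n w

end Pool.Agent.H34.WB
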