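import Pool.Agent.H34.WB.Stm
import Pool.Graph.R_seed8.R332.TW.Rot

/-! The frequency of the places of type `0`. -/

set_option autoImplicit false

open MeasureTheory Filter Topology Set

noncomputable section

namespace Pool.Agent.H34.WB

lemma fr_coe (x : ℝ) : fr (x : UnitAddCircle) = Int.fract x := by
  have h := AddCircle.coe_equivIco_mk_apply (1 : ℝ) x
  rw [div_one, mul_one] at h
  exact h

lemma coe_fr (z : UnitAddCircle) : ((fr z : ℝ) : UnitAddCircle) = z := AddCircle.coe_equivIco

lemma fr_rot (θ : UnitAddCircle) (α : ℝ) (i : ℤ) : fr (θ + i • (α : UnitAddCircle)) = Int.fract (α * i + fr θ) := by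
  rw [← fr_coe]
  congr 1
  rw [AddCircle.coe_add, coe_fr, add_comm]
  congr 1
  rw [← AddCircle.coe_zsmul, zsmul_eq_mul, mul_comm]

/-- the number of `i < n` with `fract (α i + t) < r` -/
def cnt (α t r : ℝ) (n : ℕ) : ℕ := ((Finset.range n).filter fun i : ℕ => Int.fract (α * i + t) < r).card

lemma cnt_lim {α : ℝ} (hα : Irrational α) (t : ℝ) {r : ℝ} (h0 : 0 ≤ r) (h1 : r ≤ 1) :
    Tendsto (fun n : ℕ => (cnt α t r n : ℝ) / n) atTop (𝓝 r) := by
  classical
  rw [tendsto_order]
  constructor
  · intro b hb
    have h2 := Pool.Agent.R332.TW.rotation_freq hα (t - r) (c₀ := 1 - r) (c := 1 - b) (by linarith) (by linarith)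
    filter_upwards [h2, eventually_gt_atTop 0] with n hn hn0
    have hn' : (0 : ℝ) < n := by exact_mod_cast hn0
    rw [lt_div_iff₀ hn']
    have h3 : ((Finset.range n).filter fun i : ℕ => ¬ Int.fract (α * i + t) < r).card ≤
        ((Finset.range n).filter (fun m : ℕ => ∃ z : ℤ, 0 ≤ α * m + (t - r) - z ∧ α * m + (t - r) - z ≤ 1 - r)).card := by
      refine Finset.card_le_card fun i hi => ?_
      rw [Finset.mem_filter] at hi ⊢
      refine ⟨hi.1, ⌊α * i + t⌋, ?_⟩
      have h4 := Int.self_sub_floor (α * i + t)
      have h5 := Int.fract_lt_one (α * i + t)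
      have h6 := not_lt.1 hi.2
      constructor <;> linarith
    have h4 : cnt α t r n + ((Finset.range n).filter fun i : ℕ => ¬ Int.fract (α * i + t) < r).card = n := by
      unfold cnt
      rw [Finset.card_filter_add_card_filter_not, Finset.card_range]
    have h5 : (cnt α t r n : ℝ) + ((Finset.range n).filter fun i : ℕ => ¬ Int.fract (α * i + t) < r).card = n := by
      exact_mod_cast h4
    have h6 : (((Finset.range n).filter fun i : ℕ => ¬ Int.fract (α * i + t) < r).card : ℝ) ≤
        ((Finset.range n).filter (fun m : ℕ => ∃ z : ℤ, 0 ≤ α * m + (t - r) - z ∧ α * m + (t - r) - z ≤ 1 - r)).card := by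
      exact_mod_cast h3
    linarith
  · intro b hb
    have h2 := Pool.Agent.R332.TW.rotation_freq hα t (c₀ := r) (c := b) h0 hb
    filter_upwards [h2, eventually_gt_atTop 0] with n hn hn0
    have hn' : (0 : ℝ) < n := by exact_mod_cast hn0
    rw [div_lt_iff₀ hn']
    refine lt_of_le_of_lt ?_ hn
    have h3 : cnt α t r n ≤
        ((Finset.range n).filter (fun m : ℕ => ∃ z : ℤ, 0 ≤ α * m + t - z ∧ α * m + t - z ≤ r)).card := by
      unfold cnt
      refine Finset.card_le_card fun i hi => ?_
      rw [Finset.mem_filter] at hi ⊢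
      refine ⟨hi.1, ⌊α * i + t⌋, ?_⟩
      have h4 := Int.self_sub_floor (α * i + t)
      have h5 := Int.fract_nonneg (α * i + t)
      have h6 := hi.2
      constructor <;> linarith
    exact_mod_cast h3

lemma card_fin (n : ℕ) (p : ℕ → Prop) [DecidablePred p] :
    (Finset.univ.filter fun i : Fin n => p i).card = ((Finset.range n).filter p).card := by
  rw [Finset.card_filter, Finset.card_filter, Fin.sum_univ_eq_sum_range (fun i => if p i then 1 else 0) n]

theorem s_freq : S_freq := by
  rintro α hα ⟨b, ⟨x, y⟩, θ⟩ h1 h2 h3 h4 h5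
  simp only at h1 h2 h3 h4 h5 ⊢
  cases b
  · simp only [Bool.false_eq_true, if_false]
    refine (cnt_lim hα (fr θ) (r := 1 - x) (by linarith) (by linarith)).congr fun n => ?_
    congr 2
    unfold cnt zeros typ
    rw [← card_fin]
    congr 1
    ext i
    simp only [Finset.mem_filter, Finset.mem_univ, true_and, Bool.false_eq_true, if_false, fr_rot, Int.cast_natCast]
    split_ifs with h6 h7 <;> simp [h6]
  · simp only [if_true]
    have h6 := (cnt_lim hα (fr θ) (r := 2 - x - y) (by linarith) (by linarith)).sub
      (cnt_lim hα (fr θ) (r := 1 - x) (by linarith) (by linarith))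
    have h7 : 2 - x - y - (1 - x) = 1 - y := by ring
    rw [h7] at h6
    refine h6.congr fun n => ?_
    rw [← sub_div]
    congr 1
    have h8 : (zeros (typ α) n (true, (x, y), θ)).card + cnt α (fr θ) (1 - x) n = cnt α (fr θ) (2 - x - y) n := by
      unfold cnt
      rw [← Finset.card_filter_add_card_filter_not (s := (Finset.range n).filter fun i : ℕ =>
        Int.fract (α * i + fr θ) < 2 - x - y) (fun i : ℕ => Int.fract (α * i + fr θ) < 1 - x), add_comm,
        Finset.filter_filter, Finset.filter_filter]
      congr 1
      · congr 1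
        ext i
        simp only [Finset.mem_filter]
        refine and_congr_right fun _ => ?_
        constructor
        · intro h
          exact ⟨by linarith, h⟩
        · exact fun h => h.2
      · unfold zeros typ
        rw [← card_fin]
        congr 1
        ext i
        simp only [Finset.mem_filter, Finset.mem_univ, true_and, if_true, fr_rot, Int.cast_natCast]
        have s0 : sw 0 = 1 := rfl
        have s1 : sw 1 = 0 := rfl
        have s2 : sw 2 = 2 := rfl
        split_ifs with h9 h10
        · simp [h9, s0]
        · simp [h9, h10, s1]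
        · simp [h9, h10, s2]
    rw [← h8]
    push_cast
    ring

end Pool.Agent.H34.WB
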