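import Pool.Agent.H34.WB.Box

/-! The local entropy of the law of the masked digits. -/

set_option autoImplicit false

open MeasureTheory Filter Topology Set
open Pool.Agent.Results.MP_07c750_an.WalshBakerQuantumLimits

noncomputable section

namespace Pool.Agent.H34.WB

variable {D : ℕ} [NeZero D]

/-- type `0` on `S`, type `1` outside of `S` -/
def tS {n : ℕ} (S : Finset (Fin n)) (i : Fin n) : Fin 3 := if i ∈ S then 0 else 1

lemma tS_zero {n : ℕ} (S : Finset (Fin n)) (i : Fin n) : tS S i = 0 ↔ i ∈ S := by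
  unfold tS
  by_cases h : i ∈ S <;> simp [h]

lemma prod_ite_card {n : ℕ} (S : Finset (Fin n)) (c : ℝ) : (∏ i, if i ∈ S then (1 : ℝ) else c) = c ^ (Sᶜ).card := by
  classical
  rw [Finset.prod_ite, Finset.prod_const_one, one_mul, Finset.prod_const]
  congr 2
  ext i
  simp

lemma dg_prod_le {n : ℕ} (S : Finset (Fin n)) (w : Fin n → Fin D) :
    ∏ i, dg D (tS S i) (w i) ≤ (1 / (D : ℝ)) ^ (Sᶜ).card := by
  rw [← prod_ite_card]
  refine Finset.prod_le_prod (fun i _ => dg_nonneg _ _) fun i _ => ?_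
  unfold dg
  simp only [tS_zero]
  split_ifs
  · exact le_refl _
  · exact zero_le_one
  · exact le_refl _

lemma dg_prod_eq {n : ℕ} (S : Finset (Fin n)) (w : Fin n → Fin D) (h : ∀ i ∈ S, w i = 0) :
    ∏ i, dg D (tS S i) (w i) = (1 / (D : ℝ)) ^ (Sᶜ).card := by
  rw [← prod_ite_card]
  refine Finset.prod_congr rfl fun i _ => ?_
  unfold dg
  simp only [tS_zero]
  by_cases hi : i ∈ S
  · rw [if_pos hi, if_pos hi, if_pos (h i hi)]
  · rw [if_neg hi, if_neg hi]

variable {Ω : Type} [MeasurableSpace Ω] (P : Measure Ω) [IsProbabilityMeasure P] (T : Ω → ℤ → Fin 3)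

/-- the law of the places of type `0` -/
def kap (n : ℕ) (S : Finset (Fin n)) : ℝ := P.real {ω | zeros T n ω = S}

omit [MeasurableSpace Ω] in
lemma mem_zeros (n : ℕ) (ω : Ω) (i : Fin n) : i ∈ zeros T n ω ↔ T ω (i : ℕ) = 0 := by
  unfold zeros
  simp

omit [MeasurableSpace Ω] in
lemma zeros_eq (n : ℕ) (ω : Ω) (S : Finset (Fin n)) :
    zeros T n ω = S ↔ ∀ i : Fin n, (T ω (i : ℕ) = 0 ↔ i ∈ S) := by
  rw [Finset.ext_iff]
  simp only [mem_zeros]

lemma meas_zeros (hT : ∀ i, Measurable fun ω => T ω i) (n : ℕ) (S : Finset (Fin n)) :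
    MeasurableSet {ω | zeros T n ω = S} := by
  have : {ω | zeros T n ω = S} = ⋂ i : Fin n, (fun ω => T ω (i : ℕ)) ⁻¹' {t | t = 0 ↔ i ∈ S} := by
    ext ω
    simp only [Set.mem_ofPred_eq, Set.mem_iInter, Set.mem_preimage]
    exact zeros_eq T n ω S
  rw [this]
  exact MeasurableSet.iInter fun i => hT _ (Set.toFinite _).measurableSet

omit [IsProbabilityMeasure P] in
lemma kap_nonneg (n : ℕ) (S : Finset (Fin n)) : 0 ≤ kap P T n S := measureReal_nonneg

lemma kap_sum (hT : ∀ i, Measurable fun ω => T ω i) (n : ℕ) : ∑ S, kap P T n S ≤ 1 := by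
  unfold kap
  rw [← measureReal_biUnion_finset]
  · exact measureReal_le_one
  · intro a _ b _ hab
    refine Set.disjoint_left.2 fun x hx hx' => hab ?_
    exact hx.symm.trans hx'
  · intro a _
    exact meas_zeros T hT n a

/-- the words outside of `S` -/
def Gs {n : ℕ} (S : Finset (Fin n)) (w : Fin n → Fin D) : Set (ℤ → Fin D) :=
  {y | ∀ i : Fin n, (if tS S i = 0 then 0 else y ((0 : ℤ) + i)) = w i}

omit [MeasurableSpace Ω] in
lemma pair_set (n : ℕ) (S : Finset (Fin n)) (w : Fin n → Fin D) :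
    {p : Ω × (ℤ → Fin D) | zeros T n p.1 = S ∧ word n (mask T p) = w} = {ω | zeros T n ω = S} ×ˢ Gs S w := by
  ext p
  obtain ⟨ω, y⟩ := p
  simp only [Set.mem_ofPred_eq, Set.mem_prod, Gs, zero_add]
  refine and_congr_right fun h => ?_
  rw [funext_iff]
  refine forall_congr' fun i => ?_
  unfold word mask
  have h1 : T ω ((i : ℕ) : ℤ) = 0 ↔ tS S i = 0 := by
    rw [tS_zero, ← h, mem_zeros]
  simp only [h1]

omit [IsProbabilityMeasure P] in
lemma pair_real (n : ℕ) (S : Finset (Fin n)) (w : Fin n → Fin D) :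
    (P.prod (digits D)).real {p | zeros T n p.1 = S ∧ word n (mask T p) = w} =
      kap P T n S * ∏ i, dg D (tS S i) (w i) := by
  rw [pair_set, measureReal_prod_prod]
  congr 1
  exact digits_box 0 (tS S) w

/-- the mass of the word of `p` is at least the mass of its pattern times `D ^ (- number of free digits)` -/
lemma mass_ge (hT : ∀ i, Measurable fun ω => T ω i) (n : ℕ) (p : Ω × (ℤ → Fin D)) :
    kap P T n (zeros T n p.1) * (1 / (D : ℝ)) ^ ((zeros T n p.1)ᶜ).card ≤
      (maskLaw D P T).real (cylinder 0 (word n (mask T p))) := by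
  have h1 := pair_real P T n (zeros T n p.1) (word n (mask T p))
  rw [dg_prod_eq] at h1
  · rw [← h1, maskLaw, map_measureReal_apply (meas_mask T hT) (meas_cyl 0 _)]
    refine measureReal_mono fun q hq => ?_
    rw [Set.mem_preimage, cyl_word]
    exact hq.2
  · intro i hi
    rw [mem_zeros] at hi
    unfold word mask
    rw [if_pos hi]

/-- patterns of small probability are rare -/
lemma rare (n : ℕ) (δ : ℝ) :
    P.real {ω | kap P T n (zeros T n ω) < δ} ≤ (Set.range (zeros T n)).ncard * δ ∨ δ < 0 := by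
  classical
  by_cases hδ : δ < 0
  · exact Or.inr hδ
  left
  rw [not_lt] at hδ
  let R : Finset (Finset (Fin n)) := Finset.univ.filter fun S => S ∈ Set.range (zeros T n)
  have hR : R.card = (Set.range (zeros T n)).ncard := by
    rw [← Set.ncard_coe_finset]
    congr 1
    ext S
    simp [R]
  have h1 : {ω | kap P T n (zeros T n ω) < δ} ⊆ ⋃ S ∈ R.filter fun S => kap P T n S < δ, {ω | zeros T n ω = S} := by
    intro ω hω
    simp only [Set.mem_iUnion, Finset.mem_filter, exists_prop]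
    exact ⟨zeros T n ω, ⟨by simp [R], hω⟩, rfl⟩
  calc P.real {ω | kap P T n (zeros T n ω) < δ} ≤
      P.real (⋃ S ∈ R.filter fun S => kap P T n S < δ, {ω | zeros T n ω = S}) := measureReal_mono h1 (measure_ne_top _ _)
    _ ≤ ∑ S ∈ R.filter fun S => kap P T n S < δ, kap P T n S := measureReal_biUnion_finset_le _ _
    _ ≤ ∑ S ∈ R.filter fun S => kap P T n S < δ, δ :=
        Finset.sum_le_sum fun S hS => (Finset.mem_filter.1 hS).2.le
    _ = (R.filter fun S => kap P T n S < δ).card * δ := by rw [Finset.sum_const, nsmul_eq_mul]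
    _ ≤ (Set.range (zeros T n)).ncard * δ := by
        refine mul_le_mul_of_nonneg_right ?_ hδ
        rw [← hR]
        exact_mod_cast Finset.card_filter_le _ _

/-- the mass of the word is rarely much larger than `D ^ (- number of free digits)` -/
lemma markov (hT : ∀ i, Measurable fun ω => T ω i) (n : ℕ) (c : ℝ) (hc : 0 < c) :
    (P.prod (digits D)).real {p | c ≤ (maskLaw D P T).real (cylinder 0 (word n (mask T p))) *
      (D : ℝ) ^ ((zeros T n p.1)ᶜ).card} ≤ c⁻¹ := by
  classical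
  have := prob_mask (D := D) P T hT
  have hD : (0 : ℝ) < D := by exact_mod_cast NeZero.pos D
  set μ := maskLaw D P T with hμ
  let I : Finset (Finset (Fin n) × (Fin n → Fin D)) :=
    Finset.univ.filter fun q => c ≤ μ.real (cylinder 0 q.2) * (D : ℝ) ^ ((q.1)ᶜ).card
  have h1 : {p : Ω × (ℤ → Fin D) | c ≤ μ.real (cylinder 0 (word n (mask T p))) *
      (D : ℝ) ^ ((zeros T n p.1)ᶜ).card} ⊆ ⋃ q ∈ I, {p | zeros T n p.1 = q.1 ∧ word n (mask T p) = q.2} := by
    intro p hp
    simp only [Set.mem_iUnion, exists_prop]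
    refine ⟨(zeros T n p.1, word n (mask T p)), ?_, rfl, rfl⟩
    simp only [I, Finset.mem_filter, Finset.mem_univ, true_and]
    exact hp
  calc _ ≤ (P.prod (digits D)).real (⋃ q ∈ I, {p | zeros T n p.1 = q.1 ∧ word n (mask T p) = q.2}) :=
        measureReal_mono h1 (measure_ne_top _ _)
    _ ≤ ∑ q ∈ I, (P.prod (digits D)).real {p | zeros T n p.1 = q.1 ∧ word n (mask T p) = q.2} :=
        measureReal_biUnion_finset_le _ _
    _ ≤ ∑ q ∈ I, c⁻¹ * (kap P T n q.1 * μ.real (cylinder 0 q.2)) := by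
        refine Finset.sum_le_sum fun q hq => ?_
        simp only [I, Finset.mem_filter, Finset.mem_univ, true_and] at hq
        rw [pair_real]
        have h2 := dg_prod_le q.1 q.2 (D := D)
        have h3 : (1 / (D : ℝ)) ^ ((q.1)ᶜ).card ≤ c⁻¹ * μ.real (cylinder 0 q.2) := by
          rw [one_div, inv_pow, inv_le_iff_one_le_mul₀ (by positivity)]
          have h4 : c⁻¹ * c = 1 := inv_mul_cancel₀ hc.ne'
          calc (1 : ℝ) = c⁻¹ * c := h4.symm
            _ ≤ c⁻¹ * (μ.real (cylinder 0 q.2) * (D : ℝ) ^ ((q.1)ᶜ).card) :=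
                mul_le_mul_of_nonneg_left hq (inv_pos.2 hc).le
            _ = _ := by ring
        calc _ ≤ kap P T n q.1 * (c⁻¹ * μ.real (cylinder 0 q.2)) :=
              mul_le_mul_of_nonneg_left (h2.trans h3) (kap_nonneg P T n q.1)
          _ = _ := by ring
    _ ≤ ∑ q : Finset (Fin n) × (Fin n → Fin D), c⁻¹ * (kap P T n q.1 * μ.real (cylinder 0 q.2)) := by
        refine Finset.sum_le_sum_of_subset_of_nonneg (Finset.subset_univ _) fun q _ _ => ?_
        have := kap_nonneg P T n q.1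
        have h5 : 0 ≤ μ.real (cylinder 0 q.2) := measureReal_nonneg
        positivity
    _ = c⁻¹ * ((∑ S, kap P T n S) * ∑ w : Fin n → Fin D, μ.real (cylinder 0 w)) := by
        rw [← Finset.mul_sum, Finset.sum_mul_sum, ← Fintype.sum_prod_type']
    _ ≤ c⁻¹ * (1 * 1) := by
        refine mul_le_mul_of_nonneg_left ?_ (inv_pos.2 hc).le
        refine mul_le_mul (kap_sum P T hT n) (sum_le_one μ n Finset.univ) ?_ zero_le_one
        exact Finset.sum_nonneg fun w _ => measureReal_nonneg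
    _ = c⁻¹ := by ring

/-- eventually the pattern of the places of type `0` is not too improbable -/
lemma kap_ev (hK : ∃ K : ℕ, ∀ n : ℕ, (Set.range (zeros T n)).ncard ≤ K * (n + 1) ^ K) :
    ∃ K : ℕ, ∀ᵐ ω ∂P, ∀ᶠ n : ℕ in atTop, (1 / ((n : ℝ) + 1)) ^ K ≤ kap P T n (zeros T n ω) := by
  obtain ⟨K, hK⟩ := hK
  refine ⟨K + 2, ?_⟩
  have h1 : ∀ n : ℕ, P {ω | kap P T n (zeros T n ω) < (1 / ((n : ℝ) + 1)) ^ (K + 2)} ≤
      ENNReal.ofReal (K * (1 / ((n : ℝ) + 1)) ^ 2) := by
    intro n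
    rw [← ofReal_measureReal]
    refine ENNReal.ofReal_le_ofReal ?_
    have h2 := rare P T n ((1 / ((n : ℝ) + 1)) ^ (K + 2))
    have h3 : 0 ≤ (1 / ((n : ℝ) + 1)) ^ (K + 2) := by positivity
    refine (h2.resolve_right (not_lt.2 h3)).trans ?_
    have h4 : ((Set.range (zeros T n)).ncard : ℝ) ≤ K * ((n : ℝ) + 1) ^ K := by exact_mod_cast hK n
    calc ((Set.range (zeros T n)).ncard : ℝ) * (1 / ((n : ℝ) + 1)) ^ (K + 2) ≤
        (K * ((n : ℝ) + 1) ^ K) * (1 / ((n : ℝ) + 1)) ^ (K + 2) := mul_le_mul_of_nonneg_right h4 h3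
      _ = K * (1 / ((n : ℝ) + 1)) ^ 2 := by
        have h5 : ((n : ℝ) + 1) ^ K * (1 / ((n : ℝ) + 1)) ^ K = 1 := by
          rw [← mul_pow, mul_one_div_cancel (by positivity), one_pow]
        rw [pow_add]
        linear_combination (K : ℝ) * (1 / ((n : ℝ) + 1)) ^ 2 * h5
  have h2 : ∑' n : ℕ, P {ω | kap P T n (zeros T n ω) < (1 / ((n : ℝ) + 1)) ^ (K + 2)} ≠ ⊤ := by
    have h3 : Summable fun n : ℕ => (K : ℝ) * (1 / ((n : ℝ) + 1)) ^ 2 := by
      refine Summable.mul_left _ ?_
      have h4 := (summable_nat_add_iff 1).2 (Real.summable_one_div_nat_pow.2 one_lt_two)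
      refine h4.congr fun n => ?_
      push_cast
      rw [one_div_pow]
    refine ne_top_of_le_ne_top ?_ (ENNReal.tsum_le_tsum h1)
    rw [← ENNReal.ofReal_tsum_of_nonneg (fun n => by positivity) h3]
    exact ENNReal.ofReal_ne_top
  filter_upwards [ae_eventually_notMem h2] with ω hω
  filter_upwards [hω] with n hn
  exact not_lt.1 hn

lemma mass_ev (hT : ∀ i, Measurable fun ω => T ω i) (ε : ℝ) (hε : 0 < ε) :
    ∀ᵐ p ∂(P.prod (digits D)), ∀ᶠ n : ℕ in atTop, (maskLaw D P T).real (cylinder 0 (word n (mask T p))) *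
      (D : ℝ) ^ ((zeros T n p.1)ᶜ).card < Real.exp (ε * n) := by
  have h1 : ∀ n : ℕ, (P.prod (digits D)) {p | Real.exp (ε * n) ≤ (maskLaw D P T).real
      (cylinder 0 (word n (mask T p))) * (D : ℝ) ^ ((zeros T n p.1)ᶜ).card} ≤ ENNReal.ofReal (Real.exp (-ε) ^ n) := by
    intro n
    rw [← ofReal_measureReal]
    refine ENNReal.ofReal_le_ofReal ?_
    refine (markov P T hT n _ (Real.exp_pos _)).trans (le_of_eq ?_)
    rw [← Real.exp_neg, ← Real.exp_nat_mul]
    congr 1
    ring
  have h2 : ∑' n : ℕ, (P.prod (digits D)) {p | Real.exp (ε * n) ≤ (maskLaw D P T).real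
      (cylinder 0 (word n (mask T p))) * (D : ℝ) ^ ((zeros T n p.1)ᶜ).card} ≠ ⊤ := by
    have h3 : Summable fun n : ℕ => Real.exp (-ε) ^ n :=
      summable_geometric_of_lt_one (Real.exp_pos _).le (Real.exp_lt_one_iff.2 (by linarith))
    refine ne_top_of_le_ne_top ?_ (ENNReal.tsum_le_tsum h1)
    rw [← ENNReal.ofReal_tsum_of_nonneg (fun n => by positivity) h3]
    exact ENNReal.ofReal_ne_top
  filter_upwards [ae_eventually_notMem h2] with p hp
  filter_upwards [hp] with n hn
  exact not_le.1 hn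

lemma log_ratio (K : ℕ) : Tendsto (fun n : ℕ => (K : ℝ) * Real.log ((n : ℝ) + 1) / n) atTop (𝓝 0) := by
  have h1 : Tendsto (fun x : ℝ => Real.log x / x) atTop (𝓝 0) := by
    have := Real.isLittleO_log_id_atTop.tendsto_div_nhds_zero
    simpa using this
  have h2 : Tendsto (fun n : ℕ => (n : ℝ) + 1) atTop atTop :=
    tendsto_atTop_add_const_right _ _ tendsto_natCast_atTop_atTop
  have h3 := h1.comp h2
  have h4 : Tendsto (fun n : ℕ => ((n : ℝ) + 1) / n) atTop (𝓝 1) := by
    have h5 : Tendsto (fun n : ℕ => 1 + ((n : ℝ))⁻¹) atTop (𝓝 (1 + 0)) :=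
      (tendsto_inv_atTop_nhds_zero_nat (𝕜 := ℝ)).const_add 1
    rw [add_zero] at h5
    refine h5.congr' ?_
    filter_upwards [eventually_gt_atTop 0] with n hn
    have : (n : ℝ) ≠ 0 := by exact_mod_cast hn.ne'
    field_simp
  have h6 := (h3.mul h4).const_mul (K : ℝ)
  rw [zero_mul, mul_zero] at h6
  refine h6.congr' ?_
  filter_upwards [eventually_gt_atTop 0] with n hn
  have h7 : (n : ℝ) ≠ 0 := by exact_mod_cast hn.ne'
  have h8 : (n : ℝ) + 1 ≠ 0 := by positivity
  simp only [Function.comp]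
  field_simp

theorem s_local : S_local := by
  intro D _ hD Ω _ P _ T hT a ha hK
  have hD0 : (0 : ℝ) < D := by exact_mod_cast NeZero.pos D
  obtain ⟨K, hK'⟩ := kap_ev P T hK
  have ha' : ∀ᵐ p ∂(P.prod (digits D)),
      Tendsto (fun n : ℕ => ((zeros T n p.1).card : ℝ) / n) atTop (𝓝 (a p.1)) :=
    Measure.quasiMeasurePreserving_fst.ae ha
  have hK'' : ∀ᵐ p ∂(P.prod (digits D)), ∀ᶠ n : ℕ in atTop, (1 / ((n : ℝ) + 1)) ^ K ≤ kap P T n (zeros T n p.1) :=
    Measure.quasiMeasurePreserving_fst.ae hK'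
  have hM : ∀ᵐ p ∂(P.prod (digits D)), ∀ k : ℕ, ∀ᶠ n : ℕ in atTop,
      (maskLaw D P T).real (cylinder 0 (word n (mask T p))) * (D : ℝ) ^ ((zeros T n p.1)ᶜ).card <
        Real.exp (1 / ((k : ℝ) + 1) * n) := by
    rw [ae_all_iff]
    intro k
    exact mass_ev P T hT _ (by positivity)
  filter_upwards [ha', hK'', hM] with p h1 h2 h3
  set c : ℕ → ℝ := fun n => (1 - ((zeros T n p.1).card : ℝ) / n) * Real.log D with hc
  have hcl : Tendsto c atTop (𝓝 ((1 - a p.1) * Real.log D)) := (h1.const_sub 1).mul_const _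
  have hcard : ∀ n : ℕ, 0 < n → (((zeros T n p.1)ᶜ).card : ℝ) * Real.log D / n = c n := by
    intro n hn
    have h4 : (((zeros T n p.1)ᶜ).card : ℝ) = n - (zeros T n p.1).card := by
      rw [Finset.card_compl, Fintype.card_fin, Nat.cast_sub]
      exact (Finset.card_le_univ _).trans (by rw [Fintype.card_fin])
    have h5 : (n : ℝ) ≠ 0 := by exact_mod_cast hn.ne'
    rw [h4, hc]
    field_simp
  have hup : ∀ᶠ n : ℕ in atTop, info (maskLaw D P T) n (mask T p) ≤ c n + (K : ℝ) * Real.log ((n : ℝ) + 1) / n := by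
    filter_upwards [h2, eventually_gt_atTop 0] with n hn hn0
    have h4 := mass_ge P T hT n p (D := D)
    have h5 : 0 < (1 / ((n : ℝ) + 1)) ^ K * (1 / (D : ℝ)) ^ ((zeros T n p.1)ᶜ).card := by positivity
    have h6 : (1 / ((n : ℝ) + 1)) ^ K * (1 / (D : ℝ)) ^ ((zeros T n p.1)ᶜ).card ≤
        (maskLaw D P T).real (cylinder 0 (word n (mask T p))) :=
      (mul_le_mul_of_nonneg_right hn (by positivity)).trans h4
    have h7 := Real.log_le_log h5 h6
    rw [Real.log_mul (by positivity) (by positivity), Real.log_pow, Real.log_pow, one_div, one_div, Real.log_inv,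
      Real.log_inv] at h7
    rw [← hcard n hn0, ← add_div]
    unfold info
    have hn' : (0 : ℝ) < n := by exact_mod_cast hn0
    refine div_le_div_of_nonneg_right ?_ hn'.le
    linarith
  have hpos : ∀ᶠ n : ℕ in atTop, 0 < (maskLaw D P T).real (cylinder 0 (word n (mask T p))) := by
    filter_upwards [h2] with n hn
    have h4 := mass_ge P T hT n p (D := D)
    refine lt_of_lt_of_le ?_ h4
    have h5 : 0 < (1 / ((n : ℝ) + 1)) ^ K := by positivity
    have h6 := lt_of_lt_of_le h5 hn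
    positivity
  have hlow : ∀ k : ℕ, ∀ᶠ n : ℕ in atTop, c n - 1 / ((k : ℝ) + 1) ≤ info (maskLaw D P T) n (mask T p) := by
    intro k
    filter_upwards [h3 k, hpos, eventually_gt_atTop 0] with n hn hn1 hn0
    have hn' : (0 : ℝ) < n := by exact_mod_cast hn0
    have h4 : (maskLaw D P T).real (cylinder 0 (word n (mask T p))) * (D : ℝ) ^ ((zeros T n p.1)ᶜ).card ≠ 0 := by
      positivity
    have h5 := Real.log_le_log (by positivity) hn.le
    rw [Real.log_exp, Real.log_mul hn1.ne' (by positivity), Real.log_pow] at h5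
    rw [← hcard n hn0]
    unfold info
    rw [div_sub' hn'.ne']
    refine div_le_div_of_nonneg_right ?_ hn'.le
    linarith
  rw [tendsto_order]
  constructor
  · intro b hb
    obtain ⟨k, hk⟩ := exists_nat_one_div_lt (sub_pos.2 hb)
    have h4 : Tendsto (fun n => c n - 1 / ((k : ℝ) + 1)) atTop
        (𝓝 ((1 - a p.1) * Real.log D - 1 / ((k : ℝ) + 1))) := hcl.sub_const _
    have h5 := h4.eventually_const_lt (show b < (1 - a p.1) * Real.log D - 1 / ((k : ℝ) + 1) by linarith)
    filter_upwards [h5, hlow k] with n hn hn'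
    exact lt_of_lt_of_le hn hn'
  · intro b hb
    have h4 := hcl.add (log_ratio K)
    rw [add_zero] at h4
    filter_upwards [h4.eventually_lt_const hb, hup] with n hn hn'
    exact lt_of_le_of_lt hn' hn

end Pool.Agent.H34.WB
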