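import Pool.Agent.H34.WB.Stm

/-! The rotation model of the types is invariant. -/

set_option autoImplicit false

open MeasureTheory Filter Topology Set

noncomputable section

namespace Pool.Agent.H34.WB

lemma prob_circ : IsProbabilityMeasure (volume : Measure UnitAddCircle) := ⟨UnitAddCircle.measure_univ⟩

lemma coin_sing (b : Bool) : coin {b} = 2⁻¹ := by
  unfold coin
  rw [Measure.smul_apply, Measure.count_singleton, smul_eq_mul, mul_one]

lemma prob_coin : IsProbabilityMeasure coin := by
  constructor
  unfold coin
  rw [Measure.smul_apply, smul_eq_mul, Measure.count_apply_finite _ (Set.toFinite _)]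
  simp only [Set.Finite.toFinset_univ, Finset.card_univ, Fintype.card_bool]
  exact ENNReal.inv_mul_cancel (by norm_num) (by norm_num)

lemma coin_not : MeasurePreserving not coin coin := by
  refine ⟨measurable_of_finite _, Measure.ext_of_singleton fun b => ?_⟩
  rw [Measure.map_apply (measurable_of_finite _) (measurableSet_singleton _), coin_sing]
  have : not ⁻¹' {b} = {!b} := by
    ext c
    cases b <;> cases c <;> simp
  rw [this, coin_sing]

lemma meas_fr : Measurable fr := by
  have : fr = fun z => ((AddCircle.measurableEquivIco 1 0 z : ℝ)) := rfl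
  rw [this]
  exact measurable_subtype_coe.comp (AddCircle.measurableEquivIco 1 0).measurable

lemma typ_meas (α : ℝ) (i : ℤ) : Measurable fun ω : Par => typ α ω i := by
  have hz : Measurable fun ω : Par => fr (ω.2.2 + i • (α : UnitAddCircle)) :=
    meas_fr.comp ((measurable_snd.comp measurable_snd).add_const _)
  have hx : Measurable fun ω : Par => ω.2.1.1 := measurable_fst.comp (measurable_fst.comp measurable_snd)
  have hy : Measurable fun ω : Par => ω.2.1.2 := measurable_snd.comp (measurable_fst.comp measurable_snd)
  have ht : Measurable fun ω : Par => (if fr (ω.2.2 + i • (α : UnitAddCircle)) < 1 - ω.2.1.1 then (0 : Fin 3) else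
      if fr (ω.2.2 + i • (α : UnitAddCircle)) < 2 - ω.2.1.1 - ω.2.1.2 then 1 else 2) := by
    refine Measurable.ite (measurableSet_lt hz (measurable_const.sub hx)) measurable_const ?_
    exact Measurable.ite (measurableSet_lt hz ((measurable_const.sub hx).sub hy)) measurable_const measurable_const
  unfold typ
  refine Measurable.ite ?_ ((measurable_of_finite sw).comp ht) ht
  exact measurable_fst (measurableSet_singleton true)

theorem s_typ : S_typ := by
  intro α π hπ
  have h1 := prob_circ
  have h2 := prob_coin
  have hP : IsProbabilityMeasure (parLaw π) := by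
    unfold parLaw
    infer_instance
  refine ⟨hP, ⟨typ_meas α, ?_, ?_⟩⟩
  · refine ⟨Prod.map id (Prod.map id (fun θ => θ + (α : UnitAddCircle))), ?_, fun ω i => ?_⟩
    · unfold parLaw
      exact (MeasurePreserving.id _).prod ((MeasurePreserving.id _).prod (measurePreserving_add_right _ _))
    · have : ω.2.2 + (α : UnitAddCircle) + i • (α : UnitAddCircle) = ω.2.2 + (i + 1) • (α : UnitAddCircle) := by
        rw [add_one_zsmul, add_assoc, add_comm (α : UnitAddCircle)]
      unfold typ
      simp only [Prod.map_fst, Prod.map_snd, id, this]
  · refine ⟨Prod.map not id, ?_, fun ω i => ?_⟩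
    · unfold parLaw
      exact coin_not.prod (MeasurePreserving.id _)
    · have hs : ∀ a : Fin 3, sw (sw a) = a := by decide
      unfold typ
      simp only [Prod.map_fst, Prod.map_snd, id]
      rcases h : ω.1 with _ | _
      · simp
      · simp [hs]

end Pool.Agent.H34.WB
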