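import Pool.Agent.H34.WB.State
import Pool.Agent.H34.WB.Local
import Pool.Agent.H34.WB.Typ
import Pool.Agent.H34.WB.Freq

/-! The law of the local entropy of the law of the masked digits. -/

set_option autoImplicit false

open MeasureTheory Filter Topology Set
open Pool.Agent.Results.MP_07c750_an.WalshBakerQuantumLimits

noncomputable section

namespace Pool.Agent.H34.WB

/-- `y` or `x`, according to the coin -/
def pick (ω : Par) : ℝ := if ω.1 then ω.2.1.2 else ω.2.1.1

lemma meas_pick : Measurable pick := by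
  have hx : Measurable fun ω : Par => ω.2.1.1 := measurable_fst.comp (measurable_fst.comp measurable_snd)
  have hy : Measurable fun ω : Par => ω.2.1.2 := measurable_snd.comp (measurable_fst.comp measurable_snd)
  exact Measurable.ite (measurable_fst (measurableSet_singleton true)) hy hx

lemma pick_law (π : Measure (ℝ × ℝ)) [IsProbabilityMeasure π] (m : Measure ℝ) (h1 : π.map Prod.fst = m)
    (h2 : π.map Prod.snd = m) : (parLaw π).map pick = m := by
  have i1 := prob_circ
  have i2 := prob_coin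
  refine Measure.ext fun B hB => ?_
  rw [Measure.map_apply meas_pick hB]
  have e : pick ⁻¹' B = ({true} : Set Bool) ×ˢ ((Prod.snd ⁻¹' B : Set (ℝ × ℝ)) ×ˢ (univ : Set UnitAddCircle)) ∪
      ({false} : Set Bool) ×ˢ ((Prod.fst ⁻¹' B : Set (ℝ × ℝ)) ×ˢ (univ : Set UnitAddCircle)) := by
    ext ⟨b, ⟨x, y⟩, θ⟩
    cases b <;> simp [pick]
  rw [e, measure_union]
  · unfold parLaw
    rw [Measure.prod_prod, Measure.prod_prod, Measure.prod_prod, Measure.prod_prod, coin_sing, coin_sing,
      measure_univ, mul_one, mul_one, ← Measure.map_apply measurable_snd hB, ← Measure.map_apply measurable_fst hB,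
      h1, h2, ← add_mul, ENNReal.inv_two_add_inv_two, one_mul]
  · rw [Set.disjoint_left]
    rintro ⟨b, q⟩ h h'
    have h3 : b = true := h.1
    have h4 : b = false := h'.1
    rw [h3] at h4
    exact absurd h4 (by decide)
  · exact (measurableSet_singleton _).prod ((measurable_fst hB).prod MeasurableSet.univ)

theorem law_exists (hq : S_quant) (hcount : S_count) (D : ℕ) (hD : 2 ≤ D) (m : Measure ℝ)
    (hm : IsProbabilityMeasure m) (h0 : m (Set.Icc 0 (Real.log D)) = 1)
    (h1 : ∀ s : ℝ, m (Set.Iic s) ≤ m (Set.Ici (Real.log D - s))) :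
    ∃ μ : Measure (ℤ → Fin D), IsProbabilityMeasure μ ∧ IsQuantumLimit D μ ∧
      μ.map (localEntropy μ) = m.map (fun s : ℝ => (s : EReal)) ∧
      ∀ᵐ x ∂μ, Tendsto (fun n : ℕ => ((info μ n x : ℝ) : EReal)) atTop (𝓝 (localEntropy μ x)) := by
  have : NeZero D := ⟨by omega⟩
  set L := Real.log D with hL
  have hL0 : 0 < L := Real.log_pos (by exact_mod_cast (by omega : 1 < D))
  have hdiv : Measurable fun s : ℝ => s / L := measurable_id.div_const L
  have hmul : Measurable fun s : ℝ => s * L := measurable_id.mul_const L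
  set m' := m.map (fun s : ℝ => s / L) with hm'
  have p1 : IsProbabilityMeasure m' := Measure.isProbabilityMeasure_map hdiv.aemeasurable
  have p2 : m' (Icc 0 1) = 1 := by
    rw [hm', Measure.map_apply hdiv measurableSet_Icc, ← h0]
    congr 1
    ext s
    simp only [Set.mem_preimage, Set.mem_Icc]
    rw [div_le_one hL0, le_div_iff₀ hL0, zero_mul]
  have p3 : ∀ s : ℝ, m' (Iic s) ≤ m' (Ici (1 - s)) := by
    intro s
    rw [hm', Measure.map_apply hdiv measurableSet_Iic, Measure.map_apply hdiv measurableSet_Ici]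
    have e1 : (fun s : ℝ => s / L) ⁻¹' Iic s = Iic (s * L) := by
      ext x
      simp only [Set.mem_preimage, Set.mem_Iic]
      rw [div_le_iff₀ hL0]
    have e2 : (fun s : ℝ => s / L) ⁻¹' Ici (1 - s) = Ici (L - s * L) := by
      ext x
      simp only [Set.mem_preimage, Set.mem_Ici]
      rw [le_div_iff₀ hL0]
      constructor <;> intro h <;> linarith
    rw [e1, e2]
    exact h1 _
  obtain ⟨π, hπ, f1, f2, f3⟩ := hq m' p1 p2 p3
  have hirr : Irrational (Real.sqrt 2) := irrational_sqrt_two
  obtain ⟨hP, hT⟩ := s_typ (Real.sqrt 2) π hπ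
  obtain ⟨hμ, ρ, hρ, hd⟩ := s_state D hD Par (parLaw π) (typ (Real.sqrt 2)) hT
  set μ := maskLaw D (parLaw π) (typ (Real.sqrt 2)) with hμdef
  have hQ : IsQuantumLimit D μ :=
    (Pool.Agent.Results.MP_07c750_an.WalshBakerQuantumLimits.result D hD μ).1.2 ⟨ρ, hρ, hd⟩
  have c1 := prob_circ
  have c2 := prob_coin
  have hcond : ∀ᵐ ω ∂(parLaw π), 0 ≤ ω.2.1.1 ∧ ω.2.1.1 ≤ 1 ∧ 0 ≤ ω.2.1.2 ∧ ω.2.1.2 ≤ 1 ∧
      1 ≤ ω.2.1.1 + ω.2.1.2 := by
    have g1 : ∀ᵐ q ∂(π.prod (volume : Measure UnitAddCircle)), 0 ≤ q.1.1 ∧ q.1.1 ≤ 1 ∧ 0 ≤ q.1.2 ∧ q.1.2 ≤ 1 ∧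
        1 ≤ q.1.1 + q.1.2 := Measure.quasiMeasurePreserving_fst.ae f3
    exact Measure.quasiMeasurePreserving_snd.ae g1
  let a : Par → ℝ := fun ω => if ω.1 then 1 - ω.2.1.2 else 1 - ω.2.1.1
  have ha : ∀ ω, 1 - a ω = pick ω := by
    intro ω
    simp only [a, pick]
    split_ifs <;> ring
  have hfreq : ∀ᵐ ω ∂(parLaw π),
      Tendsto (fun n : ℕ => ((zeros (typ (Real.sqrt 2)) n ω).card : ℝ) / n) atTop (𝓝 (a ω)) := by
    filter_upwards [hcond] with ω hω
    exact s_freq _ hirr ω hω.1 hω.2.1 hω.2.2.1 hω.2.2.2.1 hω.2.2.2.2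
  have hloc := s_local D hD Par (parLaw π) (typ (Real.sqrt 2)) hT.meas a hfreq (hcount _)
  simp only [ha, ← hμdef] at hloc
  have hlim : ∀ᵐ p ∂((parLaw π).prod (digits D)), Tendsto (fun n : ℕ =>
      ((info μ n (mask (typ (Real.sqrt 2)) p) : ℝ) : EReal)) atTop (𝓝 ((pick p.1 * L : ℝ) : EReal)) := by
    filter_upwards [hloc] with p hp
    exact (continuous_coe_real_ereal.tendsto _).comp hp
  have hle : ∀ᵐ p ∂((parLaw π).prod (digits D)),
      localEntropy μ (mask (typ (Real.sqrt 2)) p) = ((pick p.1 * L : ℝ) : EReal) := by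
    filter_upwards [hlim] with p hp
    exact hp.limsup_eq
  have hm1 : Measurable (localEntropy μ) := (s_meas D μ).2.2.2
  have hmm := meas_mask (D := D) (typ (Real.sqrt 2)) hT.meas
  refine ⟨μ, hμ, hQ, ?_, ?_⟩
  · have e1 : μ.map (localEntropy μ) = ((parLaw π).prod (digits D)).map
        (fun p => ((pick p.1 * L : ℝ) : EReal)) := by
      rw [hμdef, maskLaw, Measure.map_map (by exact hm1) hmm]
      exact Measure.map_congr hle
    have hg : Measurable fun ω : Par => ((pick ω * L : ℝ) : EReal) :=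
      measurable_coe_real_ereal.comp (hmul.comp meas_pick)
    have e2 : ((parLaw π).prod (digits D)).map (fun p => ((pick p.1 * L : ℝ) : EReal)) =
        (((parLaw π).prod (digits D)).map Prod.fst).map (fun ω : Par => ((pick ω * L : ℝ) : EReal)) :=
      (Measure.map_map hg measurable_fst).symm
    have e3 : ((parLaw π).prod (digits D)).map Prod.fst = parLaw π := measurePreserving_fst.map_eq
    have e4 : (parLaw π).map (fun ω : Par => ((pick ω * L : ℝ) : EReal)) =
        (((parLaw π).map pick).map fun s : ℝ => s * L).map (fun s : ℝ => (s : EReal)) := by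
      rw [Measure.map_map hmul meas_pick, Measure.map_map measurable_coe_real_ereal (hmul.comp meas_pick)]
      rfl
    rw [e1, e2, e3, e4, pick_law π m' f1 f2, hm', Measure.map_map hmul hdiv]
    have e5 : (fun s : ℝ => s * L) ∘ (fun s : ℝ => s / L) = id := by
      funext s
      simp only [Function.comp, id]
      field_simp
    rw [e5, Measure.map_id]
  · have hset : MeasurableSet {x | liminf (fun n : ℕ => ((info μ n x : ℝ) : EReal)) atTop = localEntropy μ x} :=
      measurableSet_eq_fun (Measurable.liminf fun n => measurable_coe_real_ereal.comp ((s_meas D μ).2.2.1 n)) hm1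
    have h2 : ∀ᵐ x ∂μ, liminf (fun n : ℕ => ((info μ n x : ℝ) : EReal)) atTop = localEntropy μ x := by
      rw [hμdef, maskLaw, ae_map_iff hmm.aemeasurable (by exact hset)]
      filter_upwards [hlim, hle] with p hp hp'
      exact hp.liminf_eq.trans hp'.symm
    filter_upwards [h2] with x hx
    exact tendsto_of_liminf_eq_limsup hx rfl

end Pool.Agent.H34.WB
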