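import Pool.Agent.H34.WB.Stm
import Pool.Agent.H34.WB.Law

/-! The masses of the cylinders for the law of the masked digits. -/

set_option autoImplicit false

open MeasureTheory Filter Topology Set
open Pool.Agent.Results.MP_07c750_an.WalshBakerQuantumLimits

noncomputable section

namespace Pool.Agent.H34.WB

variable {D : ℕ} [NeZero D]

instance : IsProbabilityMeasure (unif D) := by
  constructor
  unfold unif
  rw [Measure.smul_apply, smul_eq_mul, Measure.count_apply_finite _ (Set.toFinite _)]
  simp only [Set.Finite.toFinset_univ, Finset.card_univ, Fintype.card_fin]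
  exact ENNReal.inv_mul_cancel (by exact_mod_cast NeZero.ne D) (ENNReal.natCast_ne_top D)

instance : IsProbabilityMeasure (digits D) := by unfold digits; infer_instance

omit [NeZero D] in
lemma unif_sing (a : Fin D) : (unif D).real {a} = 1 / D := by
  unfold unif Measure.real
  rw [Measure.smul_apply, smul_eq_mul, Measure.count_singleton, mul_one, ENNReal.toReal_inv, ENNReal.toReal_natCast,
    one_div]

/-- the probability of the digit `a` at a place of type `t` -/
def dg (D : ℕ) [NeZero D] (t : Fin 3) (a : Fin D) : ℝ := if t = 0 then (if a = 0 then 1 else 0) else 1 / D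

lemma dg_nonneg (t : Fin 3) (a : Fin D) : 0 ≤ dg D t a := by
  unfold dg
  split_ifs <;> positivity

lemma unif_dg (t : Fin 3) (a : Fin D) : (unif D).real {b : Fin D | (if t = 0 then 0 else b) = a} = dg D t a := by
  unfold dg
  by_cases ht : t = 0
  · simp only [ht, if_true]
    by_cases ha : a = 0
    · have : {b : Fin D | (0 : Fin D) = a} = univ := by ext; simp [ha]
      rw [this, if_pos ha]
      simp
    · have : {b : Fin D | (0 : Fin D) = a} = ∅ := by
        ext b
        simp only [Set.mem_ofPred_eq, Set.mem_empty_iff_false, iff_false]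
        exact fun h => ha h.symm
      rw [this, if_neg ha]
      simp
  · simp only [ht, if_false]
    have : {b : Fin D | b = a} = {a} := rfl
    rw [this, unif_sing]

/-- the places `m, …, m + n - 1` -/
def win (m : ℤ) (n : ℕ) : Fin n ↪ ℤ := ⟨fun i => m + i, fun i j h => by
  simp only [add_right_inj, Nat.cast_inj] at h
  exact Fin.ext h⟩

lemma win_apply (m : ℤ) (n : ℕ) (i : Fin n) : win m n i = m + i := rfl

lemma digits_box (m : ℤ) {n : ℕ} (t : Fin n → Fin 3) (w : Fin n → Fin D) :
    (digits D).real {y | ∀ i : Fin n, (if t i = 0 then 0 else y (m + i)) = w i} = ∏ i, dg D (t i) (w i) := by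
  classical
  let U : ℤ → Set (Fin D) := fun j => {a | ∀ i : Fin n, m + i = j → (if t i = 0 then 0 else a) = w i}
  have h1 : {y : ℤ → Fin D | ∀ i : Fin n, (if t i = 0 then 0 else y (m + i)) = w i} =
      Set.pi (Finset.univ.map (win m n) : Finset ℤ) U := by
    ext y
    simp only [Set.mem_ofPred_eq, Set.mem_pi, Finset.coe_map, Set.mem_image, Finset.coe_univ, Set.mem_univ,
      true_and, forall_exists_index, forall_apply_eq_imp_iff, U, win_apply]
    constructor
    · intro h i j hij
      have : j = i := by
        simp only [add_right_inj, Nat.cast_inj] at hij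
        exact Fin.ext hij
      rw [this]
      exact h i
    · intro h i
      exact h i i rfl
  rw [h1, Measure.real, digits, Measure.infinitePi_pi _ (fun j _ => (Set.toFinite _).measurableSet), Finset.prod_map,
    ENNReal.toReal_prod]
  refine Finset.prod_congr rfl fun i _ => ?_
  rw [← unif_dg]
  have : U (win m n i) = {b : Fin D | (if t i = 0 then 0 else b) = w i} := by
    ext a
    simp only [U, Set.mem_ofPred_eq, win_apply]
    constructor
    · intro h
      exact h i rfl
    · intro h j hij
      have : j = i := by
        simp only [add_right_inj, Nat.cast_inj] at hij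
        exact Fin.ext hij
      rw [this]
      exact h
  rw [this]
  rfl

variable {Ω : Type} [MeasurableSpace Ω] (P : Measure Ω) [IsProbabilityMeasure P] (T : Ω → ℤ → Fin 3)

omit [NeZero D] in
lemma meas_pat (hT : ∀ i, Measurable fun ω => T ω i) (m : ℤ) {n : ℕ} (t : Fin n → Fin 3) :
    MeasurableSet {ω | ∀ i : Fin n, T ω (m + i) = t i} := by
  have : {ω | ∀ i : Fin n, T ω (m + i) = t i} = ⋂ i : Fin n, (fun ω => T ω (m + i)) ⁻¹' {t i} := by
    ext ω; simp
  rw [this]
  exact MeasurableSet.iInter fun i => hT _ (measurableSet_singleton _)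

lemma meas_mask (hT : ∀ i, Measurable fun ω => T ω i) : Measurable (mask (D := D) T) := by
  refine measurable_pi_lambda _ fun i => ?_
  unfold mask
  refine Measurable.ite ?_ measurable_const ((measurable_pi_apply i).comp measurable_snd)
  exact ((hT i).comp measurable_fst) (measurableSet_singleton _)

lemma prob_mask (hT : ∀ i, Measurable fun ω => T ω i) : IsProbabilityMeasure (maskLaw D P T) :=
  Measure.isProbabilityMeasure_map (meas_mask T hT).aemeasurable

/-- the mass of a cylinder -/
lemma mask_box (hT : ∀ i, Measurable fun ω => T ω i) (m : ℤ) {n : ℕ} (w : Fin n → Fin D) :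
    (maskLaw D P T).real (cylinder m w) =
      ∑ t : Fin n → Fin 3, P.real {ω | ∀ i : Fin n, T ω (m + i) = t i} * ∏ i, dg D (t i) (w i) := by
  rw [maskLaw, map_measureReal_apply (meas_mask T hT) (meas_cyl m w)]
  have h1 : mask T ⁻¹' cylinder m w = ⋃ t ∈ (Finset.univ : Finset (Fin n → Fin 3)),
      {ω | ∀ i : Fin n, T ω (m + i) = t i} ×ˢ {y | ∀ i : Fin n, (if t i = 0 then 0 else y (m + i)) = w i} := by
    ext ⟨ω, y⟩
    simp only [Set.mem_preimage, Finset.mem_univ, Set.iUnion_true, Set.mem_iUnion, Set.mem_prod, Set.mem_ofPred_eq]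
    constructor
    · intro h
      refine ⟨fun i => T ω (m + i), fun i => rfl, fun i => ?_⟩
      exact h i
    · rintro ⟨t, ht, hy⟩ i
      have := hy i
      rw [← ht i] at this
      exact this
  rw [h1, measureReal_biUnion_finset]
  · refine Finset.sum_congr rfl fun t _ => ?_
    rw [measureReal_prod_prod, digits_box]
  · intro t _ t' _ htt'
    refine Set.disjoint_left.2 fun p hp hp' => htt' ?_
    funext i
    rw [← hp.1 i, ← hp'.1 i]
  · intro t _
    refine (meas_pat T hT m t).prod ?_
    have : {y : ℤ → Fin D | ∀ i : Fin n, (if t i = 0 then 0 else y (m + i)) = w i} =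
        ⋂ i : Fin n, (fun y : ℤ → Fin D => y (m + i)) ⁻¹' {a | (if t i = 0 then 0 else a) = w i} := by
      ext y; simp
    rw [this]
    exact MeasurableSet.iInter fun i => (measurable_pi_apply _) (Set.toFinite _).measurableSet

end Pool.Agent.H34.WB
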