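import Pool.Agent.H34.WB.Stm2
import Pool.Agent.H34.WB.Law

/-! A measure which is smaller on cylinders is smaller. -/

set_option autoImplicit false

open MeasureTheory Filter Topology Set

noncomputable section

namespace Pool.Agent.H34.WB

variable {D : ℕ}

/-- the letters at the places `m, …, m + n - 1` -/
def wd (m : ℤ) (n : ℕ) (x : ℤ → Fin D) : Fin n → Fin D := fun i => x (m + i)

lemma cyl_wd (m : ℤ) (n : ℕ) (w : Fin n → Fin D) :
    Pool.Agent.Results.MP_07c750_an.WalshBakerQuantumLimits.cylinder m w = {x | wd m n x = w} := by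
  ext x
  exact ⟨fun h => funext h, fun h i => congrFun h i⟩

lemma window_le (μ ν : Measure (ℤ → Fin D)) [IsFiniteMeasure μ] [IsFiniteMeasure ν]
    (h : ∀ (m : ℤ) (n : ℕ) (w : Fin n → Fin D),
      μ.real (Pool.Agent.Results.MP_07c750_an.WalshBakerQuantumLimits.cylinder m w) ≤
      ν.real (Pool.Agent.Results.MP_07c750_an.WalshBakerQuantumLimits.cylinder m w))
    (m : ℤ) (n : ℕ) (A : Finset (Fin n → Fin D)) : μ.real {x | wd m n x ∈ A} ≤ ν.real {x | wd m n x ∈ A} := by
  have key : ∀ (κ : Measure (ℤ → Fin D)) [IsFiniteMeasure κ], κ.real {x | wd m n x ∈ A} =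
      ∑ w ∈ A, κ.real (Pool.Agent.Results.MP_07c750_an.WalshBakerQuantumLimits.cylinder m w) := by
    intro κ _
    rw [← measureReal_biUnion_finset]
    · congr 1
      ext x
      simp only [cyl_wd, Set.mem_iUnion, exists_prop, Set.mem_ofPred_eq]
      exact ⟨fun h => ⟨_, h, rfl⟩, fun ⟨w, h, e⟩ => e ▸ h⟩
    · intro a _ b _ hab
      refine Set.disjoint_left.2 fun x hx hx' => hab ?_
      rw [cyl_wd] at hx hx'
      exact hx.symm.trans hx'
    · intro a _
      exact meas_cyl m a
  rw [key, key]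
  exact Finset.sum_le_sum fun w _ => h m n w

lemma mc_window {C : Set (ℤ → Fin D)} (hC : C ∈ measurableCylinders fun _ : ℤ => Fin D) :
    ∃ (m : ℤ) (n : ℕ) (A : Finset (Fin n → Fin D)), C = {x | wd m n x ∈ A} := by
  classical
  obtain ⟨s, S, -, rfl⟩ := (mem_measurableCylinders C).1 hC
  set N : ℕ := s.sup Int.natAbs + 1 with hN
  have hs : ∀ i ∈ s, -(N : ℤ) ≤ i ∧ i < N := by
    intro i hi
    have h1 : i.natAbs ≤ s.sup Int.natAbs := Finset.le_sup (f := Int.natAbs) hi
    omega
  refine ⟨-(N : ℤ), 2 * N, Finset.univ.filter fun w => ∃ x ∈ cylinder s S, wd (-(N : ℤ)) (2 * N) x = w, ?_⟩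
  ext y
  simp only [Finset.mem_filter, Finset.mem_univ, true_and, Set.mem_ofPred_eq]
  constructor
  · intro hy
    exact ⟨y, hy, rfl⟩
  · rintro ⟨x, hx, hxy⟩
    rw [mem_cylinder] at hx ⊢
    have : s.restrict y = s.restrict x := by
      funext i
      obtain ⟨h1, h2⟩ := hs i i.2
      have h3 := congrFun hxy ⟨((i : ℤ) + N).toNat, by omega⟩
      unfold wd at h3
      have h4 : -(N : ℤ) + (((i : ℤ) + N).toNat : ℤ) = i := by omega
      simp only at h3
      rw [h4] at h3
      exact h3.symm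
    rw [this]
    exact hx

theorem s_cle : S_cle := by
  intro D μ ν _ _ h
  refine Measure.le_iff.2 fun S hS => ?_
  have hd := Measure.MeasureDense.of_generateFrom_isSetAlgebra_finite (μ + ν)
    (isSetAlgebra_measurableCylinders (α := fun _ : ℤ => Fin D))
    (generateFrom_measurableCylinders (α := fun _ : ℤ => Fin D)).symm
  have key : μ.real S ≤ ν.real S := by
    refine le_of_forall_pos_le_add fun ε hε => ?_
    obtain ⟨C, hC, hC'⟩ := hd.approx S hS (measure_ne_top _ _) (ε / 2) (by linarith)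
    obtain ⟨m, n, A, rfl⟩ := mc_window hC
    have h1 := window_le μ ν h m n A
    have h2 : (μ + ν).real (symmDiff S {x | wd m n x ∈ A}) < ε / 2 := by
      have := (ENNReal.toReal_lt_toReal (measure_ne_top _ _) ENNReal.ofReal_ne_top).2 hC'
      rwa [ENNReal.toReal_ofReal (by linarith)] at this
    rw [measureReal_add_apply] at h2
    have g : ∀ (κ : Measure (ℤ → Fin D)) [IsFiniteMeasure κ] (P Q : Set (ℤ → Fin D)),
        κ.real P ≤ κ.real Q + κ.real (symmDiff P Q) := by
      intro κ _ P Q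
      refine (measureReal_mono (s₂ := Q ∪ symmDiff P Q) ?_).trans (measureReal_union_le _ _)
      intro x hx
      by_cases hq : x ∈ Q
      · exact Or.inl hq
      · exact Or.inr (Or.inl ⟨hx, hq⟩)
    have h3 := g μ S {x | wd m n x ∈ A}
    have h4 := g ν {x | wd m n x ∈ A} S
    rw [symmDiff_comm] at h4
    have h5 : 0 ≤ μ.real (symmDiff S {x | wd m n x ∈ A}) := measureReal_nonneg
    have h6 : 0 ≤ ν.real (symmDiff S {x | wd m n x ∈ A}) := measureReal_nonneg
    linarith
  rw [← ofReal_measureReal (μ := μ), ← ofReal_measureReal (μ := ν)]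
  exact ENNReal.ofReal_le_ofReal key

end Pool.Agent.H34.WB
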