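import Pool.Agent.H34.WB.Lim

/-! Conjugation of a family of reduced density matrices with the Fourier transform. -/

set_option autoImplicit false

open MeasureTheory Filter Topology Set
open scoped ComplexConjugate Matrix ComplexOrder
open Pool.Agent.Results.MP_07c750_an.WalshBakerQuantumLimits

noncomputable section

namespace Pool.Agent.H34.WB

variable {D : ℕ} [NeZero D]

lemma four_uni' : QF D * (QF D)ᴴ = 1 := mul_eq_one_comm.1 four_uni

lemma FF_apply (a c : Fin D) : (QF D * QF D) a c = if c = - a then 1 else 0 := by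
  have h := Pool.Agent.N282.WB.DF_sq D (NeZero.pos D) a c
  rw [pow_two] at h
  refine h.trans ?_
  have e : D ∣ (a : ℕ) + (c : ℕ) ↔ c = - a := by
    constructor
    · intro h1
      have h2 : a + c = 0 := by
        rw [Fin.ext_iff, Fin.val_add, Nat.mod_eq_zero_of_dvd h1]
        rfl
      exact (neg_eq_of_add_eq_zero_right h2).symm
    · intro h1
      have h2 : a + c = 0 := by rw [h1, add_neg_cancel]
      rw [Fin.ext_iff, Fin.val_add] at h2
      exact Nat.dvd_of_mod_eq_zero h2
  simp only [e]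

omit [NeZero D] in
lemma G_ten (n : ℕ) : fourierPow D n = ten fun _ => QF D := rfl

lemma GG_eq (n : ℕ) (u v : Fin n → Fin D) :
    (fourierPow D n * fourierPow D n) u v = if v = (fun i => - u i) then 1 else 0 := by
  rw [G_ten, ten_mul]
  unfold ten
  simp only [FF_apply]
  by_cases h : v = fun i => - u i
  · rw [if_pos h]
    refine Finset.prod_eq_one fun i _ => ?_
    rw [if_pos (congrFun h i)]
  · rw [if_neg h]
    obtain ⟨i, hi⟩ := Function.ne_iff.1 h
    exact Finset.prod_eq_zero (Finset.mem_univ i) (by rw [if_neg hi])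

lemma GG_conj {n : ℕ} (S : Matrix (Fin n → Fin D) (Fin n → Fin D) ℂ) (u v : Fin n → Fin D) :
    ((fourierPow D n * fourierPow D n)ᴴ * S * (fourierPow D n * fourierPow D n)) u v =
      S (fun i => - u i) (fun i => - v i) := by
  rw [Matrix.mul_apply, Finset.sum_eq_single (fun i => - v i)]
  · rw [GG_eq, if_pos (by funext i; rw [neg_neg]), mul_one, Matrix.mul_apply, Finset.sum_eq_single (fun i => - u i)]
    · rw [Matrix.conjTranspose_apply, GG_eq, if_pos (by funext i; rw [neg_neg]), star_one, one_mul]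
    · intro x _ hx
      rw [Matrix.conjTranspose_apply, GG_eq, if_neg, star_zero, zero_mul]
      intro h
      apply hx
      funext i
      rw [h, neg_neg]
    · intro h
      exact absurd (Finset.mem_univ _) h
  · intro y _ hy
    rw [GG_eq, if_neg, mul_zero]
    intro h
    apply hy
    funext i
    rw [h, neg_neg]
  · intro h
    exact absurd (Finset.mem_univ _) h

/-- the state is invariant under the change of signs -/
lemma state_neg {ρ : (n : ℕ) → Matrix (Fin n → Fin D) (Fin n → Fin D) ℂ} (h : IsInvariantState D ρ) (n : ℕ)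
    (u v : Fin n → Fin D) : ρ n (fun i => - u i) (fun i => - v i) = ρ n u v := by
  rw [← GG_conj (ρ n) u v]
  have : (fourierPow D n * fourierPow D n)ᴴ * ρ n * (fourierPow D n * fourierPow D n) = ρ n := by
    calc _ = (fourierPow D n)ᴴ * ((fourierPow D n)ᴴ * ρ n * fourierPow D n) * fourierPow D n := by
          rw [Matrix.conjTranspose_mul]
          simp only [Matrix.mul_assoc]
      _ = ρ n := by rw [h.fourier, h.fourier]
  rw [this]

/-- conjugation with the Fourier transform -/
def CJ (σ : (n : ℕ) → Matrix (Fin n → Fin D) (Fin n → Fin D) ℂ) (n : ℕ) : Matrix (Fin n → Fin D) (Fin n → Fin D) ℂ :=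
  (fourierPow D n)ᴴ * σ n * fourierPow D n

lemma CJ_CJ {σ : (n : ℕ) → Matrix (Fin n → Fin D) (Fin n → Fin D) ℂ}
    (h : ∀ (n : ℕ) (u v : Fin n → Fin D), σ n (fun i => - u i) (fun i => - v i) = σ n u v) (n : ℕ) :
    (fourierPow D n)ᴴ * CJ σ n * fourierPow D n = σ n := by
  unfold CJ
  have : (fourierPow D n)ᴴ * ((fourierPow D n)ᴴ * σ n * fourierPow D n) * fourierPow D n =
      (fourierPow D n * fourierPow D n)ᴴ * σ n * (fourierPow D n * fourierPow D n) := by
    rw [Matrix.conjTranspose_mul]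
    simp only [Matrix.mul_assoc]
  rw [this]
  ext u v
  rw [GG_conj, h]

omit [NeZero D] in
lemma CJ_apply (σ : (n : ℕ) → Matrix (Fin n → Fin D) (Fin n → Fin D) ℂ) (n : ℕ) (u v : Fin n → Fin D) :
    CJ σ n u v = ∑ y, ∑ x, star (fourierPow D n x u) * σ n x y * fourierPow D n y v := by
  unfold CJ
  rw [Matrix.mul_apply]
  refine Finset.sum_congr rfl fun y _ => ?_
  rw [Matrix.mul_apply, Finset.sum_mul]
  rfl

omit [NeZero D] in
lemma CJ_psd {σ : (n : ℕ) → Matrix (Fin n → Fin D) (Fin n → Fin D) ℂ} (n : ℕ) (h : (σ n).PosSemidef) :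
    (CJ σ n).PosSemidef := h.conjTranspose_mul_mul_same _

omit [NeZero D] in
lemma G_snoc {n : ℕ} (x u : Fin n → Fin D) (b a : Fin D) :
    fourierPow D (n + 1) (Fin.snoc x b) (Fin.snoc u a) = fourierPow D n x u * QF D b a := by
  simp only [fourierPow, Fin.prod_univ_castSucc, Fin.snoc_castSucc, Fin.snoc_last]

omit [NeZero D] in
lemma G_cons {n : ℕ} (x u : Fin n → Fin D) (b a : Fin D) :
    fourierPow D (n + 1) (Fin.cons b x) (Fin.cons a u) = QF D b a * fourierPow D n x u := by
  simp only [fourierPow, Fin.prod_univ_succ, Fin.cons_zero, Fin.cons_succ]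

lemma F_orth (b b' : Fin D) : ∑ a, star (QF D b a) * QF D b' a = if b = b' then 1 else 0 := by
  have h := congrFun (congrFun (four_uni' (D := D)) b') b
  rw [Matrix.mul_apply, Matrix.one_apply] at h
  have e : (if b' = b then (1 : ℂ) else 0) = if b = b' then 1 else 0 := by
    by_cases h1 : b = b'
    · rw [if_pos h1, if_pos h1.symm]
    · rw [if_neg h1, if_neg (Ne.symm h1)]
  rw [← e, ← h]
  refine Finset.sum_congr rfl fun a _ => ?_
  rw [Matrix.conjTranspose_apply, mul_comm]

lemma CJ_right {σ : (n : ℕ) → Matrix (Fin n → Fin D) (Fin n → Fin D) ℂ}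
    (h : ∀ n (u v : Fin n → Fin D), ∑ a, σ (n + 1) (Fin.snoc u a) (Fin.snoc v a) = σ n u v) (n : ℕ)
    (u v : Fin n → Fin D) : ∑ a, CJ σ (n + 1) (Fin.snoc u a) (Fin.snoc v a) = CJ σ n u v := by
  rw [CJ_apply]
  have e1 : ∀ a : Fin D, CJ σ (n + 1) (Fin.snoc u a) (Fin.snoc v a) =
      ∑ y : Fin n → Fin D, ∑ b' : Fin D, ∑ x : Fin n → Fin D, ∑ b : Fin D,
        (star (fourierPow D n x u) * σ (n + 1) (Fin.snoc x b) (Fin.snoc y b') * fourierPow D n y v) *
          (star (QF D b a) * QF D b' a) := by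
    intro a
    rw [CJ_apply, Pool.Agent.N282.WB.MX_sum_snoc]
    refine Finset.sum_congr rfl fun y _ => Finset.sum_congr rfl fun b' _ => ?_
    rw [Pool.Agent.N282.WB.MX_sum_snoc]
    refine Finset.sum_congr rfl fun x _ => Finset.sum_congr rfl fun b _ => ?_
    rw [G_snoc, G_snoc, star_mul']
    ring
  rw [Finset.sum_congr rfl fun a _ => e1 a, Finset.sum_comm]
  refine Finset.sum_congr rfl fun y _ => ?_
  rw [Finset.sum_comm]
  have e2 : ∀ b' : Fin D, ∑ a : Fin D, ∑ x : Fin n → Fin D, ∑ b : Fin D,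
        (star (fourierPow D n x u) * σ (n + 1) (Fin.snoc x b) (Fin.snoc y b') * fourierPow D n y v) *
          (star (QF D b a) * QF D b' a) = ∑ x : Fin n → Fin D,
        star (fourierPow D n x u) * σ (n + 1) (Fin.snoc x b') (Fin.snoc y b') * fourierPow D n y v := by
    intro b'
    rw [Finset.sum_comm]
    refine Finset.sum_congr rfl fun x _ => ?_
    rw [Finset.sum_comm, Finset.sum_eq_single b']
    · rw [← Finset.mul_sum, F_orth, if_pos rfl, mul_one]
    · intro b _ hb
      rw [← Finset.mul_sum, F_orth, if_neg hb, mul_zero]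
    · intro h1
      exact absurd (Finset.mem_univ _) h1
  rw [Finset.sum_congr rfl fun b' _ => e2 b', Finset.sum_comm]
  refine Finset.sum_congr rfl fun x _ => ?_
  rw [← h n x y, Finset.mul_sum, Finset.sum_mul]

lemma CJ_left {σ : (n : ℕ) → Matrix (Fin n → Fin D) (Fin n → Fin D) ℂ}
    (h : ∀ n (u v : Fin n → Fin D), ∑ a, σ (n + 1) (Fin.cons a u) (Fin.cons a v) = σ n u v) (n : ℕ)
    (u v : Fin n → Fin D) : ∑ a, CJ σ (n + 1) (Fin.cons a u) (Fin.cons a v) = CJ σ n u v := by
  rw [CJ_apply]
  have e1 : ∀ a : Fin D, CJ σ (n + 1) (Fin.cons a u) (Fin.cons a v) =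
      ∑ y : Fin n → Fin D, ∑ b' : Fin D, ∑ x : Fin n → Fin D, ∑ b : Fin D,
        (star (fourierPow D n x u) * σ (n + 1) (Fin.cons b x) (Fin.cons b' y) * fourierPow D n y v) *
          (star (QF D b a) * QF D b' a) := by
    intro a
    rw [CJ_apply, Pool.Agent.N282.WB.MX_sum_cons]
    refine Finset.sum_congr rfl fun y _ => Finset.sum_congr rfl fun b' _ => ?_
    rw [Pool.Agent.N282.WB.MX_sum_cons]
    refine Finset.sum_congr rfl fun x _ => Finset.sum_congr rfl fun b _ => ?_
    rw [G_cons, G_cons, star_mul']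
    ring
  rw [Finset.sum_congr rfl fun a _ => e1 a, Finset.sum_comm]
  refine Finset.sum_congr rfl fun y _ => ?_
  rw [Finset.sum_comm]
  have e2 : ∀ b' : Fin D, ∑ a : Fin D, ∑ x : Fin n → Fin D, ∑ b : Fin D,
        (star (fourierPow D n x u) * σ (n + 1) (Fin.cons b x) (Fin.cons b' y) * fourierPow D n y v) *
          (star (QF D b a) * QF D b' a) = ∑ x : Fin n → Fin D,
        star (fourierPow D n x u) * σ (n + 1) (Fin.cons b' x) (Fin.cons b' y) * fourierPow D n y v := by
    intro b'
    rw [Finset.sum_comm]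
    refine Finset.sum_congr rfl fun x _ => ?_
    rw [Finset.sum_comm, Finset.sum_eq_single b']
    · rw [← Finset.mul_sum, F_orth, if_pos rfl, mul_one]
    · intro b _ hb
      rw [← Finset.mul_sum, F_orth, if_neg hb, mul_zero]
    · intro h1
      exact absurd (Finset.mem_univ _) h1
  rw [Finset.sum_congr rfl fun b' _ => e2 b', Finset.sum_comm]
  refine Finset.sum_congr rfl fun x _ => ?_
  rw [← h n x y, Finset.mul_sum, Finset.sum_mul]

end Pool.Agent.H34.WB
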