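import Pool.Graph.R_pool_sql_team_seeded_63374d34.Results.MP_07c750_an.WalshBakerQuantumLimits

/-!
# Project WB: the entropies of the quantum limits of the Walsh-quantized baker's map (MP_07c750_an)

`State`, `fourier`, `baker`, `cylinder`, `IsQuantumLimit`, `fourierPow`, `IsInvariantState`, `IsDiagonal` are the
definitions of the library result `WalshBakerQuantumLimits`.
-/

set_option autoImplicit false

open MeasureTheory Filter Topology Set
open Pool.Agent.Results.MP_07c750_an.WalshBakerQuantumLimits

noncomputable section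

namespace Pool.Agent.H34.WB

/-- the word `x 0, x 1, …, x (n - 1)` -/
def word {D : ℕ} (n : ℕ) (x : ℤ → Fin D) : Fin n → Fin D := fun i => x (i : ℕ)

/-- `- (1 / n) log μ [x 0 … x (n - 1)]` -/
def info {D : ℕ} (μ : Measure (ℤ → Fin D)) (n : ℕ) (x : ℤ → Fin D) : ℝ :=
  - Real.log (μ.real (cylinder 0 (word n x))) / n

/-- the local entropy of `μ` at `x`: `limsup - (1 / n) log μ [x 0 … x (n - 1)]` -/
def localEntropy {D : ℕ} (μ : Measure (ℤ → Fin D)) (x : ℤ → Fin D) : EReal :=
  limsup (fun n : ℕ => ((info μ n x : ℝ) : EReal)) atTop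

/-- the uncertainty inequality for the measures of sets of words -/
def Unc {D : ℕ} (μ : Measure (ℤ → Fin D)) : Prop :=
  ∀ (n : ℕ) (A B : Finset (Fin n → Fin D)),
    ∑ w ∈ A, μ.real (cylinder 0 w) + ∑ w ∈ B, μ.real (cylinder 0 w) ≤
      1 + Real.sqrt ((A.card : ℝ) * B.card / (D : ℝ) ^ n)

/-- invariance of the cylinder masses under the shift -/
def Inv {D : ℕ} (μ : Measure (ℤ → Fin D)) : Prop :=
  ∀ (m : ℤ) (n : ℕ) (w : Fin n → Fin D), μ.real (cylinder m w) = μ.real (cylinder 0 w)

/-- the exchange of the types `0` and `1` -/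
def sw : Fin 3 → Fin 3 := ![1, 0, 2]

/-- A random sequence `T ω i` of types `0, 1, 2`, on the probability space `(Ω, P)`, whose law is invariant under
the shift and under the exchange of the types `0` and `1`. -/
structure Types {Ω : Type} [MeasurableSpace Ω] (P : Measure Ω) (T : Ω → ℤ → Fin 3) : Prop where
  meas : ∀ i, Measurable fun ω => T ω i
  shift : ∃ S : Ω → Ω, MeasurePreserving S P P ∧ ∀ ω i, T (S ω) i = T ω (i + 1)
  swap : ∃ R : Ω → Ω, MeasurePreserving R P P ∧ ∀ ω i, T (R ω) i = sw (T ω i)

/-- the uniform probability measure on the digits -/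
def unif (D : ℕ) : Measure (Fin D) := (D : ENNReal)⁻¹ • Measure.count

/-- independent uniformly distributed digits -/
def digits (D : ℕ) : Measure (ℤ → Fin D) := Measure.infinitePi fun _ : ℤ => unif D

/-- the digit is `0` at the places of type `0`, the other digits are those of `y` -/
def mask {Ω : Type} {D : ℕ} [NeZero D] (T : Ω → ℤ → Fin 3) (p : Ω × (ℤ → Fin D)) : ℤ → Fin D :=
  fun i => if T p.1 i = 0 then 0 else p.2 i

/-- the law of the digits `mask T (ω, y)`, `y` uniformly distributed -/
def maskLaw {Ω : Type} [MeasurableSpace Ω] (D : ℕ) [NeZero D] (P : Measure Ω) (T : Ω → ℤ → Fin 3) :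
    Measure (ℤ → Fin D) := (P.prod (digits D)).map (mask T)

/-- the places of type `0` in `[0, n)` -/
def zeros {Ω : Type} (T : Ω → ℤ → Fin 3) (n : ℕ) (ω : Ω) : Finset (Fin n) :=
  Finset.univ.filter fun i => T ω (i : ℕ) = 0

/-- the representative in `[0, 1)` of a point of the circle -/
def fr (z : UnitAddCircle) : ℝ := (AddCircle.equivIco 1 0 z : ℝ)

/-- the parameters: a coin, a pair `(x, y)` of real numbers, a point of the circle -/
abbrev Par : Type := Bool × (ℝ × ℝ) × UnitAddCircle

/-- the type of the place `i`: the place has type `0`, `1`, `2` if `θ + i α` lies in `[0, 1 - x)`, in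
`[1 - x, 2 - x - y)`, in `[2 - x - y, 1)`; if the coin shows `true`, the types `0` and `1` are exchanged. -/
def typ (α : ℝ) (ω : Par) (i : ℤ) : Fin 3 :=
  let z := fr (ω.2.2 + i • (α : UnitAddCircle))
  let t : Fin 3 := if z < 1 - ω.2.1.1 then 0 else if z < 2 - ω.2.1.1 - ω.2.1.2 then 1 else 2
  if ω.1 then sw t else t

/-- a fair coin -/
def coin : Measure Bool := (2 : ENNReal)⁻¹ • Measure.count

/-- the law of the parameters -/
def parLaw (π : Measure (ℝ × ℝ)) : Measure Par := coin.prod (π.prod (volume : Measure UnitAddCircle))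

end Pool.Agent.H34.WB
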