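import Pool.Agent.H34.WB.Parts2

/-! Extremal quantum limits. -/

set_option autoImplicit false

open MeasureTheory Filter Topology Set
open scoped ComplexConjugate Matrix ComplexOrder ENNReal
open Pool.Agent.Results.MP_07c750_an.WalshBakerQuantumLimits

noncomputable section

namespace Pool.Agent.H34.WB

variable {D : ℕ} [NeZero D]

omit [NeZero D] in
lemma lowPart_mono (μ : Measure (ℤ → Fin D)) {s t : ℝ} (h : s ≤ t) : lowPart μ s ⊆ lowPart μ t := by
  intro x hx
  have h1 : localEntropy μ x ≤ (s : EReal) := hx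
  show localEntropy μ x ≤ (t : EReal)
  exact h1.trans (EReal.coe_le_coe_iff.2 h)

/-- the mass of the low part of an extremal quantum limit is `0` or `1/2` -/
lemma ext_mass (hpsd : S_psd) (hext : S_ext) (hcle : S_cle) (hinv : S_inv) (hlei : S_lei) (happ : S_app)
    (hD : 2 ≤ D) (μ : Measure (ℤ → Fin D)) [IsProbabilityMeasure μ] (hμ : IsQuantumLimit D μ)
    (hex : ∀ (μ₁ μ₂ : Measure (ℤ → Fin D)) (a b : ℝ≥0∞), IsProbabilityMeasure μ₁ → IsProbabilityMeasure μ₂ →
      IsQuantumLimit D μ₁ → IsQuantumLimit D μ₂ → a ≠ 0 → b ≠ 0 → a + b = 1 → μ = a • μ₁ + b • μ₂ → μ₁ = μ)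
    {s : ℝ} (hs : s < Real.log D / 2) : μ (lowPart μ s) = 0 ∨ μ (lowPart μ s) = 1 / 2 := by
  obtain ⟨μ₁, μ₂, p1, p2, q1, q2, hle, he, hr⟩ := struct hpsd hext hcle hinv hlei happ hD hμ hs
  set E := lowPart μ s with hE
  have hEm : MeasurableSet E := meas_lowPart μ s
  by_cases h0 : μ E = 0
  · exact Or.inl h0
  right
  have hne : μ E ≠ ⊤ := measure_ne_top _ _
  by_cases h1 : 1 - 2 * μ E = 0
  · rw [tsub_eq_zero_iff_le] at h1
    have h2 : 2 * μ E = 1 := le_antisymm hle h1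
    calc μ E = (2⁻¹ * 2) * μ E := by rw [ENNReal.inv_mul_cancel (by norm_num) (by norm_num), one_mul]
      _ = 1 / 2 := by rw [mul_assoc, h2, mul_one, one_div]
  · exfalso
    have h2 : μ₁ = μ := hex μ₁ μ₂ (2 * μ E) (1 - 2 * μ E) p1 p2 q1 q2 (mul_ne_zero (by norm_num) h0) h1
      (add_tsub_cancel_of_le hle) he
    rw [h2] at hr
    have h3 := hr E
    rw [Measure.restrict_apply hEm, Set.inter_self, Measure.smul_apply, smul_eq_mul] at h3
    apply h1
    rw [tsub_eq_zero_iff_le]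
    have h4 : 1 * μ E ≤ (2 * μ E) * μ E := by rw [one_mul]; exact h3
    exact (ENNReal.mul_le_mul_iff_left h0 hne).1 h4

/-- **Extremal quantum limits.** -/
theorem extremal (hpsd : S_psd) (hext : S_ext) (hcle : S_cle) (hinv : S_inv) (hlei : S_lei) (happ : S_app)
    (hD : 2 ≤ D) (μ : Measure (ℤ → Fin D)) [IsProbabilityMeasure μ] (hμ : IsQuantumLimit D μ)
    (hex : ∀ (μ₁ μ₂ : Measure (ℤ → Fin D)) (a b : ℝ≥0∞), IsProbabilityMeasure μ₁ → IsProbabilityMeasure μ₂ →
      IsQuantumLimit D μ₁ → IsQuantumLimit D μ₂ → a ≠ 0 → b ≠ 0 → a + b = 1 → μ = a • μ₁ + b • μ₂ → μ₁ = μ) :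
    (∀ᵐ x ∂μ, ((Real.log D / 2 : ℝ) : EReal) ≤ localEntropy μ x) ∨
    ∃ s : ℝ, 0 ≤ s ∧ s < Real.log D / 2 ∧ μ {x | localEntropy μ x = (s : EReal)} = 1 / 2 ∧
      μ {x | ((Real.log D - s : ℝ) : EReal) ≤ localEntropy μ x} = 1 / 2 := by
  have hL : 0 < Real.log D := Real.log_pos (by exact_mod_cast (by omega : 1 < D))
  set L := Real.log D with hLdef
  have hmass := fun (s : ℝ) (hs : s < L / 2) => ext_mass hpsd hext hcle hinv hlei happ hD μ hμ hex hs
  have hhalf : (1 / 2 : ℝ≥0∞) ≠ 0 := by norm_num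
  by_cases hall : ∀ s : ℝ, s < L / 2 → μ (lowPart μ s) = 0
  · left
    have h1 : ∀ k : ℕ, ∀ᵐ x ∂μ, x ∉ lowPart μ (L / 2 - 1 / ((k : ℝ) + 1)) := by
      intro k
      rw [ae_iff]
      simp only [not_not]
      have : (0 : ℝ) < 1 / ((k : ℝ) + 1) := by positivity
      exact hall _ (by linarith)
    rw [← ae_all_iff] at h1
    filter_upwards [h1] with x hx
    by_contra hlt
    rw [not_le] at hlt
    obtain ⟨c, hc1, hc2⟩ := EReal.lt_iff_exists_real_btwn.1 hlt
    rw [EReal.coe_lt_coe_iff] at hc2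
    obtain ⟨k, hk⟩ := exists_nat_one_div_lt (sub_pos.2 hc2)
    refine hx k (hc1.le.trans ?_)
    rw [EReal.coe_le_coe_iff]
    linarith
  right
  rw [not_forall] at hall
  obtain ⟨s₁, hall⟩ := hall
  rw [Classical.not_imp] at hall
  obtain ⟨hs₁, hs₁'⟩ := hall
  let B : Set ℝ := {s | s < L / 2 ∧ μ (lowPart μ s) ≠ 0}
  have hBne : B.Nonempty := ⟨s₁, hs₁, hs₁'⟩
  have hneg : ∀ s : ℝ, s < 0 → μ (lowPart μ s) = 0 := by
    intro s hs
    have : lowPart μ s = ∅ := by
      ext x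
      simp only [Set.mem_empty_iff_false, iff_false]
      intro hx
      have h1 : localEntropy μ x ≤ (s : EReal) := hx
      have h2 := (lE_nonneg μ (fun S => measureReal_le_one) x).trans h1
      rw [← EReal.coe_zero, EReal.coe_le_coe_iff] at h2
      linarith
    rw [this, measure_empty]
  have hBb : ∀ s ∈ B, (0 : ℝ) ≤ s := by
    intro s hs
    by_contra hlt
    exact hs.2 (hneg s (not_le.1 hlt))
  set s₀ := sInf B with hs₀
  have hs₀0 : 0 ≤ s₀ := le_csInf hBne hBb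
  have hs₀1 : s₀ ≤ s₁ := csInf_le ⟨0, hBb⟩ ⟨hs₁, hs₁'⟩
  have hs₀L : s₀ < L / 2 := lt_of_le_of_lt hs₀1 hs₁
  have hup : ∀ s : ℝ, s₀ < s → s < L / 2 → μ (lowPart μ s) = 1 / 2 := by
    intro s h1 h2
    obtain ⟨t, ht, ht'⟩ := exists_lt_of_csInf_lt hBne h1
    rcases hmass s h2 with h3 | h3
    · exact absurd (measure_mono_null (lowPart_mono μ ht'.le) h3) ht.2
    · exact h3
  have hdown : ∀ s : ℝ, s < s₀ → μ (lowPart μ s) = 0 := by
    intro s h1
    by_contra h2
    exact absurd (csInf_le ⟨0, hBb⟩ (⟨h1.trans hs₀L, h2⟩ : s ∈ B)) (not_le.2 h1)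
  -- the mass at `s₀`
  have hI : (⋂ k : ℕ, lowPart μ (s₀ + (L / 2 - s₀) / ((k : ℝ) + 2))) = lowPart μ s₀ := by
    ext x
    rw [Set.mem_iInter]
    constructor
    · intro h
      show localEntropy μ x ≤ (s₀ : EReal)
      have h1 : Tendsto (fun k : ℕ => ((s₀ + (L / 2 - s₀) / ((k : ℝ) + 2) : ℝ) : EReal)) atTop (𝓝 (s₀ : EReal)) := by
        refine (continuous_coe_real_ereal.tendsto _).comp ?_
        have h2 : Tendsto (fun k : ℕ => (L / 2 - s₀) / ((k : ℝ) + 2)) atTop (𝓝 0) := by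
          refine Tendsto.div_atTop tendsto_const_nhds ?_
          exact tendsto_atTop_add_const_right _ _ tendsto_natCast_atTop_atTop
        have h3 := h2.const_add s₀
        rwa [add_zero] at h3
      exact ge_of_tendsto' h1 h
    · intro h k
      refine lowPart_mono μ ?_ h
      have : (0 : ℝ) < (L / 2 - s₀) / ((k : ℝ) + 2) := by
        have : 0 < L / 2 - s₀ := by linarith
        positivity
      linarith
  have hpos : ∀ k : ℕ, μ (lowPart μ (s₀ + (L / 2 - s₀) / ((k : ℝ) + 2))) = 1 / 2 := by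
    intro k
    have h1 : 0 < L / 2 - s₀ := by linarith
    refine hup _ ?_ ?_
    · have : (0 : ℝ) < (L / 2 - s₀) / ((k : ℝ) + 2) := by positivity
      linarith
    · have : (L / 2 - s₀) / ((k : ℝ) + 2) < L / 2 - s₀ := by
        refine div_lt_self h1 ?_
        have : (0 : ℝ) ≤ k := Nat.cast_nonneg k
        linarith
      linarith
  have hmass0 : μ (lowPart μ s₀) = 1 / 2 := by
    have hanti : Antitone fun k : ℕ => lowPart μ (s₀ + (L / 2 - s₀) / ((k : ℝ) + 2)) := by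
      intro a b hab
      refine lowPart_mono μ ?_
      have : (L / 2 - s₀) / ((b : ℝ) + 2) ≤ (L / 2 - s₀) / ((a : ℝ) + 2) := by
        refine div_le_div_of_nonneg_left (by linarith) (by positivity) ?_
        have : (a : ℝ) ≤ b := by exact_mod_cast hab
        linarith
      linarith
    have h1 := tendsto_measure_iInter_atTop (μ := μ) (s := fun k : ℕ => lowPart μ (s₀ + (L / 2 - s₀) / ((k : ℝ) + 2)))
      (fun k => (meas_lowPart μ _).nullMeasurableSet) hanti ⟨0, measure_ne_top _ _⟩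
    rw [hI] at h1
    have h2 : Tendsto (μ ∘ fun k : ℕ => lowPart μ (s₀ + (L / 2 - s₀) / ((k : ℝ) + 2))) atTop (𝓝 (1 / 2)) := by
      refine tendsto_const_nhds.congr fun k => ?_
      exact (hpos k).symm
    exact tendsto_nhds_unique h1 h2
  have hlt0 : μ {x | localEntropy μ x < (s₀ : EReal)} = 0 := by
    have h1 : {x | localEntropy μ x < (s₀ : EReal)} ⊆ ⋃ k : ℕ, lowPart μ (s₀ - 1 / ((k : ℝ) + 1)) := by
      intro x hx
      obtain ⟨c, hc1, hc2⟩ := EReal.lt_iff_exists_real_btwn.1 (show localEntropy μ x < (s₀ : EReal) from hx)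
      rw [EReal.coe_lt_coe_iff] at hc2
      obtain ⟨k, hk⟩ := exists_nat_one_div_lt (sub_pos.2 hc2)
      refine Set.mem_iUnion.2 ⟨k, hc1.le.trans ?_⟩
      rw [EReal.coe_le_coe_iff]
      linarith
    refine measure_mono_null h1 (measure_iUnion_null fun k => hdown _ ?_)
    have : (0 : ℝ) < 1 / ((k : ℝ) + 1) := by positivity
    linarith
  have hs : μ {x | localEntropy μ x = (s₀ : EReal)} = 1 / 2 := by
    refine le_antisymm ?_ ?_
    · rw [← hmass0]
      exact measure_mono fun x hx => le_of_eq hx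
    · rw [← hmass0]
      have h1 : lowPart μ s₀ ⊆ {x | localEntropy μ x = (s₀ : EReal)} ∪ {x | localEntropy μ x < (s₀ : EReal)} := by
        intro x hx
        rcases (show localEntropy μ x ≤ (s₀ : EReal) from hx).eq_or_lt with h | h
        · exact Or.inl h
        · exact Or.inr h
      calc μ (lowPart μ s₀) ≤ _ := measure_mono h1
        _ ≤ μ {x | localEntropy μ x = (s₀ : EReal)} + μ {x | localEntropy μ x < (s₀ : EReal)} := measure_union_le _ _
        _ = _ := by rw [hlt0, add_zero]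
  refine ⟨s₀, hs₀0, hs₀L, hs, ?_⟩
  obtain ⟨ρ, hρ, hd⟩ := QL_state hD hμ
  have hlaw := s_law D hD μ inferInstance (s_unc D hD μ inferInstance ρ hρ hd).1 s₀
  refine le_antisymm ?_ ?_
  · have h1 : μ ({x | localEntropy μ x = (s₀ : EReal)} ∪ {x | ((L - s₀ : ℝ) : EReal) ≤ localEntropy μ x}) =
        μ {x | localEntropy μ x = (s₀ : EReal)} + μ {x | ((L - s₀ : ℝ) : EReal) ≤ localEntropy μ x} := by
      refine measure_union ?_ (meas_lE μ measurableSet_Ici)
      refine Set.disjoint_left.2 fun x hx hx' => ?_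
      have h2 : localEntropy μ x = (s₀ : EReal) := hx
      have h3 : ((L - s₀ : ℝ) : EReal) ≤ localEntropy μ x := hx'
      rw [h2, EReal.coe_le_coe_iff] at h3
      linarith
    have h2 : μ {x | localEntropy μ x = (s₀ : EReal)} + μ {x | ((L - s₀ : ℝ) : EReal) ≤ localEntropy μ x} ≤ 1 := by
      rw [← h1]
      exact prob_le_one
    rw [hs] at h2
    have h3 : (1 : ℝ≥0∞) = 1 / 2 + 1 / 2 := by rw [one_div, ENNReal.inv_two_add_inv_two]
    exact (ENNReal.add_le_add_iff_left (by norm_num : (1 / 2 : ℝ≥0∞) ≠ ⊤)).1 (h2.trans_eq h3)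
  · refine le_trans (le_of_eq ?_) hlaw
    exact hmass0.symm

end Pool.Agent.H34.WB
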