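import Pool.Agent.H34.WB.Stm2
import Pool.Agent.H34.WB.Law

/-! The local entropy of a part of a measure. -/

set_option autoImplicit false

open MeasureTheory Filter Topology Set
open Pool.Agent.Results.MP_07c750_an.WalshBakerQuantumLimits

noncomputable section

namespace Pool.Agent.H34.WB

variable {D : ℕ}

/-- the mass of a set of words, finite measures -/
lemma real_mem' (μ : Measure (ℤ → Fin D)) [IsFiniteMeasure μ] (n : ℕ) (A : Finset (Fin n → Fin D)) :
    μ.real {x | word n x ∈ A} = ∑ w ∈ A, μ.real (cylinder 0 w) := by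
  rw [← measureReal_biUnion_finset]
  · congr 1
    ext x
    simp only [cyl_word, Set.mem_iUnion, exists_prop, Set.mem_ofPred_eq]
    exact ⟨fun h => ⟨_, h, rfl⟩, fun ⟨w, h, e⟩ => e ▸ h⟩
  · intro a _ b _ hab
    refine Set.disjoint_left.2 fun x hx hx' => hab ?_
    rw [cyl_word] at hx hx'
    exact hx.symm.trans hx'
  · intro a _
    exact meas_cyl 0 a

/-- almost all points have cylinders of positive mass, finite measures -/
lemma ae_pos' (μ : Measure (ℤ → Fin D)) [IsFiniteMeasure μ] :
    ∀ᵐ x ∂μ, ∀ n, 0 < μ.real (cylinder 0 (word n x)) := by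
  rw [ae_all_iff]
  intro n
  classical
  have h1 : μ.real {x | word n x ∈ Finset.univ.filter fun w => μ.real (cylinder 0 w) = 0} = 0 := by
    rw [real_mem']
    exact Finset.sum_eq_zero fun w hw => (Finset.mem_filter.1 hw).2
  have h2 : μ {x | word n x ∈ Finset.univ.filter fun w => μ.real (cylinder 0 w) = 0} = 0 := by
    rwa [measureReal_eq_zero_iff] at h1
  rw [ae_iff]
  refine measure_mono_null (fun x hx => ?_) h2
  simp only [Set.mem_ofPred_eq, Finset.mem_filter, Finset.mem_univ, true_and]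
  have h3 : ¬ 0 < μ.real (cylinder 0 (word n x)) := hx
  exact le_antisymm (not_lt.1 h3) measureReal_nonneg

/-- the mass of a part of the measure is rarely exponentially smaller -/
lemma res_ev (κ μ : Measure (ℤ → Fin D)) [IsFiniteMeasure μ] [IsFiniteMeasure κ] (ε : ℝ) (hε : 0 < ε) :
    ∀ᵐ x ∂κ, ∀ᶠ n : ℕ in atTop, Real.exp (-ε) ^ n * μ.real (cylinder 0 (word n x)) ≤
      κ.real (cylinder 0 (word n x)) := by
  classical
  let A : (n : ℕ) → Finset (Fin n → Fin D) := fun n =>
    Finset.univ.filter fun w => κ.real (cylinder 0 w) < Real.exp (-ε) ^ n * μ.real (cylinder 0 w)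
  have h1 : ∀ n : ℕ, κ {x | word n x ∈ A n} ≤ ENNReal.ofReal (Real.exp (-ε) ^ n * μ.real univ) := by
    intro n
    rw [← ofReal_measureReal, real_mem']
    refine ENNReal.ofReal_le_ofReal ?_
    calc ∑ w ∈ A n, κ.real (cylinder 0 w) ≤ ∑ w ∈ A n, Real.exp (-ε) ^ n * μ.real (cylinder 0 w) :=
          Finset.sum_le_sum fun w hw => (Finset.mem_filter.1 hw).2.le
      _ = Real.exp (-ε) ^ n * μ.real {x | word n x ∈ A n} := by rw [← Finset.mul_sum, real_mem']
      _ ≤ Real.exp (-ε) ^ n * μ.real univ :=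
          mul_le_mul_of_nonneg_left (measureReal_mono (subset_univ _)) (by positivity)
  have h2 : ∑' n, κ {x | word n x ∈ A n} ≠ ⊤ := by
    have h3 : Summable fun n : ℕ => Real.exp (-ε) ^ n * μ.real univ :=
      (summable_geometric_of_lt_one (Real.exp_pos _).le (Real.exp_lt_one_iff.2 (by linarith))).mul_right _
    refine ne_top_of_le_ne_top ?_ (ENNReal.tsum_le_tsum h1)
    rw [← ENNReal.ofReal_tsum_of_nonneg (fun n => by positivity) h3]
    exact ENNReal.ofReal_ne_top
  filter_upwards [ae_eventually_notMem h2] with x hx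
  filter_upwards [hx] with n hn
  simp only [A, Finset.mem_filter, Finset.mem_univ, true_and, not_lt] at hn
  exact hn

lemma lim_le {u v : ℕ → ℝ} (h : ∀ k : ℕ, ∀ᶠ n in atTop, u n ≤ v n + 1 / ((k : ℝ) + 1)) :
    limsup (fun n => ((u n : ℝ) : EReal)) atTop ≤ limsup (fun n => ((v n : ℝ) : EReal)) atTop := by
  refine le_of_forall_gt fun c hc => ?_
  obtain ⟨d, hd1, hd2⟩ := EReal.lt_iff_exists_real_btwn.1 hc
  obtain ⟨e, he1, he2⟩ := EReal.lt_iff_exists_real_btwn.1 hd2
  rw [EReal.coe_lt_coe_iff] at he1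
  obtain ⟨k, hk⟩ := exists_nat_one_div_lt (sub_pos.2 he1)
  have h1 : ∀ᶠ n in atTop, ((v n : ℝ) : EReal) < d := eventually_lt_of_limsup_lt hd1 (by isBoundedDefault)
  refine lt_of_le_of_lt (limsup_le_of_le (by isBoundedDefault) ?_) he2
  filter_upwards [h1, h k] with n hn hn'
  rw [EReal.coe_lt_coe_iff] at hn
  rw [EReal.coe_le_coe_iff]
  linarith

theorem s_res : S_res := by
  intro D κ μ _ hle
  have hκ : IsFiniteMeasure κ := isFiniteMeasure_of_le μ hle
  have hr : ∀ S, κ.real S ≤ μ.real S := fun S => ENNReal.toReal_mono (measure_ne_top _ _) (hle S)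
  have h1 : ∀ᵐ x ∂κ, ∀ k : ℕ, ∀ᶠ n : ℕ in atTop, Real.exp (-(1 / ((k : ℝ) + 1))) ^ n *
      μ.real (cylinder 0 (word n x)) ≤ κ.real (cylinder 0 (word n x)) := by
    rw [ae_all_iff]
    intro k
    exact res_ev κ μ _ (by positivity)
  filter_upwards [h1, ae_pos' κ] with x hx hpos
  have hpos' : ∀ n, 0 < μ.real (cylinder 0 (word n x)) := fun n => lt_of_lt_of_le (hpos n) (hr _)
  refine le_antisymm ?_ ?_
  · refine lim_le fun k => ?_
    filter_upwards [hx k, eventually_gt_atTop 0] with n hn hn0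
    have hn' : (0 : ℝ) < n := by exact_mod_cast hn0
    have h2 := Real.log_le_log (mul_pos (by positivity) (hpos' n)) hn
    rw [Real.log_mul (by positivity) (hpos' n).ne', Real.log_pow, Real.log_exp] at h2
    unfold info
    rw [div_add' _ _ _ hn'.ne']
    refine div_le_div_of_nonneg_right ?_ hn'.le
    linarith
  · refine limsup_le_limsup (Eventually.of_forall fun n => ?_) (by isBoundedDefault) (by isBoundedDefault)
    rw [EReal.coe_le_coe_iff]
    unfold info
    refine div_le_div_of_nonneg_right ?_ (Nat.cast_nonneg n)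
    have := Real.log_le_log (hpos n) (hr _)
    linarith

end Pool.Agent.H34.WB
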