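import Pool.Agent.H34.WB.Mix
import Pool.Agent.H34.WB.Res

/-! Invariance of the local entropy. -/

set_option autoImplicit false

open MeasureTheory Filter Topology Set
open Pool.Agent.Results.MP_07c750_an.WalshBakerQuantumLimits

noncomputable section

namespace Pool.Agent.H34.WB

variable {D : ℕ}

lemma lei_le (μ : Measure (ℤ → Fin D)) [IsFiniteMeasure μ] (h : μ.map shf = μ) (x : ℤ → Fin D)
    (hx : ∀ n, 0 < μ.real (cylinder 0 (word n x))) : localEntropy μ (shf x) ≤ localEntropy μ x := by
  have h1 : ∀ n : ℕ, μ.real (cylinder 0 (word (n + 1) x)) ≤ μ.real (cylinder 0 (word n (shf x))) := by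
    intro n
    conv_rhs => rw [← h]
    rw [map_measureReal_apply meas_shf (meas_cyl 0 _)]
    refine measureReal_mono fun y hy => ?_
    rw [Set.mem_preimage, cyl_word]
    rw [cyl_word] at hy
    show word n (shf y) = word n (shf x)
    funext i
    have := congrFun hy i.succ
    unfold word at this ⊢
    unfold shf
    rw [Fin.val_succ] at this
    push_cast at this
    exact this
  have h2 : ∀ n : ℕ, 0 < n → info μ n (shf x) ≤ ((n : ℝ) + 1) / n * info μ (n + 1) x := by
    intro n hn
    have hn' : (0 : ℝ) < n := by exact_mod_cast hn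
    have h3 := Real.log_le_log (hx (n + 1)) (h1 n)
    have e : ((n : ℝ) + 1) / n * info μ (n + 1) x = - Real.log (μ.real (cylinder 0 (word (n + 1) x))) / n := by
      unfold info
      push_cast
      field_simp
    rw [e]
    unfold info
    refine div_le_div_of_nonneg_right ?_ hn'.le
    linarith
  refine le_of_forall_gt fun c hc => ?_
  obtain ⟨d, hd1, hd2⟩ := EReal.lt_iff_exists_real_btwn.1 hc
  obtain ⟨e, he1, he2⟩ := EReal.lt_iff_exists_real_btwn.1 hd2
  rw [EReal.coe_lt_coe_iff] at he1
  have h4 : ∀ᶠ n in atTop, ((info μ n x : ℝ) : EReal) < d := eventually_lt_of_limsup_lt hd1 (by isBoundedDefault)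
  have h5 : ∀ᶠ n in atTop, ((info μ (n + 1) x : ℝ) : EReal) < d := (tendsto_add_atTop_nat 1).eventually h4
  have h6 : Tendsto (fun n : ℕ => ((n : ℝ) + 1) / n * d) atTop (𝓝 (1 * d)) := by
    refine Tendsto.mul_const _ ?_
    have h7 : Tendsto (fun n : ℕ => 1 + ((n : ℝ))⁻¹) atTop (𝓝 (1 + 0)) :=
      (tendsto_inv_atTop_nhds_zero_nat (𝕜 := ℝ)).const_add 1
    rw [add_zero] at h7
    refine h7.congr' ?_
    filter_upwards [eventually_gt_atTop 0] with n hn
    have : (n : ℝ) ≠ 0 := by exact_mod_cast hn.ne'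
    field_simp
  rw [one_mul] at h6
  refine lt_of_le_of_lt (limsup_le_of_le (by isBoundedDefault) ?_) he2
  filter_upwards [h5, h6.eventually_lt_const he1, eventually_gt_atTop 0] with n h7 h8 h9
  rw [EReal.coe_lt_coe_iff] at h7
  rw [EReal.coe_le_coe_iff]
  have h10 : (0 : ℝ) < ((n : ℝ) + 1) / n := by positivity
  calc info μ n (shf x) ≤ ((n : ℝ) + 1) / n * info μ (n + 1) x := h2 n h9
    _ ≤ ((n : ℝ) + 1) / n * d := mul_le_mul_of_nonneg_left h7.le h10.le
    _ ≤ e := h8.le

theorem s_lei : S_lei := by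
  intro D _ μ _
  have hm : Measurable (localEntropy μ) := (s_meas D μ).2.2.2
  constructor
  · intro h
    have h1 : ∀ᵐ x ∂μ, localEntropy μ (shf x) ≤ localEntropy μ x := by
      filter_upwards [ae_pos' μ] with x hx
      exact lei_le μ h x hx
    have h2 : ∀ q : ℚ, ∀ᵐ x ∂μ, (localEntropy μ (shf x) < ((q : ℝ) : EReal) → localEntropy μ x < ((q : ℝ) : EReal)) := by
      intro q
      set B : Set (ℤ → Fin D) := {x | localEntropy μ x < ((q : ℝ) : EReal)} with hB
      have hBm : MeasurableSet B := hm measurableSet_Iio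
      have h3 : B ≤ᵐ[μ] shf ⁻¹' B := by
        filter_upwards [h1] with x hx hxB
        exact lt_of_le_of_lt hx hxB
      have h4 : μ (shf ⁻¹' B) = μ B := by rw [← Measure.map_apply meas_shf hBm, h]
      have h5 := ae_eq_of_ae_subset_of_measure_ge h3 h4.le hBm.nullMeasurableSet (measure_ne_top _ _)
      filter_upwards [h5] with x hx hx'
      show B x
      rw [hx]
      exact hx'
    rw [← ae_all_iff] at h2
    filter_upwards [h1, h2] with x hx hx'
    refine le_antisymm hx ?_
    by_contra hlt
    rw [not_le] at hlt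
    obtain ⟨q, hq1, hq2⟩ := EReal.lt_iff_exists_rat_btwn.1 hlt
    exact absurd (hx' q hq1) (not_lt.2 hq2.le)
  · intro h x
    have h1 : ∀ n, info μ n (ngv x) = info μ n x := by
      intro n
      unfold info
      have h2 : μ.real (cylinder 0 (word n (ngv x))) = μ.real (cylinder 0 (word n x)) := by
        conv_rhs => rw [← h]
        rw [map_measureReal_apply meas_ngv (meas_cyl 0 _), ngv_cyl]
        rfl
      rw [h2]
    unfold localEntropy
    simp only [h1]

end Pool.Agent.H34.WB
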