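import Pool.Agent.H34.WB.Stm
import Pool.Graph.R_pool_sql_team_seeded_63374d34.N282.WB.Df
import Pool.Graph.R_pool_sql_team_seeded_63374d34.N282.WB.Op
import Pool.Graph.R_pool_sql_team_seeded_63374d34.N282.WB.Cor

/-! The uncertainty inequality. -/

set_option autoImplicit false

open MeasureTheory Filter Topology Set
open scoped ComplexConjugate Matrix ComplexOrder
open Pool.Agent.Results.MP_07c750_an.WalshBakerQuantumLimits

noncomputable section

namespace Pool.Agent.H34.WB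

lemma unc_abs {E : Type*} [NormedAddCommGroup E] [InnerProductSpace ℂ E] (p q x : E) (c : ℝ) (hc : 0 ≤ c)
    (h1 : inner ℂ p x = ((‖p‖ ^ 2 : ℝ) : ℂ)) (h2 : inner ℂ q x = ((‖q‖ ^ 2 : ℝ) : ℂ))
    (h3 : ‖inner ℂ p q‖ ≤ c * (‖p‖ * ‖q‖)) : ‖p‖ ^ 2 + ‖q‖ ^ 2 ≤ (1 + c) * ‖x‖ ^ 2 := by
  set S : ℝ := ‖p‖ ^ 2 + ‖q‖ ^ 2 with hS
  have hS0 : 0 ≤ S := by positivity
  have e1 : S ≤ ‖p + q‖ * ‖x‖ := by
    have h4 : inner ℂ (p + q) x = ((S : ℝ) : ℂ) := by
      rw [inner_add_left, h1, h2, hS]; push_cast; ring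
    have h5 := norm_inner_le_norm (𝕜 := ℂ) (p + q) x
    rw [h4, Complex.norm_real, Real.norm_of_nonneg hS0] at h5
    exact h5
  have e2 : ‖p + q‖ ^ 2 ≤ (1 + c) * S := by
    have h4 := norm_add_sq (𝕜 := ℂ) p q
    have h5 : RCLike.re (inner ℂ p q) ≤ c * (‖p‖ * ‖q‖) := (RCLike.re_le_norm _).trans h3
    have h6 : 2 * (‖p‖ * ‖q‖) ≤ S := by nlinarith [sq_nonneg (‖p‖ - ‖q‖)]
    rw [h4]
    nlinarith [mul_le_mul_of_nonneg_left h6 hc]
  rcases hS0.eq_or_lt with h0 | h0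
  · rw [← h0]; positivity
  have e3 : S * S ≤ (1 + c) * S * ‖x‖ ^ 2 := by
    calc S * S ≤ (‖p + q‖ * ‖x‖) * (‖p + q‖ * ‖x‖) := mul_self_le_mul_self hS0 e1
      _ = ‖p + q‖ ^ 2 * ‖x‖ ^ 2 := by ring
      _ ≤ _ := mul_le_mul_of_nonneg_right e2 (by positivity)
  have e4 : S * S ≤ S * ((1 + c) * ‖x‖ ^ 2) := by linarith
  exact le_of_mul_le_mul_left e4 h0

/-- a set of coordinates against a set of vectors of an orthonormal basis all of whose coordinates are small -/
lemma unc_vec {ι : Type*} [Fintype ι] [DecidableEq ι] (G : Matrix ι ι ℂ) (hG : Gᴴ * G = 1) (g : ℝ) (hg : 0 ≤ g)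
    (hGg : ∀ u v, ‖G u v‖ ≤ g) (x : ι → ℂ) (A B : Finset ι) :
    ∑ w ∈ A, ‖x w‖ ^ 2 + ∑ w ∈ B, ‖∑ v, x v * G v w‖ ^ 2 ≤
      (1 + g * Real.sqrt ((A.card : ℝ) * B.card)) * ∑ v, ‖x v‖ ^ 2 := by
  set c : ι → ℂ := fun w => ∑ v, x v * G v w with hc
  let X : EuclideanSpace ℂ ι := WithLp.toLp 2 x
  let p : EuclideanSpace ℂ ι := WithLp.toLp 2 (fun v => if v ∈ A then x v else 0)
  let q : EuclideanSpace ℂ ι := WithLp.toLp 2 (fun v => ∑ w ∈ B, c w * conj (G v w))
  have hX : ‖X‖ ^ 2 = ∑ v, ‖x v‖ ^ 2 := by rw [EuclideanSpace.norm_sq_eq]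
  have hp : ‖p‖ ^ 2 = ∑ w ∈ A, ‖x w‖ ^ 2 := by
    rw [EuclideanSpace.norm_sq_eq, ← Finset.sum_filter_add_sum_filter_not Finset.univ (fun v => v ∈ A)]
    rw [Finset.sum_eq_zero (s := Finset.univ.filter fun v => ¬ v ∈ A), add_zero]
    · have : Finset.univ.filter (fun v => v ∈ A) = A := by ext; simp
      rw [this]
      refine Finset.sum_congr rfl fun v hv => ?_
      simp [p, hv]
    · intro v hv
      rw [Finset.mem_filter] at hv
      simp [p, hv.2]
  have horth : ∀ w w', ∑ v, conj (G v w) * G v w' = if w = w' then 1 else 0 := by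
    intro w w'
    have := congrFun (congrFun hG w) w'
    rw [Matrix.mul_apply, Matrix.one_apply] at this
    simpa [Matrix.conjTranspose_apply] using this
  have hq : ‖q‖ ^ 2 = ∑ w ∈ B, ‖c w‖ ^ 2 := by
    have h1 : (((‖q‖ ^ 2 : ℝ)) : ℂ) = ((∑ w ∈ B, ‖c w‖ ^ 2 : ℝ) : ℂ) := by
      rw [EuclideanSpace.norm_sq_eq]
      push_cast
      have h2 : ∀ v, (((‖q.ofLp v‖ : ℝ) : ℂ)) ^ 2 =
          ∑ w ∈ B, ∑ w' ∈ B, conj (c w) * c w' * (G v w * conj (G v w')) := by
        intro v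
        rw [← Complex.conj_mul']
        simp only [q, map_sum, map_mul, Complex.conj_conj]
        rw [Finset.sum_mul_sum]
        refine Finset.sum_congr rfl fun w _ => Finset.sum_congr rfl fun w' _ => ?_
        ring
      rw [Finset.sum_congr rfl fun v _ => h2 v, Finset.sum_comm]
      refine Finset.sum_congr rfl fun w hw => ?_
      rw [Finset.sum_comm]
      have h3 : ∀ w' ∈ B, ∑ v, conj (c w) * c w' * (G v w * conj (G v w')) =
          if w' = w then conj (c w) * c w' else 0 := by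
        intro w' _
        rw [← Finset.mul_sum]
        have := horth w' w
        simp_rw [mul_comm (G _ w)]
        rw [this]
        split_ifs <;> simp
      rw [Finset.sum_congr rfl h3, Finset.sum_ite_eq' B w, if_pos hw, Complex.conj_mul']
    exact_mod_cast h1
  have i1 : inner ℂ p X = ((‖p‖ ^ 2 : ℝ) : ℂ) := by
    rw [hp, PiLp.inner_apply]
    push_cast
    rw [← Finset.sum_filter_add_sum_filter_not Finset.univ (fun v => v ∈ A)]
    rw [Finset.sum_eq_zero (s := Finset.univ.filter fun v => ¬ v ∈ A), add_zero]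
    · have : Finset.univ.filter (fun v => v ∈ A) = A := by ext; simp
      rw [this]
      refine Finset.sum_congr rfl fun v hv => ?_
      simp only [p, X, hv, if_true, RCLike.inner_apply]
      rw [mul_comm, Complex.conj_mul']
    · intro v hv
      rw [Finset.mem_filter] at hv
      simp [p, hv.2]
  have i2 : inner ℂ q X = ((‖q‖ ^ 2 : ℝ) : ℂ) := by
    rw [hq, PiLp.inner_apply]
    push_cast
    have h2 : ∀ v, inner ℂ (q.ofLp v) (X.ofLp v) = ∑ w ∈ B, conj (c w) * (x v * G v w) := by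
      intro v
      simp only [q, X, RCLike.inner_apply, map_sum, map_mul, Complex.conj_conj]
      rw [Finset.mul_sum]
      refine Finset.sum_congr rfl fun w _ => ?_
      ring
    rw [Finset.sum_congr rfl fun v _ => h2 v, Finset.sum_comm]
    refine Finset.sum_congr rfl fun w hw => ?_
    rw [← Finset.mul_sum, ← Complex.conj_mul']
  have i3 : ‖inner ℂ p q‖ ≤ (g * Real.sqrt ((A.card : ℝ) * B.card)) * (‖p‖ * ‖q‖) := by
    rw [PiLp.inner_apply]
    have h2 : ∀ v, ‖inner ℂ (p.ofLp v) (q.ofLp v)‖ ≤ if v ∈ A then ‖x v‖ * (g * ∑ w ∈ B, ‖c w‖) else 0 := by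
      intro v
      by_cases hv : v ∈ A
      · simp only [p, q, hv, if_true, RCLike.inner_apply, norm_mul, RCLike.norm_conj]
        rw [mul_comm]
        refine mul_le_mul_of_nonneg_left ?_ (norm_nonneg _)
        refine (norm_sum_le _ _).trans ?_
        rw [Finset.mul_sum]
        refine Finset.sum_le_sum fun w _ => ?_
        rw [norm_mul, RCLike.norm_conj, mul_comm]
        exact mul_le_mul_of_nonneg_right (hGg _ _) (norm_nonneg _)
      · simp [p, hv]
    have h3 : ‖∑ v, inner ℂ (p.ofLp v) (q.ofLp v)‖ ≤ (∑ v ∈ A, ‖x v‖) * (g * ∑ w ∈ B, ‖c w‖) := by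
      refine (norm_sum_le _ _).trans ((Finset.sum_le_sum fun v _ => h2 v).trans ?_)
      rw [← Finset.sum_filter, Finset.sum_mul]
      have : Finset.univ.filter (fun v => v ∈ A) = A := by ext; simp
      rw [this]
    refine h3.trans ?_
    have h4 : ∑ v ∈ A, ‖x v‖ ≤ Real.sqrt A.card * ‖p‖ := by
      have h5 := Finset.sum_mul_sq_le_sq_mul_sq A (fun _ => (1 : ℝ)) (fun v => ‖x v‖)
      simp only [one_mul, one_pow, Finset.sum_const, nsmul_eq_mul, mul_one] at h5
      rw [← hp] at h5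
      have h6 : 0 ≤ Real.sqrt A.card * ‖p‖ := by positivity
      refine le_of_sq_le_sq ?_ h6 |> fun h => h
      rw [mul_pow, Real.sq_sqrt (Nat.cast_nonneg _)]
      exact h5
    have h7 : ∑ v ∈ B, ‖c v‖ ≤ Real.sqrt B.card * ‖q‖ := by
      have h5 := Finset.sum_mul_sq_le_sq_mul_sq B (fun _ => (1 : ℝ)) (fun v => ‖c v‖)
      simp only [one_mul, one_pow, Finset.sum_const, nsmul_eq_mul, mul_one] at h5
      rw [← hq] at h5
      have h6 : 0 ≤ Real.sqrt B.card * ‖q‖ := by positivity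
      refine le_of_sq_le_sq ?_ h6 |> fun h => h
      rw [mul_pow, Real.sq_sqrt (Nat.cast_nonneg _)]
      exact h5
    have h8 : 0 ≤ ∑ v ∈ B, ‖c v‖ := Finset.sum_nonneg fun _ _ => norm_nonneg _
    calc (∑ v ∈ A, ‖x v‖) * (g * ∑ w ∈ B, ‖c w‖)
        ≤ (Real.sqrt A.card * ‖p‖) * (g * (Real.sqrt B.card * ‖q‖)) := by
          refine mul_le_mul h4 (mul_le_mul_of_nonneg_left h7 hg) (by positivity) (by positivity)
      _ = _ := by
          rw [Real.sqrt_mul (Nat.cast_nonneg _)]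
          ring
  have h := unc_abs p q X _ (by positivity) i1 i2 i3
  rw [hp, hq, hX] at h
  exact h

lemma fpow_unit (D n : ℕ) (hD : 0 < D) : (fourierPow D n)ᴴ * fourierPow D n = 1 := by
  set F := Pool.Agent.Results.MP_07c750_an.WalshBakerQuantumLimits.fourier D with hF
  have h0 : Fᴴ * F = 1 := Pool.Agent.N282.WB.DF_uni D hD
  ext u v
  rw [Matrix.mul_apply]
  have h1 : ∀ w : Fin n → Fin D, (fourierPow D n)ᴴ u w * fourierPow D n w v =
      ∏ i, (Fᴴ (u i) (w i) * F (w i) (v i)) := by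
    intro w
    rw [Matrix.conjTranspose_apply]
    unfold fourierPow
    rw [star_prod, ← Finset.prod_mul_distrib]
    rfl
  rw [Finset.sum_congr rfl fun w _ => h1 w,
    ← Pool.Agent.N282.WB.OP_prod_sum (fun i a => Fᴴ (u i) a * F a (v i))]
  have h2 : ∀ i, ∑ a, Fᴴ (u i) a * F a (v i) = if u i = v i then 1 else 0 := by
    intro i
    rw [← Matrix.mul_apply, h0, Matrix.one_apply]
  rw [Finset.prod_congr rfl fun i _ => h2 i, Matrix.one_apply]
  by_cases h : u = v
  · subst h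
    simp
  · rw [if_neg h]
    obtain ⟨i, hi⟩ := Function.ne_iff.1 h
    exact Finset.prod_eq_zero (Finset.mem_univ i) (by rw [if_neg hi])

lemma fourier_norm (D : ℕ) (a b : Fin D) :
    ‖Pool.Agent.Results.MP_07c750_an.WalshBakerQuantumLimits.fourier D a b‖ = (Real.sqrt D)⁻¹ := by
  unfold Pool.Agent.Results.MP_07c750_an.WalshBakerQuantumLimits.fourier
  rw [norm_mul, norm_inv, Complex.norm_real, Real.norm_of_nonneg (Real.sqrt_nonneg _), Complex.norm_exp]
  have : (-(2 * Real.pi * Complex.I * ((a : ℕ) : ℂ) * ((b : ℕ) : ℂ) / (D : ℂ))).re = 0 := by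
    have e : (-(2 * Real.pi * Complex.I * ((a : ℕ) : ℂ) * ((b : ℕ) : ℂ) / (D : ℂ))) =
        ((-(2 * Real.pi * a * b / D) : ℝ) : ℂ) * Complex.I := by
      push_cast
      ring
    rw [e, Complex.re_ofReal_mul, Complex.I_re, mul_zero]
  rw [this, Real.exp_zero, mul_one]

lemma fpow_norm (D n : ℕ) (u v : Fin n → Fin D) : ‖fourierPow D n u v‖ = (Real.sqrt D)⁻¹ ^ n := by
  unfold fourierPow
  rw [norm_prod]
  simp [fourier_norm]

open scoped MatrixOrder in
lemma psd_factor {ι : Type*} [Fintype ι] [DecidableEq ι] {R : Matrix ι ι ℂ} (hR : R.PosSemidef) :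
    ∃ M : Matrix ι ι ℂ, R = Mᴴ * M := by
  obtain ⟨M, hM⟩ := CStarAlgebra.nonneg_iff_eq_star_mul_self.1 hR.nonneg
  exact ⟨M, hM⟩

theorem s_unc : S_unc := by
  intro D hD μ hμ ρ hρ hd
  have hD0 : 0 < D := by omega
  have hinv : Inv μ := fun m n w => by rw [hd m n w, hd 0 n w]
  refine ⟨fun n A B => ?_, hinv⟩
  obtain ⟨M, hM⟩ := psd_factor (hρ.posSemidef n)
  set G := fourierPow D n with hG
  -- the diagonal
  have d1 : ∀ w, (ρ n w w).re = ∑ k, ‖M k w‖ ^ 2 := by
    intro w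
    rw [hM, Matrix.mul_apply, Complex.re_sum]
    refine Finset.sum_congr rfl fun k _ => ?_
    rw [Matrix.conjTranspose_apply, RCLike.star_def, Complex.conj_mul', ← Complex.ofReal_pow, Complex.ofReal_re]
  have d2 : ∀ w, (ρ n w w).re = ∑ k, ‖∑ v, M k v * G v w‖ ^ 2 := by
    intro w
    have h1 : Gᴴ * ρ n * G = (M * G)ᴴ * (M * G) := by
      rw [hM, Matrix.conjTranspose_mul]
      simp only [Matrix.mul_assoc]
    rw [← hρ.fourier n, ← hG, h1, Matrix.mul_apply, Complex.re_sum]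
    refine Finset.sum_congr rfl fun k _ => ?_
    rw [Matrix.conjTranspose_apply, RCLike.star_def, Complex.conj_mul', ← Complex.ofReal_pow, Complex.ofReal_re,
      Matrix.mul_apply]
  have hsum : ∑ w : Fin n → Fin D, μ.real (cylinder 0 w) = 1 := by
    have h1 : (⋃ w ∈ (Finset.univ : Finset (Fin n → Fin D)), cylinder 0 w) = (Set.univ : Set (ℤ → Fin D)) := by
      ext x
      simp only [Set.mem_iUnion, Finset.mem_univ, exists_prop, true_and, Set.mem_univ, iff_true]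
      exact ⟨fun i => x (0 + i), fun i => rfl⟩
    rw [← measureReal_biUnion_finset, h1]
    · simp
    · intro a _ b _ hab
      refine Set.disjoint_left.2 fun x hx hx' => hab ?_
      funext i
      rw [← hx i, ← hx' i]
    · intro a _
      exact Pool.Agent.N282.WB.CO_meas 0 a
  have htr : ∑ k, ∑ v, ‖M k v‖ ^ 2 = 1 := by
    rw [Finset.sum_comm, ← hsum]
    refine Finset.sum_congr rfl fun w _ => ?_
    rw [hd 0 n w, d1]
  have hg : (0 : ℝ) ≤ (Real.sqrt D)⁻¹ ^ n := by positivity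
  have key : ∀ k, ∑ w ∈ A, ‖M k w‖ ^ 2 + ∑ w ∈ B, ‖∑ v, M k v * G v w‖ ^ 2 ≤
      (1 + (Real.sqrt D)⁻¹ ^ n * Real.sqrt ((A.card : ℝ) * B.card)) * ∑ v, ‖M k v‖ ^ 2 := fun k =>
    unc_vec G (fpow_unit D n hD0) _ hg (fun u v => (fpow_norm D n u v).le) (M k) A B
  have h1 : ∑ w ∈ A, μ.real (cylinder 0 w) + ∑ w ∈ B, μ.real (cylinder 0 w) =
      ∑ k, (∑ w ∈ A, ‖M k w‖ ^ 2 + ∑ w ∈ B, ‖∑ v, M k v * G v w‖ ^ 2) := by
    rw [Finset.sum_add_distrib]
    congr 1
    · rw [Finset.sum_comm]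
      exact Finset.sum_congr rfl fun w _ => by rw [hd 0 n w, d1]
    · rw [Finset.sum_comm]
      exact Finset.sum_congr rfl fun w _ => by rw [hd 0 n w, d2]
  have h2 : (Real.sqrt D)⁻¹ ^ n * Real.sqrt ((A.card : ℝ) * B.card) = Real.sqrt ((A.card : ℝ) * B.card / (D : ℝ) ^ n) := by
    have h3 : Real.sqrt ((D : ℝ) ^ n) = Real.sqrt D ^ n := by
      rw [Real.sqrt_eq_iff_mul_self_eq (by positivity) (by positivity), ← mul_pow, Real.mul_self_sqrt (by positivity)]
    rw [Real.sqrt_div' _ (by positivity), inv_pow, h3]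
    field_simp
  rw [h1]
  refine (Finset.sum_le_sum fun k _ => key k).trans ?_
  rw [← Finset.mul_sum, htr, mul_one, h2]

end Pool.Agent.H34.WB
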