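import Pool.Agent.H34.WB.Box
import Pool.Agent.H34.WB.Unc
import Pool.Graph.R_pool_sql_team_seeded_63374d34.N282.WB.Mx

/-! The law of the masked digits is the diagonal of an invariant state. -/

set_option autoImplicit false

open MeasureTheory Filter Topology Set
open scoped ComplexConjugate Matrix ComplexOrder
open Pool.Agent.Results.MP_07c750_an.WalshBakerQuantumLimits

noncomputable section

namespace Pool.Agent.H34.WB

variable {D : ℕ}

/-- tensor products of matrices -/
def ten {n : ℕ} (M : Fin n → Matrix (Fin D) (Fin D) ℂ) : Matrix (Fin n → Fin D) (Fin n → Fin D) ℂ :=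
  fun u v => ∏ i, M i (u i) (v i)

lemma ten_mul {n : ℕ} (M N : Fin n → Matrix (Fin D) (Fin D) ℂ) : ten M * ten N = ten (fun i => M i * N i) := by
  ext u v
  simp only [ten, Matrix.mul_apply]
  rw [Pool.Agent.N282.WB.OP_prod_sum (fun i a => M i (u i) a * N i a (v i))]
  exact Finset.sum_congr rfl fun w _ => Finset.prod_mul_distrib.symm

lemma ten_conj {n : ℕ} (M : Fin n → Matrix (Fin D) (Fin D) ℂ) : (ten M)ᴴ = ten (fun i => (M i)ᴴ) := by
  ext u v
  simp only [ten, Matrix.conjTranspose_apply, star_prod]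

lemma ten_psd {n : ℕ} (M : Fin n → Matrix (Fin D) (Fin D) ℂ) (h : ∀ i, (M i).PosSemidef) : (ten M).PosSemidef := by
  choose N hN using fun i => psd_factor (h i)
  have : ten M = (ten N)ᴴ * ten N := by
    rw [ten_conj, ten_mul]
    congr 1
    funext i
    exact hN i
  rw [this]
  exact Matrix.posSemidef_conjTranspose_mul_self _

variable [NeZero D]

/-- the states at the places of the three types -/
def tau (D : ℕ) [NeZero D] (a : Fin 3) : Matrix (Fin D) (Fin D) ℂ :=
  if a = 0 then Matrix.diagonal (fun u => if u = 0 then 1 else 0)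
  else if a = 1 then Matrix.of fun _ _ => (D : ℂ)⁻¹
  else (D : ℂ)⁻¹ • 1

/-- the Fourier transform at one site -/
abbrev QF (D : ℕ) : Matrix (Fin D) (Fin D) ℂ :=
  Pool.Agent.Results.MP_07c750_an.WalshBakerQuantumLimits.fourier D

lemma four_zero (u : Fin D) : QF D u 0 = ((Real.sqrt D : ℝ) : ℂ)⁻¹ := by
  unfold QF Pool.Agent.Results.MP_07c750_an.WalshBakerQuantumLimits.fourier
  simp

lemma four_zero' (u : Fin D) : QF D 0 u = ((Real.sqrt D : ℝ) : ℂ)⁻¹ := by
  unfold QF Pool.Agent.Results.MP_07c750_an.WalshBakerQuantumLimits.fourier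
  simp

lemma four_uni : (QF D)ᴴ * QF D = 1 := Pool.Agent.N282.WB.DF_uni D (NeZero.pos D)

lemma tau_a : QF D * tau D 0 * (QF D)ᴴ = tau D 1 := by
  ext u v
  have e0 : tau D 0 = Matrix.diagonal (fun u => if u = 0 then (1 : ℂ) else 0) := by unfold tau; rw [if_pos rfl]
  have e1 : tau D 1 u v = (D : ℂ)⁻¹ := by
    unfold tau; rw [if_neg (by decide), if_pos rfl, Matrix.of_apply]
  rw [e1, Matrix.mul_apply, Finset.sum_eq_single 0]
  · rw [e0, Matrix.mul_diagonal, Matrix.conjTranspose_apply, four_zero, four_zero, if_pos rfl, mul_one,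
      RCLike.star_def, map_inv₀, Complex.conj_ofReal]
    exact Pool.Agent.N282.WB.DF_inv D (NeZero.pos D)
  · intro b _ hb
    rw [e0, Matrix.mul_diagonal, if_neg hb, mul_zero, zero_mul]
  · intro h
    exact absurd (Finset.mem_univ _) h

lemma tau_b : (QF D)ᴴ * tau D 0 * QF D = tau D 1 := by
  ext u v
  have e0 : tau D 0 = Matrix.diagonal (fun u => if u = 0 then (1 : ℂ) else 0) := by unfold tau; rw [if_pos rfl]
  have e1 : tau D 1 u v = (D : ℂ)⁻¹ := by
    unfold tau; rw [if_neg (by decide), if_pos rfl, Matrix.of_apply]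
  rw [e1, Matrix.mul_apply, Finset.sum_eq_single 0]
  · rw [e0, Matrix.mul_diagonal, Matrix.conjTranspose_apply, four_zero', four_zero', if_pos rfl, mul_one,
      RCLike.star_def, map_inv₀, Complex.conj_ofReal]
    exact Pool.Agent.N282.WB.DF_inv D (NeZero.pos D)
  · intro b _ hb
    rw [e0, Matrix.mul_diagonal, if_neg hb, mul_zero, zero_mul]
  · intro h
    exact absurd (Finset.mem_univ _) h

lemma tau_sw (a : Fin 3) : (QF D)ᴴ * tau D a * QF D = tau D (sw a) := by
  have h0 : sw 0 = 1 := rfl
  have h1 : sw 1 = 0 := rfl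
  have h2 : sw 2 = 2 := rfl
  fin_cases a
  · show (QF D)ᴴ * tau D 0 * QF D = tau D (sw 0)
    rw [h0]
    exact tau_b
  · show (QF D)ᴴ * tau D 1 * QF D = tau D (sw 1)
    rw [h1, ← tau_a]
    have h3 := four_uni (D := D)
    calc (QF D)ᴴ * (QF D * tau D 0 * (QF D)ᴴ) * QF D = ((QF D)ᴴ * QF D) * tau D 0 * ((QF D)ᴴ * QF D) := by
          simp only [Matrix.mul_assoc]
      _ = tau D 0 := by rw [h3, Matrix.one_mul, Matrix.mul_one]
  · show (QF D)ᴴ * tau D 2 * QF D = tau D (sw 2)
    rw [h2]
    have h3 : tau D 2 = (D : ℂ)⁻¹ • 1 := by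
      unfold tau
      rw [if_neg (by decide), if_neg (by decide)]
    rw [h3, Matrix.mul_smul, Matrix.mul_one, Matrix.smul_mul, four_uni]

lemma tau_psd (a : Fin 3) : (tau D a).PosSemidef := by
  have h0 : (tau D 0).PosSemidef := by
    unfold tau
    rw [if_pos rfl]
    refine Matrix.PosSemidef.diagonal fun u => ?_
    simp only [Pi.zero_apply]
    split_ifs
    · exact zero_le_one
    · exact le_refl _
  fin_cases a
  · exact h0
  · show (tau D 1).PosSemidef
    rw [← tau_a]
    exact h0.mul_mul_conjTranspose_same _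
  · show (tau D 2).PosSemidef
    unfold tau
    rw [if_neg (by decide), if_neg (by decide)]
    refine Matrix.PosSemidef.smul Matrix.PosSemidef.one ?_
    rw [← Complex.ofReal_natCast, ← Complex.ofReal_inv, Complex.zero_le_real]
    positivity

lemma tau_diag (a : Fin 3) (u : Fin D) : tau D a u u = (dg D a u : ℂ) := by
  unfold tau dg
  by_cases h0 : a = 0
  · simp only [h0, if_true, Matrix.diagonal_apply_eq]
    split_ifs <;> simp
  · simp only [h0, if_false]
    by_cases h1 : a = 1
    · simp only [h1, if_true, Matrix.of_apply]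
      push_cast
      rw [one_div]
    · simp only [h1, if_false, Matrix.smul_apply, Matrix.one_apply_eq, smul_eq_mul, mul_one]
      push_cast
      rw [one_div]

lemma dg_sum (a : Fin 3) : ∑ u : Fin D, dg D a u = 1 := by
  unfold dg
  by_cases h0 : a = 0
  · simp [h0]
  · simp only [h0, if_false]
    rw [Finset.sum_const, Finset.card_univ, Fintype.card_fin, nsmul_eq_mul]
    have : (D : ℝ) ≠ 0 := by exact_mod_cast NeZero.ne D
    field_simp

lemma tau_trace (a : Fin 3) : ∑ u : Fin D, tau D a u u = 1 := by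
  simp_rw [tau_diag]
  rw [← Complex.ofReal_sum, dg_sum, Complex.ofReal_one]

variable {Ω : Type} [MeasurableSpace Ω]

/-- the law of the types of the places `m, …, m + n - 1` -/
def pat (P : Measure Ω) (T : Ω → ℤ → Fin 3) (m : ℤ) (n : ℕ) (t : Fin n → Fin 3) : ℝ :=
  P.real {ω | ∀ i : Fin n, T ω (m + i) = t i}

/-- the state -/
def rho (D : ℕ) [NeZero D] (P : Measure Ω) (T : Ω → ℤ → Fin 3) (n : ℕ) : Matrix (Fin n → Fin D) (Fin n → Fin D) ℂ :=
  ∑ t : Fin n → Fin 3, ((pat P T 0 n t : ℝ) : ℂ) • ten (fun i => tau D (t i))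

lemma rho_apply (P : Measure Ω) (T : Ω → ℤ → Fin 3) (n : ℕ) (u v : Fin n → Fin D) :
    rho D P T n u v = ∑ t : Fin n → Fin 3, ((pat P T 0 n t : ℝ) : ℂ) * ∏ i, tau D (t i) (u i) (v i) := by
  unfold rho
  rw [Matrix.sum_apply]
  rfl

omit [NeZero D]

lemma pat_shift {P : Measure Ω} [IsProbabilityMeasure P] {T : Ω → ℤ → Fin 3} (h : Types P T) (m : ℤ) (n : ℕ)
    (t : Fin n → Fin 3) : pat P T m n t = pat P T 0 n t := by
  obtain ⟨S, hS, hST⟩ := h.shift
  have h1 : ∀ m, pat P T (m + 1) n t = pat P T m n t := by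
    intro m
    unfold pat
    rw [← hS.measureReal_preimage (meas_pat T h.meas m t).nullMeasurableSet]
    congr 1
    ext ω
    simp only [Set.mem_ofPred_eq, Set.mem_preimage, hST]
    refine forall_congr' fun i => ?_
    rw [show m + 1 + (i : ℤ) = m + i + 1 by ring]
  induction m using Int.induction_on with
  | zero => rfl
  | succ i ih => rw [h1, ih]
  | pred i ih =>
    have := h1 (-(i : ℤ) - 1)
    rw [sub_add_cancel] at this
    rw [← this, ih]

lemma pat_sw {P : Measure Ω} [IsProbabilityMeasure P] {T : Ω → ℤ → Fin 3} (h : Types P T) (m : ℤ) (n : ℕ)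
    (t : Fin n → Fin 3) : pat P T m n (fun i => sw (t i)) = pat P T m n t := by
  obtain ⟨R, hR, hRT⟩ := h.swap
  unfold pat
  rw [← hR.measureReal_preimage (meas_pat T h.meas m (fun i => sw (t i))).nullMeasurableSet]
  congr 1
  ext ω
  simp only [Set.mem_ofPred_eq, Set.mem_preimage, hRT]
  refine forall_congr' fun i => ?_
  have : ∀ a b : Fin 3, sw a = sw b ↔ a = b := by decide
  exact this _ _

lemma pat_snoc {P : Measure Ω} [IsProbabilityMeasure P] {T : Ω → ℤ → Fin 3} (hT : ∀ i, Measurable fun ω => T ω i)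
    (m : ℤ) (n : ℕ) (t : Fin n → Fin 3) :
    ∑ a, pat P T m (n + 1) (Fin.snoc t a : Fin (n + 1) → Fin 3) = pat P T m n t := by
  unfold pat
  rw [← measureReal_biUnion_finset]
  · congr 1
    ext ω
    simp only [Set.mem_iUnion, Finset.mem_univ, exists_prop, true_and, Set.mem_ofPred_eq]
    constructor
    · rintro ⟨a, h⟩ i
      have := h i.castSucc
      rw [Fin.snoc_castSucc] at this
      exact this
    · intro h
      refine ⟨T ω (m + n), fun i => ?_⟩
      refine Fin.lastCases ?_ (fun i => ?_) i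
      · rw [Fin.snoc_last]
        simp
      · rw [Fin.snoc_castSucc]
        exact h i
  · intro a _ b _ hab
    refine Set.disjoint_left.2 fun x hx hx' => hab ?_
    have h1 := hx (Fin.last n)
    have h2 := hx' (Fin.last n)
    rw [Fin.snoc_last] at h1 h2
    rw [← h1, ← h2]
  · intro a _
    exact meas_pat T hT _ _

lemma pat_cons {P : Measure Ω} [IsProbabilityMeasure P] {T : Ω → ℤ → Fin 3} (hT : ∀ i, Measurable fun ω => T ω i)
    (m : ℤ) (n : ℕ) (t : Fin n → Fin 3) :
    ∑ a, pat P T m (n + 1) (Fin.cons a t : Fin (n + 1) → Fin 3) = pat P T (m + 1) n t := by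
  unfold pat
  rw [← measureReal_biUnion_finset]
  · congr 1
    ext ω
    simp only [Set.mem_iUnion, Finset.mem_univ, exists_prop, true_and, Set.mem_ofPred_eq]
    constructor
    · rintro ⟨a, h⟩ i
      have := h i.succ
      rw [Fin.cons_succ] at this
      rw [← this]
      congr 1
      rw [Fin.val_succ]
      push_cast
      ring
    · intro h
      refine ⟨T ω m, fun i => ?_⟩
      refine Fin.cases ?_ (fun i => ?_) i
      · rw [Fin.cons_zero]
        simp
      · rw [Fin.cons_succ, ← h i]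
        congr 1
        rw [Fin.val_succ]
        push_cast
        ring
  · intro a _ b _ hab
    refine Set.disjoint_left.2 fun x hx hx' => hab ?_
    have h1 := hx 0
    have h2 := hx' 0
    rw [Fin.cons_zero] at h1 h2
    rw [← h1, ← h2]
  · intro a _
    exact meas_pat T hT _ _

variable [NeZero D]

theorem rho_inv {P : Measure Ω} [IsProbabilityMeasure P] {T : Ω → ℤ → Fin 3} (h : Types P T) :
    IsInvariantState D (rho D P T) := by
  refine ⟨fun n => ?_, fun u v => ?_, fun n u v => ?_, fun n u v => ?_, fun n => ?_⟩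
  · refine Matrix.posSemidef_sum _ fun t _ => Matrix.PosSemidef.smul (ten_psd _ fun i => tau_psd _) ?_
    rw [Complex.zero_le_real]
    exact measureReal_nonneg
  · rw [rho_apply, Fintype.sum_unique]
    simp [pat]
  · simp_rw [rho_apply]
    rw [Finset.sum_comm, Pool.Agent.N282.WB.MX_sum_snoc]
    refine Finset.sum_congr rfl fun t _ => ?_
    rw [← pat_snoc h.meas 0 n t, Complex.ofReal_sum, Finset.sum_mul]
    refine Finset.sum_congr rfl fun b _ => ?_
    rw [← Finset.mul_sum]
    congr 1
    simp_rw [Fin.prod_univ_castSucc, Fin.snoc_castSucc, Fin.snoc_last]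
    rw [← Finset.mul_sum, tau_trace, mul_one]
  · simp_rw [rho_apply]
    rw [Finset.sum_comm, Pool.Agent.N282.WB.MX_sum_cons]
    refine Finset.sum_congr rfl fun t _ => ?_
    rw [← pat_shift h (0 + 1) n t, ← pat_cons h.meas 0 n t, Complex.ofReal_sum, Finset.sum_mul]
    refine Finset.sum_congr rfl fun b _ => ?_
    rw [← Finset.mul_sum]
    congr 1
    simp_rw [Fin.prod_univ_succ, Fin.cons_succ, Fin.cons_zero]
    rw [← Finset.sum_mul, tau_trace, one_mul]
  · have h1 : fourierPow D n = ten fun _ => QF D := rfl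
    unfold rho
    rw [h1, Matrix.mul_sum, Matrix.sum_mul]
    have h2 : ∀ t : Fin n → Fin 3, (ten fun _ => QF D)ᴴ * ((pat P T 0 n t : ℝ) : ℂ) • ten (fun i => tau D (t i)) *
        (ten fun _ => QF D) = ((pat P T 0 n (fun i => sw (t i)) : ℝ) : ℂ) • ten (fun i => tau D (sw (t i))) := by
      intro t
      rw [Matrix.mul_smul, Matrix.smul_mul, ten_conj, ten_mul, ten_mul, pat_sw h]
      congr 2
      funext i
      exact tau_sw _
    rw [Finset.sum_congr rfl fun t _ => h2 t]
    have h3 : Function.Involutive fun t : Fin n → Fin 3 => fun i => sw (t i) := by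
      intro t
      funext i
      have : ∀ a : Fin 3, sw (sw a) = a := by decide
      exact this _
    exact Equiv.sum_comp (h3.toPerm _) fun t : Fin n → Fin 3 =>
      ((pat P T 0 n t : ℝ) : ℂ) • ten (fun i => tau D (t i))

theorem s_state : S_state := by
  intro D _ hD Ω _ P _ T h
  refine ⟨prob_mask P T h.meas, rho D P T, rho_inv h, fun m n w => ?_⟩
  rw [mask_box P T h.meas, rho_apply]
  simp_rw [tau_diag]
  rw [Complex.re_sum]
  refine Finset.sum_congr rfl fun t _ => ?_
  rw [← Complex.ofReal_prod, ← Complex.ofReal_mul, Complex.ofReal_re]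
  congr 1
  exact pat_shift h m n t

end Pool.Agent.H34.WB
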