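import Pool.Agent.H34.WB.Stm2
import Pool.Agent.H34.WB.State
import Pool.Graph.R_pool_sql_team_seeded_63374d34.N282.WB.Nc

/-! The part of an invariant state on an invariant set. -/

set_option autoImplicit false

open MeasureTheory Filter Topology Set
open scoped ComplexConjugate Matrix ComplexOrder
open Pool.Agent.Results.MP_07c750_an.WalshBakerQuantumLimits

noncomputable section

namespace Pool.Agent.H34.WB

variable {D : ℕ} {ρ : (n : ℕ) → Matrix (Fin n → Fin D) (Fin n → Fin D) ℂ}

lemma rho_cast (ρ : (n : ℕ) → Matrix (Fin n → Fin D) (Fin n → Fin D) ℂ) {k l : ℕ} (h : k = l) (u v : Fin l → Fin D) :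
    ρ k (u ∘ Fin.cast h) (v ∘ Fin.cast h) = ρ l u v := by
  subst h
  rfl

lemma TZ_ite {n : ℕ} (A : Finset (Fin n → Fin D)) (m : ℕ) (u v : Fin m → Fin D) :
    TZ ρ A m u v = ∑ z, if z ∈ A then ρ (n + m) (Fin.append z u) (Fin.append z v) else 0 := by
  classical
  unfold TZ
  rw [← Finset.sum_filter]
  congr 1
  ext z
  simp

/-- the words whose first letters are a word in `A` -/
def sset {n : ℕ} (A : Finset (Fin n → Fin D)) : Finset (Fin (n + 1) → Fin D) :=
  Finset.univ.filter fun y => Fin.init y ∈ A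

/-- the words whose last letters are a word in `A` -/
def cset {n : ℕ} (A : Finset (Fin n → Fin D)) : Finset (Fin (n + 1) → Fin D) :=
  Finset.univ.filter fun y => Fin.tail y ∈ A

lemma T_right (h : IsInvariantState D ρ) {n : ℕ} (A : Finset (Fin n → Fin D)) (m : ℕ) (u v : Fin m → Fin D) :
    ∑ a, TZ ρ A (m + 1) (Fin.snoc u a) (Fin.snoc v a) = TZ ρ A m u v := by
  unfold TZ
  rw [Finset.sum_comm]
  refine Finset.sum_congr rfl fun z _ => ?_
  simp_rw [Fin.append_snoc]
  exact h.right (n + m) _ _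

lemma T_front (h : IsInvariantState D ρ) {n : ℕ} (A : Finset (Fin n → Fin D)) (m : ℕ) (u v : Fin m → Fin D) :
    TZ ρ (cset A) m u v = TZ ρ A m u v := by
  classical
  rw [TZ_ite, TZ_ite, Pool.Agent.N282.WB.MX_sum_cons]
  refine Finset.sum_congr rfl fun z _ => ?_
  have e : ∀ b : Fin D, (Fin.cons b z : Fin (n + 1) → Fin D) ∈ cset A ↔ z ∈ A := by
    intro b
    unfold cset
    rw [Finset.mem_filter, Fin.tail_cons]
    simp
  simp_rw [e]
  by_cases hz : z ∈ A
  · simp only [hz, if_true]
    rw [← h.left (n + m)]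
    refine Finset.sum_congr rfl fun b _ => ?_
    rw [Fin.append_cons, Fin.append_cons]
    exact rho_cast ρ _ _ _
  · simp [hz]

lemma T_back {n : ℕ} (A : Finset (Fin n → Fin D)) (m : ℕ) (u v : Fin m → Fin D) :
    ∑ a, TZ ρ A (m + 1) (Fin.cons a u) (Fin.cons a v) = TZ ρ (sset A) m u v := by
  classical
  simp_rw [TZ_ite]
  rw [Pool.Agent.N282.WB.MX_sum_snoc, Finset.sum_comm]
  refine Finset.sum_congr rfl fun z _ => ?_
  have e : ∀ b : Fin D, (Fin.snoc z b : Fin (n + 1) → Fin D) ∈ sset A ↔ z ∈ A := by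
    intro b
    unfold sset
    rw [Finset.mem_filter, Fin.init_snoc]
    simp
  simp_rw [e]
  refine Finset.sum_congr rfl fun b _ => ?_
  by_cases hz : z ∈ A
  · simp only [hz, if_true]
    rw [Fin.append_right_cons, Fin.append_right_cons]
    exact rho_cast ρ _ _ _
  · simp [hz]

lemma psd_entry {ι : Type*} [Fintype ι] [DecidableEq ι] {R : Matrix ι ι ℂ} (hR : R.PosSemidef) (a b : ι) :
    ‖R a b‖ ≤ ((R a a).re + (R b b).re) / 2 := by
  obtain ⟨M, hM⟩ := psd_factor hR
  have d1 : ∀ w, (R w w).re = ∑ k, ‖M k w‖ ^ 2 := by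
    intro w
    rw [hM, Matrix.mul_apply, Complex.re_sum]
    refine Finset.sum_congr rfl fun k _ => ?_
    rw [Matrix.conjTranspose_apply, RCLike.star_def, Complex.conj_mul', ← Complex.ofReal_pow, Complex.ofReal_re]
  rw [d1, d1, hM, Matrix.mul_apply, ← Finset.sum_add_distrib, Finset.sum_div]
  refine (norm_sum_le _ _).trans (Finset.sum_le_sum fun k _ => ?_)
  rw [Matrix.conjTranspose_apply, norm_mul, norm_star]
  nlinarith [sq_nonneg (‖M k a‖ - ‖M k b‖)]

lemma append_mass {μ : Measure (ℤ → Fin D)} [IsProbabilityMeasure μ] (hd : IsDiagonal μ ρ) {n m : ℕ}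
    (z : Fin n → Fin D) (u : Fin m → Fin D) :
    (ρ (n + m) (Fin.append z u) (Fin.append z u)).re = μ.real ({x | word n x = z} ∩ cylinder (n : ℤ) u) := by
  rw [← hd 0 (n + m)]
  congr 1
  ext x
  simp only [Set.mem_inter_iff, Set.mem_ofPred_eq]
  constructor
  · intro h
    constructor
    · funext i
      have := h (Fin.castAdd m i)
      rw [Fin.append_left] at this
      rw [← this, zero_add]
      rfl
    · intro i
      have := h (Fin.natAdd n i)
      rw [Fin.append_right] at this
      rw [← this, zero_add, Fin.val_natAdd]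
      push_cast
      rfl
  · rintro ⟨h1, h2⟩ i
    rw [zero_add]
    refine Fin.addCases (fun i => ?_) (fun i => ?_) i
    · rw [Fin.append_left, ← h1]
      rfl
    · rw [Fin.append_right, ← h2 i, Fin.val_natAdd]
      push_cast
      rfl

lemma T_diff (h : IsInvariantState D ρ) {μ : Measure (ℤ → Fin D)} [IsProbabilityMeasure μ] (hd : IsDiagonal μ ρ)
    {n : ℕ} (A B : Finset (Fin n → Fin D)) (m : ℕ) (u v : Fin m → Fin D) :
    ‖TZ ρ A m u v - TZ ρ B m u v‖ ≤ μ.real (symmDiff {x | word n x ∈ A} {x | word n x ∈ B}) := by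
  classical
  have e1 : symmDiff {x : ℤ → Fin D | word n x ∈ A} {x | word n x ∈ B} = {x | word n x ∈ symmDiff A B} := by
    ext x
    simp only [Set.mem_symmDiff, Set.mem_ofPred_eq, Finset.mem_symmDiff]
  rw [e1, real_mem, TZ_ite, TZ_ite, ← Finset.sum_sub_distrib]
  have e2 : ∀ z : Fin n → Fin D, ((if z ∈ A then ρ (n + m) (Fin.append z u) (Fin.append z v) else 0) -
      (if z ∈ B then ρ (n + m) (Fin.append z u) (Fin.append z v) else 0)) =
      if z ∈ symmDiff A B then (if z ∈ A then ρ (n + m) (Fin.append z u) (Fin.append z v) else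
        - ρ (n + m) (Fin.append z u) (Fin.append z v)) else 0 := by
    intro z
    by_cases h1 : z ∈ A <;> by_cases h2 : z ∈ B <;> simp [Finset.mem_symmDiff, h1, h2]
  rw [Finset.sum_congr rfl fun z _ => e2 z, ← Finset.sum_filter]
  have e3 : Finset.univ.filter (fun z => z ∈ symmDiff A B) = symmDiff A B := by ext; simp
  rw [e3]
  refine (norm_sum_le _ _).trans (Finset.sum_le_sum fun z _ => ?_)
  have e4 : ‖(if z ∈ A then ρ (n + m) (Fin.append z u) (Fin.append z v) else
        - ρ (n + m) (Fin.append z u) (Fin.append z v))‖ = ‖ρ (n + m) (Fin.append z u) (Fin.append z v)‖ := by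
    split_ifs
    · rfl
    · rw [norm_neg]
  rw [e4]
  refine (psd_entry (h.posSemidef (n + m)) _ _).trans ?_
  have e5 : ∀ u : Fin m → Fin D, (ρ (n + m) (Fin.append z u) (Fin.append z u)).re ≤ μ.real (cylinder 0 z) := by
    intro u
    rw [append_mass hd, cyl_word]
    exact measureReal_mono inter_subset_left
  linarith [e5 u, e5 v]

lemma T_zero {n : ℕ} (m : ℕ) (u v : Fin m → Fin D) : TZ ρ (∅ : Finset (Fin n → Fin D)) m u v = 0 := by
  unfold TZ
  rw [Finset.sum_empty]

lemma T_norm (h : IsInvariantState D ρ) {μ : Measure (ℤ → Fin D)} [IsProbabilityMeasure μ] (hd : IsDiagonal μ ρ)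
    {n : ℕ} (A : Finset (Fin n → Fin D)) (m : ℕ) (u v : Fin m → Fin D) : ‖TZ ρ A m u v‖ ≤ 1 := by
  have h1 := T_diff h hd A ∅ m u v
  rw [T_zero, sub_zero] at h1
  exact h1.trans measureReal_le_one

lemma T_psd (h : IsInvariantState D ρ) {n : ℕ} (A : Finset (Fin n → Fin D)) (m : ℕ) : (TZ ρ A m).PosSemidef := by
  have : TZ ρ A m = ∑ z ∈ A, (ρ (n + m)).submatrix (Fin.append z) (Fin.append z) := by
    ext u v
    rw [Matrix.sum_apply]
    rfl
  rw [this]
  exact Matrix.posSemidef_sum _ fun z _ => (h.posSemidef (n + m)).submatrix _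

lemma meas_shf : Measurable (shf : (ℤ → Fin D) → (ℤ → Fin D)) :=
  measurable_pi_lambda _ fun _ => measurable_pi_apply _

lemma sset_set {n : ℕ} (A : Finset (Fin n → Fin D)) :
    {x : ℤ → Fin D | word (n + 1) x ∈ sset A} = {x | word n x ∈ A} := by
  ext x
  simp only [Set.mem_ofPred_eq, sset, Finset.mem_filter, Finset.mem_univ, true_and]
  have : (Fin.init (word (n + 1) x) : Fin n → Fin D) = word n x := by
    funext i
    rfl
  rw [this]

lemma cset_set {n : ℕ} (A : Finset (Fin n → Fin D)) :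
    {x : ℤ → Fin D | word (n + 1) x ∈ cset A} = shf ⁻¹' {x | word n x ∈ A} := by
  ext x
  simp only [Set.mem_ofPred_eq, cset, Finset.mem_filter, Finset.mem_univ, true_and, Set.mem_preimage]
  have : (Fin.tail (word (n + 1) x) : Fin n → Fin D) = word n (shf x) := by
    funext i
    unfold Fin.tail word shf
    rw [Fin.val_succ]
    push_cast
    rfl
  rw [this]

lemma meas_wordset {n : ℕ} (A : Finset (Fin n → Fin D)) : MeasurableSet {x : ℤ → Fin D | word n x ∈ A} :=
  meas_word n (Set.toFinite (A : Set (Fin n → Fin D))).measurableSet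

lemma shift_diff {μ : Measure (ℤ → Fin D)} [IsProbabilityMeasure μ] (hs : μ.map shf = μ) {E : Set (ℤ → Fin D)}
    (hE : MeasurableSet E) (hE' : μ.real (symmDiff (shf ⁻¹' E) E) = 0) {n : ℕ} (A : Finset (Fin n → Fin D)) :
    μ.real (symmDiff {x | word (n + 1) x ∈ sset A} {x | word (n + 1) x ∈ cset A}) ≤
      2 * μ.real (symmDiff {x | word n x ∈ A} E) := by
  rw [sset_set, cset_set]
  have h1 := measureReal_symmDiff_le (μ := μ) (s := {x | word n x ∈ A}) (t := E) (shf ⁻¹' {x | word n x ∈ A})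
  have h2 := measureReal_symmDiff_le (μ := μ) (s := E) (t := shf ⁻¹' E) (shf ⁻¹' {x | word n x ∈ A})
  have h3 : μ.real (symmDiff (shf ⁻¹' E) (shf ⁻¹' {x | word n x ∈ A})) = μ.real (symmDiff {x | word n x ∈ A} E) := by
    rw [symmDiff_comm {x | word n x ∈ A} E, ← Set.preimage_symmDiff, ← map_measureReal_apply meas_shf
      (hE.symmDiff (meas_wordset A)), hs]
  have h4 : μ.real (symmDiff E (shf ⁻¹' E)) = 0 := by rw [symmDiff_comm, hE']
  linarith

lemma inter_diff (μ : Measure (ℤ → Fin D)) [IsProbabilityMeasure μ] (W E C : Set (ℤ → Fin D)) :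
    |μ.real (W ∩ C) - μ.real (E ∩ C)| ≤ μ.real (symmDiff W E) := by
  have key : ∀ W E : Set (ℤ → Fin D), μ.real (W ∩ C) ≤ μ.real (E ∩ C) + μ.real (symmDiff W E) := by
    intro W E
    refine (measureReal_mono (s₂ := (E ∩ C) ∪ symmDiff W E) ?_).trans (measureReal_union_le _ _)
    intro x hx
    by_cases h : x ∈ E
    · exact Or.inl ⟨h, hx.2⟩
    · exact Or.inr (Or.inl ⟨hx.1, h⟩)
  have h1 := key W E
  have h2 := key E W
  rw [symmDiff_comm] at h2
  rw [abs_le]
  constructor <;> linarith

lemma cyl_inv {μ : Measure (ℤ → Fin D)} [IsProbabilityMeasure μ] (hs : μ.map shf = μ) {E : Set (ℤ → Fin D)}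
    (hE : MeasurableSet E) (hE' : μ.real (symmDiff (shf ⁻¹' E) E) = 0) {m : ℕ} (u : Fin m → Fin D) (j : ℤ) :
    μ.real (E ∩ cylinder j u) = μ.real (E ∩ cylinder 0 u) := by
  have key : ∀ j : ℤ, μ.real (E ∩ cylinder (j + 1) u) = μ.real (E ∩ cylinder j u) := by
    intro j
    have h1 : μ.real (shf ⁻¹' (E ∩ cylinder j u)) = μ.real (E ∩ cylinder j u) := by
      rw [← map_measureReal_apply meas_shf (hE.inter (meas_cyl j u)), hs]
    have h2 : shf ⁻¹' (E ∩ cylinder j u) = shf ⁻¹' E ∩ cylinder (j + 1) u := by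
      ext x
      simp only [Set.mem_preimage, Set.mem_inter_iff]
      refine and_congr_right fun _ => ?_
      refine forall_congr' fun i => ?_
      unfold shf
      rw [show j + (i : ℤ) + 1 = j + 1 + i by ring]
    have h3 := inter_diff μ (shf ⁻¹' E) E (cylinder (j + 1) u)
    rw [hE'] at h3
    have h4 := abs_nonpos_iff.1 h3
    rw [← h1, h2]
    linarith
  induction j using Int.induction_on with
  | zero => rfl
  | succ i ih => rw [key, ih]
  | pred i ih =>
    have := key (-(i : ℤ) - 1)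
    rw [sub_add_cancel] at this
    rw [← this, ih]

theorem s_lim : S_lim := by
  intro D _ hD μ _ hs ρ hρ hd hneg E hE hE' A hA hAE
  set U : Filter ℕ := (hyperfilter ℕ : Filter ℕ) with hU
  have hUle : U ≤ atTop := Nat.hyperfilter_le_atTop
  have hex : ∀ (m : ℕ) (u v : Fin m → Fin D), ∃ z : ℂ, Tendsto (fun n => TZ ρ (A n) m u v) U (𝓝 z) := by
    intro m u v
    have e1 : ∀ᶠ n in U, TZ ρ (A n) m u v ∈ Metric.closedBall (0 : ℂ) 1 :=
      Eventually.of_forall fun n => by
        rw [mem_closedBall_zero_iff]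
        exact T_norm hρ hd (A n) m u v
    obtain ⟨z, _, hz⟩ := (isCompact_closedBall (0 : ℂ) 1).ultrafilter_le_nhds
      ((hyperfilter ℕ).map fun n => TZ ρ (A n) m u v) (le_principal_iff.2 e1)
    exact ⟨z, hz⟩
  choose σ hσ using hex
  have hσM : ∀ m, Tendsto (fun n => TZ ρ (A n) m) U (𝓝 (Matrix.of (σ m))) := by
    intro m
    exact tendsto_pi_nhds.2 fun u => tendsto_pi_nhds.2 fun v => hσ m u v
  refine ⟨fun m => Matrix.of (σ m), hσM, fun m => ?_, fun m u v => ?_, fun m u v => ?_, fun m u v => ?_,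
    fun j m u => ?_⟩
  · exact Pool.Agent.N282.WB.NC_psd U _ _ (hσM m) (Eventually.of_forall fun n => T_psd hρ (A n) m)
  · have e1 : Tendsto (fun n => ∑ a, TZ ρ (A n) (m + 1) (Fin.snoc u a) (Fin.snoc v a)) U
        (𝓝 (∑ a, σ (m + 1) (Fin.snoc u a) (Fin.snoc v a))) := tendsto_finsetSum _ fun a _ => hσ (m + 1) _ _
    simp_rw [T_right hρ] at e1
    exact tendsto_nhds_unique e1 (hσ m u v)
  · have e1 : Tendsto (fun n => ∑ a, TZ ρ (A n) (m + 1) (Fin.cons a u) (Fin.cons a v)) U
        (𝓝 (∑ a, σ (m + 1) (Fin.cons a u) (Fin.cons a v))) := tendsto_finsetSum _ fun a _ => hσ (m + 1) _ _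
    simp_rw [T_back] at e1
    have e2 : Tendsto (fun n => TZ ρ (sset (A n)) m u v - TZ ρ (A n) m u v) U (𝓝 0) := by
      refine squeeze_zero_norm (a := fun n => 2 * μ.real (symmDiff {x | word n x ∈ A n} E)) (fun n => ?_) ?_
      · rw [← T_front hρ (A n)]
        exact (T_diff hρ hd _ _ m u v).trans (shift_diff hs hE hE' (A n))
      · have := (hAE.mono_left hUle).const_mul 2
        rwa [mul_zero] at this
    have e3 := e1.sub e2
    simp only [sub_sub_cancel, sub_zero] at e3
    exact (tendsto_nhds_unique (hσ m u v) e3).symm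
  · have e1 : ∀ n, TZ ρ (A n) m (fun i => - u i) (fun i => - v i) = TZ ρ (A n) m u v := by
      intro n
      rw [TZ_ite, TZ_ite]
      have h3 : Function.Involutive fun z : Fin n → Fin D => fun i => - z i := by
        intro z
        funext i
        exact neg_neg _
      rw [← Equiv.sum_comp (h3.toPerm _)]
      refine Finset.sum_congr rfl fun z _ => ?_
      have h4 : ∀ u : Fin m → Fin D, Fin.append ((h3.toPerm _) z) (fun i => - u i) =
          fun i => - (Fin.append z u) i := by
        intro u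
        funext i
        refine Fin.addCases (fun i => ?_) (fun i => ?_) i
        · rw [Fin.append_left, Fin.append_left]
          rfl
        · rw [Fin.append_right, Fin.append_right]
      have h5 : (h3.toPerm _) z ∈ A n ↔ z ∈ A n := (hA n z).symm
      simp only [h4, h5, hneg]
    have e2 := hσ m (fun i => - u i) (fun i => - v i)
    simp_rw [e1] at e2
    exact tendsto_nhds_unique e2 (hσ m u v)
  · have e1 : Tendsto (fun n => (TZ ρ (A n) m u u).re) U (𝓝 (σ m u u).re) :=
      (Complex.continuous_re.tendsto _).comp (hσ m u u)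
    have e2 : ∀ n, (TZ ρ (A n) m u u).re = μ.real ({x | word n x ∈ A n} ∩ cylinder (n : ℤ) u) := by
      intro n
      unfold TZ
      rw [Complex.re_sum]
      have h4 : {x : ℤ → Fin D | word n x ∈ A n} ∩ cylinder (n : ℤ) u =
          ⋃ z ∈ A n, ({x | word n x = z} ∩ cylinder (n : ℤ) u) := by
        ext x
        simp only [Set.mem_inter_iff, Set.mem_iUnion, exists_prop, Set.mem_ofPred_eq]
        constructor
        · rintro ⟨h5, h6⟩
          exact ⟨_, h5, rfl, h6⟩
        · rintro ⟨z, h5, h6, h7⟩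
          exact ⟨h6 ▸ h5, h7⟩
      rw [h4, measureReal_biUnion_finset]
      · exact Finset.sum_congr rfl fun z _ => append_mass hd z u
      · intro a _ b _ hab
        refine Set.disjoint_left.2 fun x hx hx' => hab ?_
        exact hx.1.symm.trans hx'.1
      · intro a _
        refine MeasurableSet.inter ?_ (meas_cyl _ _)
        rw [← cyl_word]
        exact meas_cyl _ _
    have e3 : Tendsto (fun n => (TZ ρ (A n) m u u).re) U (𝓝 (μ.real (E ∩ cylinder j u))) := by
      have h5 : Tendsto (fun n => (TZ ρ (A n) m u u).re - μ.real (E ∩ cylinder j u)) U (𝓝 0) := by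
        refine squeeze_zero_norm (a := fun n => μ.real (symmDiff {x | word n x ∈ A n} E)) (fun n => ?_)
          (hAE.mono_left hUle)
        rw [e2, cyl_inv hs hE hE' u j, ← cyl_inv hs hE hE' u (n : ℤ), Real.norm_eq_abs]
        exact inter_diff μ _ _ _
      have h6 := h5.add_const (μ.real (E ∩ cylinder j u))
      simpa using h6
    exact tendsto_nhds_unique e1 e3

end Pool.Agent.H34.WB
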