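import Pool.Agent.H34.WB.Struct

/-! The low entropy part and the zero entropy part of a quantum limit. -/

set_option autoImplicit false

open MeasureTheory Filter Topology Set
open scoped ComplexConjugate Matrix ComplexOrder ENNReal
open Pool.Agent.Results.MP_07c750_an.WalshBakerQuantumLimits

noncomputable section

namespace Pool.Agent.H34.WB

variable {D : ℕ} [NeZero D]

omit [NeZero D] in
lemma meas_lE (μ : Measure (ℤ → Fin D)) : Measurable (localEntropy μ) := (s_meas D μ).2.2.2

lemma part_shf (hlei : S_lei) (μ : Measure (ℤ → Fin D)) [IsFiniteMeasure μ] (h : μ.map shf = μ) {I : Set EReal}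
    (hI : MeasurableSet I) :
    (μ.restrict (localEntropy μ ⁻¹' I)).map shf = μ.restrict (localEntropy μ ⁻¹' I) := by
  have hE : MeasurableSet (localEntropy μ ⁻¹' I) := meas_lE μ hI
  refine Measure.ext fun S hS => ?_
  rw [Measure.map_apply meas_shf hS, Measure.restrict_apply (meas_shf hS), Measure.restrict_apply hS]
  have h1 : μ (shf ⁻¹' S ∩ localEntropy μ ⁻¹' I) = μ (shf ⁻¹' (S ∩ localEntropy μ ⁻¹' I)) := by
    refine measure_congr ?_
    filter_upwards [(hlei D μ inferInstance).1 h] with x hx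
    have : (x ∈ shf ⁻¹' S ∩ localEntropy μ ⁻¹' I) = (x ∈ shf ⁻¹' (S ∩ localEntropy μ ⁻¹' I)) := by
      show (shf x ∈ S ∧ localEntropy μ x ∈ I) = (shf x ∈ S ∧ localEntropy μ (shf x) ∈ I)
      rw [hx]
    exact this
  rw [h1, ← Measure.map_apply meas_shf (hS.inter hE), h]

lemma part_ngv (hlei : S_lei) (μ : Measure (ℤ → Fin D)) [IsFiniteMeasure μ] (h : μ.map ngv = μ) {I : Set EReal}
    (hI : MeasurableSet I) :
    (μ.restrict (localEntropy μ ⁻¹' I)).map ngv = μ.restrict (localEntropy μ ⁻¹' I) := by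
  have hE : MeasurableSet (localEntropy μ ⁻¹' I) := meas_lE μ hI
  refine Measure.ext fun S hS => ?_
  rw [Measure.map_apply meas_ngv hS, Measure.restrict_apply (meas_ngv hS), Measure.restrict_apply hS]
  have h1 : ngv ⁻¹' S ∩ localEntropy μ ⁻¹' I = ngv ⁻¹' (S ∩ localEntropy μ ⁻¹' I) := by
    ext x
    show (ngv x ∈ S ∧ localEntropy μ x ∈ I) ↔ (ngv x ∈ S ∧ localEntropy μ (ngv x) ∈ I)
    rw [(hlei D μ inferInstance).2 h x]
  rw [h1, ← Measure.map_apply meas_ngv (hS.inter hE), h]

omit [NeZero D] in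
/-- a part of `μ` on which the local entropy is that of the part -/
lemma part_null (κ μ : Measure (ℤ → Fin D)) [IsFiniteMeasure μ] (hle : κ ≤ μ) {I : Set EReal}
    (h : ∀ᵐ x ∂κ, localEntropy κ x ∉ I) : κ (localEntropy μ ⁻¹' I) = 0 := by
  have h1 := s_res D κ μ inferInstance hle
  have h2 : ∀ᵐ x ∂κ, x ∉ localEntropy μ ⁻¹' I := by
    filter_upwards [h, h1] with x hx hx'
    show localEntropy μ x ∉ I
    rw [← hx']
    exact hx
  rw [ae_iff] at h2
  simp only [not_not] at h2
  exact h2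

omit [NeZero D] in
lemma part_all (κ μ : Measure (ℤ → Fin D)) [IsFiniteMeasure μ] (hle : κ ≤ μ) {I : Set EReal}
    (h : ∀ᵐ x ∂κ, localEntropy κ x ∈ I) : κ.restrict (localEntropy μ ⁻¹' I) = κ := by
  have h1 := s_res D κ μ inferInstance hle
  refine Measure.restrict_eq_self_of_ae_mem ?_
  filter_upwards [h, h1] with x hx hx'
  show localEntropy μ x ∈ I
  rw [← hx']
  exact hx

omit [NeZero D] in
lemma half_bound (hD : 2 ≤ D) (μ : Measure (ℤ → Fin D)) [IsProbabilityMeasure μ] (hU : Unc μ) :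
    μ {x | localEntropy μ x < ((Real.log D / 2 : ℝ) : EReal)} ≤ 1 / 2 := by
  set L := Real.log D with hL
  let G : ℕ → Set (ℤ → Fin D) := fun k => {x | localEntropy μ x < ((L / 2 - 1 / ((k : ℝ) + 1) : ℝ) : EReal)}
  have hG : Monotone G := by
    intro a b hab x hx
    simp only [G, Set.mem_ofPred_eq] at hx ⊢
    refine lt_of_lt_of_le hx ?_
    rw [EReal.coe_le_coe_iff]
    have : (1 : ℝ) / ((b : ℝ) + 1) ≤ 1 / ((a : ℝ) + 1) := by
      refine div_le_div_of_nonneg_left (by norm_num) (by positivity) ?_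
      have : (a : ℝ) ≤ b := by exact_mod_cast hab
      linarith
    linarith
  have hU' : {x | localEntropy μ x < ((L / 2 : ℝ) : EReal)} = ⋃ k, G k := by
    ext x
    simp only [Set.mem_iUnion, Set.mem_ofPred_eq, G]
    constructor
    · intro h
      obtain ⟨c, hc1, hc2⟩ := EReal.lt_iff_exists_real_btwn.1 h
      rw [EReal.coe_lt_coe_iff] at hc2
      obtain ⟨k, hk⟩ := exists_nat_one_div_lt (sub_pos.2 hc2)
      refine ⟨k, lt_of_lt_of_le hc1 ?_⟩
      rw [EReal.coe_le_coe_iff]
      linarith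
    · rintro ⟨k, hk⟩
      refine lt_of_lt_of_le hk ?_
      rw [EReal.coe_le_coe_iff]
      have : (0 : ℝ) ≤ 1 / ((k : ℝ) + 1) := by positivity
      linarith
  rw [hU']
  have h1 : ∀ k, μ (G k) ≤ 1 / 2 := by
    intro k
    have h2 := pair_bound hD μ hU (L / 2 - 1 / ((k : ℝ) + 1)) (L / 2 - 1 / ((k : ℝ) + 1)) (by
      have : (0 : ℝ) < 1 / ((k : ℝ) + 1) := by positivity
      linarith)
    have h3 : μ.real (G k) ≤ 1 / 2 := by
      show μ.real {x | localEntropy μ x < ((L / 2 - 1 / ((k : ℝ) + 1) : ℝ) : EReal)} ≤ 1 / 2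
      linarith
    rw [← ofReal_measureReal (μ := μ)]
    refine (ENNReal.ofReal_le_ofReal h3).trans ?_
    rw [ENNReal.ofReal_div_of_pos (by norm_num)]
    simp
  exact le_of_tendsto' (tendsto_measure_iUnion_atTop hG) h1

lemma digits_shf (hcle : S_cle) : (digits D).map shf = digits D := by
  have := Measure.isProbabilityMeasure_map (μ := digits D) (meas_shf (D := D)).aemeasurable
  refine eq_of_cyl hcle _ _ fun m n w => ?_
  rw [map_measureReal_apply meas_shf (meas_cyl m w), shf_cyl, digits_cyl, digits_cyl]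

lemma digits_ngv (hcle : S_cle) : (digits D).map ngv = digits D := by
  have := Measure.isProbabilityMeasure_map (μ := digits D) (meas_ngv (D := D)).aemeasurable
  refine eq_of_cyl hcle _ _ fun m n w => ?_
  rw [map_measureReal_apply meas_ngv (meas_cyl m w), ngv_cyl, digits_cyl, digits_cyl]

/-- the mixture with the uniform measure -/
lemma QL_add (hcle : S_cle) (hD : 2 ≤ D) (κ : Measure (ℤ → Fin D)) (h0 : κ univ ≤ 1 / 2) (h1 : κ.map shf = κ)
    (h2 : κ.map ngv = κ) : IsProbabilityMeasure (κ + (1 - κ univ) • digits D) ∧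
      IsQuantumLimit D (κ + (1 - κ univ) • digits D) := by
  have hk : 2 * κ univ ≤ 1 := by
    calc 2 * κ univ ≤ 2 * (1 / 2) := mul_le_mul_right h0 _
      _ = 1 := by rw [one_div, ENNReal.mul_inv_cancel (by norm_num) (by norm_num)]
  set κ' : Measure (ℤ → Fin D) := (2 : ℝ≥0∞) • κ + (1 - 2 * κ univ) • digits D with hκ'
  have hP : IsProbabilityMeasure κ' := by
    constructor
    rw [hκ', Measure.add_apply, Measure.smul_apply, Measure.smul_apply, measure_univ (μ := digits D), smul_eq_mul,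
      smul_eq_mul, mul_one, add_tsub_cancel_of_le hk]
  have e1 : κ'.map shf = κ' := by
    rw [hκ', Measure.map_add _ _ meas_shf, Measure.map_smul, Measure.map_smul, h1, digits_shf hcle]
  have e2 : κ'.map ngv = κ' := by
    rw [hκ', Measure.map_add _ _ meas_ngv, Measure.map_smul, Measure.map_smul, h2, digits_ngv hcle]
  have h12 : (1 / 2 : ℝ≥0∞) * 2 = 1 := by rw [one_div, ENNReal.inv_mul_cancel (by norm_num) (by norm_num)]
  have e3 : (1 / 2 : ℝ≥0∞) • κ' + (1 / 2 : ℝ≥0∞) • digits D = κ + (1 - κ univ) • digits D := by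
    rw [hκ', smul_add, smul_smul, smul_smul, h12, one_smul, add_assoc, ← add_smul]
    congr 2
    have hf : κ univ ≠ ⊤ := ne_top_of_le_ne_top (by norm_num) h0
    rw [ENNReal.mul_sub (fun _ _ => by norm_num), ← mul_assoc, h12, one_mul, mul_one,
      ENNReal.sub_add_eq_add_sub h0 hf, one_div, ENNReal.inv_two_add_inv_two]
  rw [← e3]
  exact ⟨prob_convex _ _ (by rw [one_div, ENNReal.inv_two_add_inv_two]), QL_half hD e1 e2⟩

end Pool.Agent.H34.WB
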