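import Pool.Agent.H34.WB.Parts

/-! The classification of the low entropy parts, and the structure of the quantum limits with zero entropy part. -/

set_option autoImplicit false

open MeasureTheory Filter Topology Set
open scoped ComplexConjugate Matrix ComplexOrder ENNReal
open Pool.Agent.Results.MP_07c750_an.WalshBakerQuantumLimits

noncomputable section

namespace Pool.Agent.H34.WB

variable {D : ℕ} [NeZero D]

omit [NeZero D] in
lemma smul_mass (c : ℝ≥0∞) (hc : c ≤ 1) (μ : Measure (ℤ → Fin D)) : c • μ ≤ μ := by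
  intro S
  rw [Measure.smul_apply, smul_eq_mul]
  calc c * μ S ≤ 1 * μ S := mul_le_mul_left hc _
    _ = μ S := one_mul _

/-- **The low entropy parts.** -/
theorem low_iff (hcle : S_cle) (hinv : S_inv) (hlei : S_lei) (hD : 2 ≤ D) (κ : Measure (ℤ → Fin D)) :
    (∃ μ : Measure (ℤ → Fin D), IsProbabilityMeasure μ ∧ IsQuantumLimit D μ ∧
      μ.restrict {x | localEntropy μ x < ((Real.log D / 2 : ℝ) : EReal)} = κ) ↔
    κ univ ≤ 1 / 2 ∧ κ.map shf = κ ∧ κ.map ngv = κ ∧
      ∀ᵐ x ∂κ, localEntropy κ x < ((Real.log D / 2 : ℝ) : EReal) := by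
  have hL : 0 < Real.log D := Real.log_pos (by exact_mod_cast (by omega : 1 < D))
  constructor
  · rintro ⟨μ, hP, hQ, rfl⟩
    obtain ⟨ρ, hρ, hd⟩ := QL_state hD hQ
    obtain ⟨i1, i2, -⟩ := hinv D hD μ hP ρ hρ hd
    obtain ⟨u1, -⟩ := s_unc D hD μ hP ρ hρ hd
    refine ⟨?_, part_shf hlei μ i1 (I := Iio ((Real.log D / 2 : ℝ) : EReal)) measurableSet_Iio,
      part_ngv hlei μ i2 (I := Iio ((Real.log D / 2 : ℝ) : EReal)) measurableSet_Iio, ?_⟩
    · rw [Measure.restrict_apply_univ]
      exact half_bound hD μ u1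
    · have h1 := s_res D (μ.restrict {x | localEntropy μ x < ((Real.log D / 2 : ℝ) : EReal)}) μ inferInstance
        Measure.restrict_le_self
      have h2 : ∀ᵐ x ∂(μ.restrict {x | localEntropy μ x < ((Real.log D / 2 : ℝ) : EReal)}),
          x ∈ {x | localEntropy μ x < ((Real.log D / 2 : ℝ) : EReal)} :=
        ae_restrict_mem (meas_lE μ measurableSet_Iio)
      filter_upwards [h1, h2] with x e1 e2
      rw [e1]
      exact e2
  · rintro ⟨h0, h1, h2, h3⟩
    obtain ⟨hP, hQ⟩ := QL_add hcle hD κ h0 h1 h2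
    have hf : κ univ ≠ ⊤ := ne_top_of_le_ne_top (by norm_num) h0
    have hfin : IsFiniteMeasure κ := ⟨lt_top_iff_ne_top.2 hf⟩
    refine ⟨κ + (1 - κ univ) • digits D, hP, hQ, ?_⟩
    set μ := κ + (1 - κ univ) • digits D with hμ
    have e1 : κ ≤ μ := Measure.le_add_right le_rfl
    have e2 : (1 - κ univ) • digits D ≤ μ := Measure.le_add_left le_rfl
    have hc : (1 - κ univ) ≠ 0 := by
      intro h
      rw [tsub_eq_zero_iff_le] at h
      have := h.trans h0
      norm_num at this
    have hc' : (1 - κ univ) ≠ ⊤ := ENNReal.sub_ne_top ENNReal.one_ne_top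
    have e3 := part_all κ μ e1 (I := Iio ((Real.log D / 2 : ℝ) : EReal)) h3
    have e4 := part_null _ μ e2 (I := Iio ((Real.log D / 2 : ℝ) : EReal)) (Eventually.of_forall fun x => by
      rw [lE_digits _ hc hc', Set.mem_Iio, not_lt, EReal.coe_le_coe_iff]
      linarith)
    have e5 : {x | localEntropy μ x < ((Real.log D / 2 : ℝ) : EReal)} =
        localEntropy μ ⁻¹' (Iio ((Real.log D / 2 : ℝ) : EReal)) := rfl
    rw [e5]
    conv_lhs => rw [hμ]
    rw [Measure.restrict_add, e3, Measure.restrict_eq_zero.2 e4, add_zero]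

/-- the data of the structure theorem -/
def IsSplit (D : ℕ) [NeZero D] (μ κ ν : Measure (ℤ → Fin D)) : Prop :=
  κ univ ≤ 1 / 2 ∧ κ.map shf = κ ∧ κ.map ngv = κ ∧ (∀ᵐ x ∂κ, localEntropy κ x = 0) ∧
    IsProbabilityMeasure ν ∧ IsQuantumLimit D ν ∧ (∀ᵐ x ∂ν, 0 < localEntropy ν x) ∧
    μ = κ + κ univ • digits D + (1 - 2 * κ univ) • ν

lemma two_half {a : ℝ≥0∞} (h : a ≤ 1 / 2) : 2 * a ≤ 1 := by
  calc 2 * a ≤ 2 * (1 / 2) := mul_le_mul_right h _
    _ = 1 := by rw [one_div, ENNReal.mul_inv_cancel (by norm_num) (by norm_num)]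

/-- the uniform measure is a quantum limit -/
lemma QL_digits (hcle : S_cle) (hD : 2 ≤ D) : IsQuantumLimit D (digits D) := by
  have h := QL_half hD (digits_shf hcle) (digits_ngv (D := D) hcle)
  rw [← add_smul, one_div, ENNReal.inv_two_add_inv_two, one_smul] at h
  exact h

/-- a splitting gives a quantum limit -/
theorem split_QL (hD : 2 ≤ D) {μ κ ν : Measure (ℤ → Fin D)} (h : IsSplit D μ κ ν) :
    IsQuantumLimit D μ := by
  obtain ⟨h0, h1, h2, h3, h4, h5, h6, rfl⟩ := h
  have hk := two_half h0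
  have hf : κ univ ≠ ⊤ := ne_top_of_le_ne_top (by norm_num) h0
  by_cases hz : κ univ = 0
  · have hκ : κ = 0 := Measure.measure_univ_eq_zero.1 hz
    rw [hz, hκ, zero_smul, mul_zero, tsub_zero, one_smul, zero_add, zero_add]
    exact h5
  · have hP : IsProbabilityMeasure ((κ univ)⁻¹ • κ) := by
      constructor
      rw [Measure.smul_apply, smul_eq_mul, ENNReal.inv_mul_cancel hz hf]
    have q1 := QL_half hD (κ := (κ univ)⁻¹ • κ) (by rw [Measure.map_smul, h1]) (by rw [Measure.map_smul, h2])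
    have hPh := prob_convex (μ := (κ univ)⁻¹ • κ) (ν := digits D) (1 / 2) (1 / 2)
      (by rw [one_div, ENNReal.inv_two_add_inv_two])
    have q2 := QL_convex hD q1 h5 (2 * κ univ) (1 - 2 * κ univ) (add_tsub_cancel_of_le hk)
    have e1 : (2 * κ univ) • ((1 / 2 : ℝ≥0∞) • (κ univ)⁻¹ • κ + (1 / 2 : ℝ≥0∞) • digits D) =
        κ + κ univ • digits D := by
      have h12 : (2 : ℝ≥0∞) * (1 / 2) = 1 := by rw [one_div, ENNReal.mul_inv_cancel (by norm_num) (by norm_num)]
      rw [smul_add, smul_smul, smul_smul, smul_smul]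
      congr 1
      · have : 2 * κ univ * (1 / 2) * (κ univ)⁻¹ = 1 := by
          calc 2 * κ univ * (1 / 2) * (κ univ)⁻¹ = (2 * (1 / 2)) * (κ univ * (κ univ)⁻¹) := by ring
            _ = 1 := by rw [h12, ENNReal.mul_inv_cancel hz hf, one_mul]
        rw [this, one_smul]
      · congr 1
        calc 2 * κ univ * (1 / 2) = (2 * (1 / 2)) * κ univ := by ring
          _ = κ univ := by rw [h12, one_mul]
    rw [e1] at q2
    exact q2

omit [NeZero D] in
lemma zero_set (μ : Measure (ℤ → Fin D)) (h : ∀ S, μ.real S ≤ 1) : {x | localEntropy μ x = 0} = lowPart μ 0 := by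
  rw [le_zero_lem]
  ext x
  exact ⟨fun h1 => le_of_eq h1, fun h1 => le_antisymm h1 (lE_nonneg μ h x)⟩

/-- the measure `κ` of a splitting is the zero entropy part -/
theorem split_part (hD : 2 ≤ D) {μ κ ν : Measure (ℤ → Fin D)} [IsProbabilityMeasure μ] (h : IsSplit D μ κ ν) :
    κ = μ.restrict {x | localEntropy μ x = 0} := by
  have hL : 0 < Real.log D := Real.log_pos (by exact_mod_cast (by omega : 1 < D))
  obtain ⟨h0, h1, h2, h3, h4, h5, h6, hμ⟩ := h
  have hk := two_half h0
  have hf : κ univ ≠ ⊤ := ne_top_of_le_ne_top (by norm_num) h0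
  have e1 : κ ≤ μ := by
    rw [hμ, add_assoc]
    exact Measure.le_add_right le_rfl
  have e2 : κ univ • digits D ≤ μ := by
    rw [hμ]
    exact Measure.le_add_right (Measure.le_add_left le_rfl)
  have e3 : (1 - 2 * κ univ) • ν ≤ μ := by
    rw [hμ]
    exact Measure.le_add_left le_rfl
  have f1 := part_all κ μ e1 (I := {0}) h3
  have f2 : (κ univ • digits D) (localEntropy μ ⁻¹' {0}) = 0 := by
    by_cases hz : κ univ = 0
    · rw [hz, zero_smul]
      rfl
    · refine part_null _ μ e2 (Eventually.of_forall fun x => ?_)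
      rw [lE_digits _ hz hf, Set.mem_singleton_iff, ← EReal.coe_zero, EReal.coe_eq_coe_iff]
      exact hL.ne'
  have f3 : ((1 - 2 * κ univ) • ν) (localEntropy μ ⁻¹' {0}) = 0 := by
    refine part_null _ μ e3 ?_
    have g1 := s_res D _ ν inferInstance (smul_mass (1 - 2 * κ univ) tsub_le_self ν)
    have g2 : ∀ᵐ x ∂((1 - 2 * κ univ) • ν), 0 < localEntropy ν x := Measure.ae_smul_measure h6 _
    filter_upwards [g1, g2] with x hx hx'
    rw [hx]
    exact hx'.ne'
  have f4 : {x | localEntropy μ x = 0} = localEntropy μ ⁻¹' {0} := rfl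
  have g : ∀ Z : Set (ℤ → Fin D), μ.restrict Z =
      κ.restrict Z + (κ univ • digits D).restrict Z + ((1 - 2 * κ univ) • ν).restrict Z := fun Z => by
    rw [← Measure.restrict_add, ← Measure.restrict_add, ← hμ]
  rw [f4, g, f1, Measure.restrict_eq_zero.2 f2, Measure.restrict_eq_zero.2 f3, add_zero, add_zero]

theorem zero_iff (hpsd : S_psd) (hext : S_ext) (hcle : S_cle) (hinv : S_inv) (hlei : S_lei) (happ : S_app)
    (hscar : S_scar) (hD : 2 ≤ D) (μ : Measure (ℤ → Fin D)) [IsProbabilityMeasure μ] :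
    IsQuantumLimit D μ ↔ ∃ κ ν : Measure (ℤ → Fin D), IsSplit D μ κ ν := by
  have hL : 0 < Real.log D := Real.log_pos (by exact_mod_cast (by omega : 1 < D))
  constructor
  · intro hQ
    obtain ⟨ρ, hρ, hd⟩ := QL_state hD hQ
    obtain ⟨i1, i2, -⟩ := hinv D hD μ inferInstance ρ hρ hd
    obtain ⟨hle, μ₂, p2, q2, hμ⟩ := zero_struct hpsd hext hcle hinv hlei happ hscar hD hQ
    set E := lowPart μ 0 with hE
    have hEm : MeasurableSet E := meas_lowPart μ 0
    have hEI : E = localEntropy μ ⁻¹' (Iic ((0 : ℝ) : EReal)) := rfl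
    have hu : (μ.restrict E) univ = μ E := Measure.restrict_apply_univ _
    have k1 : (μ.restrict E) univ ≤ 1 / 2 := by
      rw [hu]
      have h1 : (1 / 2 : ℝ≥0∞) * (2 * μ E) ≤ 1 / 2 * 1 := mul_le_mul_right hle _
      rw [← mul_assoc, one_div, ENNReal.inv_mul_cancel (by norm_num) (by norm_num), one_mul, mul_one] at h1
      rw [one_div]
      exact h1
    have k2 : (μ.restrict E).map shf = μ.restrict E := by
      rw [hEI]
      exact part_shf hlei μ i1 measurableSet_Iic
    have k3 : (μ.restrict E).map ngv = μ.restrict E := by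
      rw [hEI]
      exact part_ngv hlei μ i2 measurableSet_Iic
    have k4 : ∀ᵐ x ∂(μ.restrict E), localEntropy (μ.restrict E) x = 0 := by
      have g1 := s_res D (μ.restrict E) μ inferInstance Measure.restrict_le_self
      have g2 : ∀ᵐ x ∂(μ.restrict E), x ∈ E := ae_restrict_mem hEm
      filter_upwards [g1, g2] with x e1 e2
      rw [e1]
      refine le_antisymm ?_ (lE_nonneg μ (fun S => measureReal_le_one) x)
      have e3 : localEntropy μ x ≤ ((0 : ℝ) : EReal) := e2
      rwa [EReal.coe_zero] at e3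
    by_cases hz : 1 - 2 * μ E = 0
    · refine ⟨μ.restrict E, digits D, k1, k2, k3, k4, inferInstance, QL_digits hcle hD,
        Eventually.of_forall fun x => ?_, ?_⟩
      · have := lE_digits (D := D) 1 one_ne_zero ENNReal.one_ne_top x
        rw [one_smul] at this
        rw [this, ← EReal.coe_zero, EReal.coe_lt_coe_iff]
        exact hL
      · rw [hu, hz, zero_smul, add_zero]
        rw [hz, zero_smul, add_zero] at hμ
        exact hμ
    · refine ⟨μ.restrict E, μ₂, k1, k2, k3, k4, p2, q2, ?_, ?_⟩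
      · have g0 : (1 - 2 * μ E) • μ₂ ≤ μ := by
          conv_rhs => rw [hμ]
          exact Measure.le_add_left le_rfl
        have g1 := s_res D _ μ inferInstance g0
        have g2 := s_res D _ μ₂ inferInstance (smul_mass (1 - 2 * μ E) tsub_le_self μ₂)
        have g3 : ((1 - 2 * μ E) • μ₂) E = 0 := by
          have h1 : μ E = (μ.restrict E) E + (μ E • digits D) E + ((1 - 2 * μ E) • μ₂) E := by
            conv_lhs => rw [hμ]
            rfl
          have h2 : (μ.restrict E) E = μ E := by rw [Measure.restrict_apply hEm, Set.inter_self]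
          rw [h2, add_assoc] at h1
          have h3 : (μ E • digits D) E + ((1 - 2 * μ E) • μ₂) E = 0 := by
            have hne : μ E ≠ ⊤ := measure_ne_top _ _
            have h4 : μ E + 0 = μ E + ((μ E • digits D) E + ((1 - 2 * μ E) • μ₂) E) := by rw [add_zero]; exact h1
            exact ((ENNReal.add_right_inj hne).1 h4).symm
          exact (add_eq_zero.1 h3).2
        have g4 : ∀ᵐ x ∂((1 - 2 * μ E) • μ₂), 0 < localEntropy μ₂ x := by
          have g5 : ∀ᵐ x ∂((1 - 2 * μ E) • μ₂), x ∉ E := by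
            rw [ae_iff]
            simp only [not_not]
            exact g3
          filter_upwards [g1, g2, g5] with x e1 e2 e3
          rw [← e2, e1]
          have e4 : ¬ localEntropy μ x ≤ ((0 : ℝ) : EReal) := e3
          rwa [EReal.coe_zero, not_le] at e4
        rw [ae_iff] at g4 ⊢
        rw [Measure.smul_apply, smul_eq_mul, mul_eq_zero] at g4
        exact g4.resolve_left hz
      · rw [hu]
        exact hμ
  · rintro ⟨κ, ν, h⟩
    exact split_QL hD h

end Pool.Agent.H34.WB
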