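import Pool.Agent.H34.WB.Stm

/-! The coupling of a law with itself. -/

set_option autoImplicit false

open MeasureTheory Filter Topology Set ProbabilityTheory

noncomputable section

namespace Pool.Agent.H34.WB

section

variable (m : Measure ℝ)

/-- the quantile function, with values in `[0, 1]` -/
def qX (u : ℝ) : ℝ := sInf {x | 0 ≤ x ∧ (u ≤ cdf m x ∨ 1 ≤ x)}

/-- the reflected quantile function, with values in `[0, 1]` -/
def qY (u : ℝ) : ℝ := sInf {x | 0 ≤ x ∧ (1 - u < cdf m x ∨ 1 ≤ x)}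

lemma bX (u : ℝ) : BddBelow {x | 0 ≤ x ∧ (u ≤ cdf m x ∨ 1 ≤ x)} := ⟨0, fun _ hx => hx.1⟩
lemma nX (u : ℝ) : {x | 0 ≤ x ∧ (u ≤ cdf m x ∨ 1 ≤ x)}.Nonempty := ⟨1, zero_le_one, Or.inr le_rfl⟩
lemma bY (u : ℝ) : BddBelow {x | 0 ≤ x ∧ (1 - u < cdf m x ∨ 1 ≤ x)} := ⟨0, fun _ hx => hx.1⟩
lemma nY (u : ℝ) : {x | 0 ≤ x ∧ (1 - u < cdf m x ∨ 1 ≤ x)}.Nonempty := ⟨1, zero_le_one, Or.inr le_rfl⟩

lemma qX_nonneg (u : ℝ) : 0 ≤ qX m u := le_csInf (nX m u) fun _ hx => hx.1
lemma qX_le (u : ℝ) : qX m u ≤ 1 := csInf_le (bX m u) ⟨zero_le_one, Or.inr le_rfl⟩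
lemma qY_nonneg (u : ℝ) : 0 ≤ qY m u := le_csInf (nY m u) fun _ hx => hx.1
lemma qY_le (u : ℝ) : qY m u ≤ 1 := csInf_le (bY m u) ⟨zero_le_one, Or.inr le_rfl⟩

lemma qX_mono : Monotone (qX m) := by
  intro u v h
  refine csInf_le_csInf (bX m u) (nX m v) fun x hx => ⟨hx.1, ?_⟩
  rcases hx.2 with h1 | h1
  · exact Or.inl (h.trans h1)
  · exact Or.inr h1

lemma qY_anti : Antitone (qY m) := by
  intro u v h
  refine csInf_le_csInf (bY m v) (nY m u) fun x hx => ⟨hx.1, ?_⟩
  rcases hx.2 with h1 | h1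
  · exact Or.inl (by linarith)
  · exact Or.inr h1

lemma rc {x c : ℝ} (h : ∀ y, x < y → c ≤ cdf m y) : c ≤ cdf m x := by
  have h1 : Tendsto (cdf m) (𝓝[>] x) (𝓝 (cdf m x)) :=
    ((cdf m).right_continuous x).mono_left (nhdsWithin_mono x Ioi_subset_Ici_self)
  exact ge_of_tendsto h1 (eventually_nhdsWithin_of_forall fun y hy => h y hy)

lemma qX_iff {u x : ℝ} (h0 : 0 ≤ x) (h1 : x < 1) : qX m u ≤ x ↔ u ≤ cdf m x := by
  constructor
  · intro h
    refine rc m fun y hy => ?_
    obtain ⟨z, hz, hz'⟩ := exists_lt_of_csInf_lt (nX m u) (lt_of_le_of_lt h (lt_min hy h1))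
    rcases hz.2 with h2 | h2
    · exact h2.trans (monotone_cdf m (hz'.le.trans (min_le_left _ _)))
    · exact absurd h2 (not_le.2 (lt_of_lt_of_le hz' (min_le_right _ _)))
  · intro h
    exact csInf_le (bX m u) ⟨h0, Or.inl h⟩

lemma qY_of {u x : ℝ} (h0 : 0 ≤ x) (h : 1 - u < cdf m x) : qY m u ≤ x := csInf_le (bY m u) ⟨h0, Or.inl h⟩

lemma of_qY {u x : ℝ} (h1 : x < 1) (h : qY m u ≤ x) : 1 - u ≤ cdf m x := by
  refine rc m fun y hy => ?_
  obtain ⟨z, hz, hz'⟩ := exists_lt_of_csInf_lt (nY m u) (lt_of_le_of_lt h (lt_min hy h1))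
  rcases hz.2 with h2 | h2
  · exact h2.le.trans (monotone_cdf m (hz'.le.trans (min_le_left _ _)))
  · exact absurd h2 (not_le.2 (lt_of_lt_of_le hz' (min_le_right _ _)))

/-- the uniform measure on `(0, 1)` -/
def uni : Measure ℝ := volume.restrict (Ioo 0 1)

instance : IsProbabilityMeasure uni := by
  constructor
  unfold uni
  rw [Measure.restrict_apply_univ, Real.volume_Ioo]
  simp

variable [IsProbabilityMeasure m]

lemma out_neg (h : m (Icc 0 1) = 1) {x : ℝ} (hx : x < 0) : m (Iic x) = 0 := by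
  have h1 : m (Icc 0 1)ᶜ = 0 := (prob_compl_eq_zero_iff measurableSet_Icc).2 h
  refine measure_mono_null (fun y hy => ?_) h1
  simp only [Set.mem_compl_iff, Set.mem_Icc, not_and, not_le]
  intro h2
  exact absurd (lt_of_le_of_lt hy hx) (not_lt.2 h2)

lemma out_one (h : m (Icc 0 1) = 1) {x : ℝ} (hx : 1 ≤ x) : m (Iic x) = 1 := by
  refine le_antisymm prob_le_one ?_
  rw [← h]
  exact measure_mono fun y hy => hy.2.trans hx

lemma law_of {f : ℝ → ℝ} (hf : Measurable f) (h : m (Icc 0 1) = 1) (h0 : ∀ u, 0 ≤ f u) (h1 : ∀ u, f u ≤ 1)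
    (h2 : ∀ x, 0 ≤ x → x < 1 → uni {u | f u ≤ x} = m (Iic x)) : uni.map f = m := by
  have hP : IsProbabilityMeasure (uni.map f) := Measure.isProbabilityMeasure_map hf.aemeasurable
  refine Measure.ext_of_Iic _ _ fun x => ?_
  rw [Measure.map_apply hf measurableSet_Iic]
  have e : f ⁻¹' Iic x = {u | f u ≤ x} := rfl
  rw [e]
  rcases lt_or_ge x 0 with hx | hx
  · have : {u | f u ≤ x} = ∅ := by
      ext u
      simp only [Set.mem_ofPred_eq, Set.mem_empty_iff_false, iff_false, not_le]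
      exact lt_of_lt_of_le hx (h0 u)
    rw [this, measure_empty, out_neg m h hx]
  rcases lt_or_ge x 1 with hx' | hx'
  · exact h2 x hx hx'
  · have : {u | f u ≤ x} = univ := by
      ext u
      simp only [Set.mem_ofPred_eq, Set.mem_univ, iff_true]
      exact (h1 u).trans hx'
    rw [this, measure_univ, out_one m h hx']

lemma law_qX (h : m (Icc 0 1) = 1) : uni.map (qX m) = m := by
  refine law_of m (qX_mono m).measurable h (qX_nonneg m) (qX_le m) fun x h0 h1 => ?_
  have e : {u | qX m u ≤ x} = Iic (cdf m x) := by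
    ext u
    exact qX_iff m h0 h1
  rw [e, uni, Measure.restrict_apply measurableSet_Iic]
  have h2 := cdf_nonneg m x
  have h3 := cdf_le_one m x
  rw [← ofReal_measureReal (μ := m), ← cdf_eq_real]
  refine le_antisymm ?_ ?_
  · refine (measure_mono (t := Ioc 0 (cdf m x)) fun u hu => ⟨hu.2.1, hu.1⟩).trans ?_
    rw [Real.volume_Ioc, sub_zero]
  · refine le_trans ?_ (measure_mono (s := Ioo 0 (cdf m x)) fun u hu => ⟨hu.2.le, hu.1, lt_of_lt_of_le hu.2 h3⟩)
    rw [Real.volume_Ioo, sub_zero]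

lemma law_qY (h : m (Icc 0 1) = 1) : uni.map (qY m) = m := by
  refine law_of m (qY_anti m).measurable h (qY_nonneg m) (qY_le m) fun x h0 h1 => ?_
  have hmeas : MeasurableSet {u | qY m u ≤ x} := (qY_anti m).measurable measurableSet_Iic
  rw [uni, Measure.restrict_apply hmeas]
  have h2 := cdf_nonneg m x
  have h3 := cdf_le_one m x
  rw [← ofReal_measureReal (μ := m), ← cdf_eq_real]
  refine le_antisymm ?_ ?_
  · refine (measure_mono (t := Ico (1 - cdf m x) 1) fun u hu => ⟨?_, hu.2.2⟩).trans ?_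
    · have := of_qY m h1 hu.1
      linarith
    · rw [Real.volume_Ico]
      simp
  · refine le_trans ?_ (measure_mono (s := Ioo (1 - cdf m x) 1) fun u hu => ⟨?_, ?_, hu.2⟩)
    · rw [Real.volume_Ioo]
      simp
    · exact qY_of m h0 (by linarith [hu.1])
    · exact lt_of_le_of_lt (by linarith) hu.1

lemma sum_ge (hm : ∀ s : ℝ, m (Iic s) ≤ m (Ici (1 - s))) (u : ℝ) : 1 ≤ qX m u + qY m u := by
  by_contra hlt
  rw [not_le] at hlt
  have hs1 : qX m u < 1 := by linarith [qY_nonneg m u]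
  have h1 : u ≤ cdf m (qX m u) := (qX_iff m (qX_nonneg m u) hs1).1 le_rfl
  obtain ⟨t, ht, ht'⟩ := exists_lt_of_csInf_lt (nY m u) (show qY m u < 1 - qX m u by linarith)
  have h2 : 1 - u < cdf m t := by
    rcases ht.2 with h3 | h3
    · exact h3
    · have := qX_nonneg m u
      linarith
  have h3 : m.real (Iic (qX m u)) ≤ m.real (Ici (1 - qX m u)) :=
    ENNReal.toReal_mono (measure_ne_top _ _) (hm _)
  have h4 : m.real (Ici (1 - qX m u)) = 1 - m.real (Iio (1 - qX m u)) := by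
    rw [← probReal_compl_eq_one_sub measurableSet_Iio, compl_Iio]
  have h5 : m.real (Iic t) ≤ m.real (Iio (1 - qX m u)) :=
    measureReal_mono fun y hy => lt_of_le_of_lt hy ht'
  rw [cdf_eq_real] at h1 h2
  linarith

end

theorem s_quant : S_quant := by
  intro m hm h01 hs
  have hX : Measurable (qX m) := (qX_mono m).measurable
  have hY : Measurable (qY m) := (qY_anti m).measurable
  have hXY : Measurable fun u => (qX m u, qY m u) := hX.prodMk hY
  refine ⟨uni.map fun u => (qX m u, qY m u), Measure.isProbabilityMeasure_map hXY.aemeasurable, ?_, ?_, ?_⟩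
  · rw [Measure.map_map measurable_fst hXY]
    exact law_qX m h01
  · rw [Measure.map_map measurable_snd hXY]
    exact law_qY m h01
  · rw [ae_map_iff hXY.aemeasurable]
    · exact Eventually.of_forall fun u => ⟨qX_nonneg m u, qX_le m u, qY_nonneg m u, qY_le m u, sum_ge m hs u⟩
    · exact (measurableSet_le measurable_const measurable_fst).inter
        ((measurableSet_le measurable_fst measurable_const).inter
        ((measurableSet_le measurable_const measurable_snd).inter
        ((measurableSet_le measurable_snd measurable_const).inter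
        (measurableSet_le measurable_const (measurable_fst.add measurable_snd)))))

end Pool.Agent.H34.WB
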