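import Pool.Agent.H34.WB.Conj
import Pool.Agent.H34.WB.Mix

/-! The splitting of a quantum limit. -/

set_option autoImplicit false

open MeasureTheory Filter Topology Set
open scoped ComplexConjugate Matrix ComplexOrder ENNReal
open Pool.Agent.Results.MP_07c750_an.WalshBakerQuantumLimits

noncomputable section

namespace Pool.Agent.H34.WB

variable {D : ℕ} [NeZero D]

/-- families of reduced matrices, not normalized -/
structure Fam (D : ℕ) (τ : (n : ℕ) → Matrix (Fin n → Fin D) (Fin n → Fin D) ℂ) (c : ℝ) : Prop where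
  psd : ∀ n, (τ n).PosSemidef
  mass : ∀ u v, τ 0 u v = (c : ℂ)
  right : ∀ n (u v : Fin n → Fin D), ∑ a, τ (n + 1) (Fin.snoc u a) (Fin.snoc v a) = τ n u v
  left : ∀ n (u v : Fin n → Fin D), ∑ a, τ (n + 1) (Fin.cons a u) (Fin.cons a v) = τ n u v
  inv : ∀ n, (fourierPow D n)ᴴ * τ n * fourierPow D n = τ n

omit [NeZero D] in
lemma Fam.nonneg {τ : (n : ℕ) → Matrix (Fin n → Fin D) (Fin n → Fin D) ℂ} {c : ℝ} (h : Fam D τ c) (n : ℕ)
    (u : Fin n → Fin D) : 0 ≤ (τ n u u).re := by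
  have := (h.psd n).diag_nonneg (i := u)
  exact (Complex.le_def.1 this).1

omit [NeZero D] in
lemma Fam.mass_nonneg {τ : (n : ℕ) → Matrix (Fin n → Fin D) (Fin n → Fin D) ℂ} {c : ℝ} (h : Fam D τ c) : 0 ≤ c := by
  have h1 := h.nonneg 0 (fun i => i.elim0)
  rw [h.mass, Complex.ofReal_re] at h1
  exact h1

omit [NeZero D] in
lemma Fam.trace {τ : (n : ℕ) → Matrix (Fin n → Fin D) (Fin n → Fin D) ℂ} {c : ℝ} (h : Fam D τ c) (n : ℕ) :
    ∑ u, (τ n u u).re = c := by
  induction n with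
  | zero => rw [Fintype.sum_unique, h.mass, Complex.ofReal_re]
  | succ n ih =>
    rw [Pool.Agent.N282.WB.MX_sum_snoc, ← ih]
    refine Finset.sum_congr rfl fun u _ => ?_
    rw [← h.right n u u, Complex.re_sum]

omit [NeZero D] in
lemma Fam.zero {τ : (n : ℕ) → Matrix (Fin n → Fin D) (Fin n → Fin D) ℂ} (h : Fam D τ 0) (n : ℕ)
    (u : Fin n → Fin D) : (τ n u u).re = 0 := by
  have h1 := h.trace n
  rw [Finset.sum_eq_zero_iff_of_nonneg fun u _ => h.nonneg n u] at h1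
  exact h1 u (Finset.mem_univ _)

omit [NeZero D] in
lemma Fam.state {τ : (n : ℕ) → Matrix (Fin n → Fin D) (Fin n → Fin D) ℂ} {c : ℝ} (h : Fam D τ c) (hc : 0 < c) :
    IsInvariantState D (fun n => ((c⁻¹ : ℝ) : ℂ) • τ n) := by
  refine ⟨fun n => ?_, fun u v => ?_, fun n u v => ?_, fun n u v => ?_, fun n => ?_⟩
  · exact (h.psd n).smul (Complex.zero_le_real.2 (inv_pos.2 hc).le)
  · simp only [Matrix.smul_apply, smul_eq_mul]
    rw [h.mass, ← Complex.ofReal_mul, inv_mul_cancel₀ hc.ne', Complex.ofReal_one]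
  · simp only [Matrix.smul_apply, smul_eq_mul]
    rw [← Finset.mul_sum, h.right]
  · simp only [Matrix.smul_apply, smul_eq_mul]
    rw [← Finset.mul_sum, h.left]
  · rw [Matrix.mul_smul, Matrix.smul_mul, h.inv]

lemma state_measure (hext : S_ext) {ρ : (n : ℕ) → Matrix (Fin n → Fin D) (Fin n → Fin D) ℂ}
    (h : IsInvariantState D ρ) : ∃ μ : Measure (ℤ → Fin D), IsProbabilityMeasure μ ∧ IsDiagonal μ ρ := by
  obtain ⟨μ, h1, h2⟩ := hext D (fun n w => (ρ n w w).re)
    (fun n w => (Complex.le_def.1 ((h.posSemidef n).diag_nonneg (i := w))).1)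
    (fun w => by rw [h.normalized, Complex.one_re])
    (fun n w => by rw [← h.right n w w, Complex.re_sum])
    (fun n w => by rw [← h.left n w w, Complex.re_sum])
  exact ⟨μ, h1, fun m n w => h2 m n w⟩

/-- a family of positive mass is the multiple of a quantum limit -/
lemma Fam.QL (hext : S_ext) (hD : 2 ≤ D) {τ : (n : ℕ) → Matrix (Fin n → Fin D) (Fin n → Fin D) ℂ} {c : ℝ}
    (h : Fam D τ c) (hc : 0 < c) : ∃ μ : Measure (ℤ → Fin D), IsProbabilityMeasure μ ∧ IsQuantumLimit D μ ∧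
      ∀ (m : ℤ) (n : ℕ) (w : Fin n → Fin D), c * μ.real (cylinder m w) = (τ n w w).re := by
  obtain ⟨μ, h1, h2⟩ := state_measure hext (h.state hc)
  refine ⟨μ, h1, state_QL hD (h.state hc) h2, fun m n w => ?_⟩
  rw [h2 m n w]
  simp only [Matrix.smul_apply, smul_eq_mul, Complex.re_ofReal_mul]
  rw [← mul_assoc, mul_inv_cancel₀ hc.ne', one_mul]

omit [NeZero D] in
lemma G_zero (u v : Fin 0 → Fin D) : fourierPow D 0 u v = 1 := by
  unfold fourierPow
  simp

omit [NeZero D] in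
lemma CJ_zero (σ : (n : ℕ) → Matrix (Fin n → Fin D) (Fin n → Fin D) ℂ) (u v : Fin 0 → Fin D) :
    CJ σ 0 u v = σ 0 u v := by
  rw [CJ_apply, Fintype.sum_unique, Fintype.sum_unique, G_zero, G_zero, star_one, one_mul, mul_one]
  congr 1 <;> exact Subsingleton.elim _ _

/-- **Splitting.** -/
theorem split (hpsd : S_psd) (hD : 2 ≤ D) {μ : Measure (ℤ → Fin D)} [IsProbabilityMeasure μ] (hs : μ.map shf = μ)
    {ρ : (n : ℕ) → Matrix (Fin n → Fin D) (Fin n → Fin D) ℂ} (hρ : IsInvariantState D ρ) (hd : IsDiagonal μ ρ)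
    {E : Set (ℤ → Fin D)} (hE : MeasurableSet E) (hE' : μ.real (symmDiff (shf ⁻¹' E) E) = 0)
    {A : (n : ℕ) → Finset (Fin n → Fin D)} (hA : ∀ n w, w ∈ A n ↔ (fun i => - w i) ∈ A n)
    (hcard : Tendsto (fun n => ((A n).card : ℝ) ^ 2 / (D : ℝ) ^ n) atTop (𝓝 0))
    (hAE : Tendsto (fun n => μ.real (symmDiff {x | word n x ∈ A n} E)) atTop (𝓝 0)) :
    ∃ α β : (n : ℕ) → Matrix (Fin n → Fin D) (Fin n → Fin D) ℂ,
      Fam D α (2 * μ.real E) ∧ Fam D β (1 - 2 * μ.real E) ∧ (∀ n, ρ n = α n + β n) ∧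
      ∀ (j : ℤ) (n : ℕ) (u : Fin n → Fin D), μ.real (E ∩ cylinder j u) ≤ (α n u u).re := by
  obtain ⟨σ, h1, h2, h3, h4, h5, h6⟩ := s_lim D hD μ inferInstance hs ρ hρ hd (state_neg hρ) E hE hE' A hA hAE
  set U : Filter ℕ := (hyperfilter ℕ : Filter ℕ) with hU
  have hUle : U ≤ atTop := Nat.hyperfilter_le_atTop
  have hβ : ∀ m, (ρ m - σ m - CJ σ m).PosSemidef := by
    intro m
    have e1 : Tendsto (fun n => ((1 + Real.sqrt (((A n).card : ℝ) ^ 2 / (D : ℝ) ^ n) : ℝ) : ℂ)) U (𝓝 1) := by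
      have e2 : Tendsto (fun n => 1 + Real.sqrt (((A n).card : ℝ) ^ 2 / (D : ℝ) ^ n)) U (𝓝 (1 + Real.sqrt 0)) :=
        ((Real.continuous_sqrt.tendsto _).comp (hcard.mono_left hUle)).const_add 1
      rw [Real.sqrt_zero, add_zero] at e2
      have e3 := (Complex.continuous_ofReal.tendsto 1).comp e2
      rw [Complex.ofReal_one] at e3
      exact e3
    have hc : Continuous fun S : Matrix (Fin m → Fin D) (Fin m → Fin D) ℂ =>
        (fourierPow D m)ᴴ * S * fourierPow D m := by fun_prop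
    have e4 : Tendsto (fun n => ((1 + Real.sqrt (((A n).card : ℝ) ^ 2 / (D : ℝ) ^ n) : ℝ) : ℂ) • ρ m -
        TZ ρ (A n) m - (fourierPow D m)ᴴ * TZ ρ (A n) m * fourierPow D m) U
        (𝓝 ((1 : ℂ) • ρ m - σ m - CJ σ m)) :=
      ((e1.smul_const (ρ m)).sub (h1 m)).sub ((hc.tendsto _).comp (h1 m))
    rw [one_smul] at e4
    exact Pool.Agent.N282.WB.NC_psd U _ _ e4 (Eventually.of_forall fun n => hpsd D hD ρ hρ n m (A n))
  have hσ0 : ∀ u v, σ 0 u v = ((μ.real E : ℝ) : ℂ) := by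
    intro u v
    have e1 : u = v := Subsingleton.elim _ _
    subst e1
    have e2 := h6 0 0 u
    have e3 : E ∩ cylinder (0 : ℤ) u = E := by
      ext x
      simp only [Set.mem_inter_iff, and_iff_left_iff_imp]
      intro _ i
      exact i.elim0
    rw [e3] at e2
    rw [← e2]
    have e4 := (Complex.le_def.1 ((h2 0).diag_nonneg (i := u))).2
    apply Complex.ext
    · rw [Complex.ofReal_re]
    · rw [Complex.ofReal_im]
      exact e4.symm
  have hsum : ∀ n, CJ σ n = (fourierPow D n)ᴴ * σ n * fourierPow D n := fun n => rfl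
  refine ⟨fun n => σ n + CJ σ n, fun n => ρ n - σ n - CJ σ n, ⟨fun n => ?_, fun u v => ?_, fun n u v => ?_,
    fun n u v => ?_, fun n => ?_⟩, ⟨fun n => ?_, fun u v => ?_, fun n u v => ?_, fun n u v => ?_, fun n => ?_⟩,
    fun n => ?_, fun j n u => ?_⟩
  · exact (h2 n).add (CJ_psd n (h2 n))
  · simp only [Matrix.add_apply]
    rw [CJ_zero, hσ0]
    push_cast
    ring
  · simp only [Matrix.add_apply]
    rw [Finset.sum_add_distrib, h3, CJ_right h3]
  · simp only [Matrix.add_apply]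
    rw [Finset.sum_add_distrib, h4, CJ_left h4]
  · rw [Matrix.mul_add, Matrix.add_mul, CJ_CJ h5, ← hsum, add_comm]
  · exact hβ n
  · simp only [Matrix.sub_apply]
    rw [CJ_zero, hσ0, hρ.normalized]
    push_cast
    ring
  · simp only [Matrix.sub_apply]
    rw [Finset.sum_sub_distrib, Finset.sum_sub_distrib, h3, CJ_right h3, hρ.right]
  · simp only [Matrix.sub_apply]
    rw [Finset.sum_sub_distrib, Finset.sum_sub_distrib, h4, CJ_left h4, hρ.left]
  · rw [Matrix.mul_sub, Matrix.mul_sub, Matrix.sub_mul, Matrix.sub_mul, CJ_CJ h5, ← hsum, hρ.fourier]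
    abel
  · show ρ n = (σ n + CJ σ n) + (ρ n - σ n - CJ σ n)
    abel
  · show μ.real (E ∩ cylinder j u) ≤ ((σ n + CJ σ n) u u).re
    rw [← h6 j n u, Matrix.add_apply, Complex.add_re]
    have := (Complex.le_def.1 ((CJ_psd n (h2 n)).diag_nonneg (i := u))).1
    rw [Complex.zero_re] at this
    linarith

end Pool.Agent.H34.WB
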