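import Pool.Agent.H34.WB.Defs

/-!
# Project WB: statements of the modules

Every module proves `theorem s_xxx : S_xxx` in the file `Pool/Agent/H34/WB/Xxx.lean`, importing this file only
(and Mathlib / library modules).
-/

set_option autoImplicit false

open MeasureTheory Filter Topology Set
open Pool.Agent.Results.MP_07c750_an.WalshBakerQuantumLimits

noncomputable section

namespace Pool.Agent.H34.WB

/-- `S_unc` (helper34). `μ[w] = ⟨e_w, ρ_n e_w⟩ = ⟨F e_w, ρ_n F e_w⟩`, and `|⟨e_v, F e_w⟩|² = D ^ (-n)`. -/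
def S_unc : Prop :=
  ∀ (D : ℕ), 2 ≤ D → ∀ μ : Measure (ℤ → Fin D), IsProbabilityMeasure μ →
    ∀ ρ : (n : ℕ) → Matrix (Fin n → Fin D) (Fin n → Fin D) ℂ, IsInvariantState D ρ → IsDiagonal μ ρ →
    Unc μ ∧ Inv μ

/-- `S_law` (helper34). -/
def S_law : Prop :=
  ∀ (D : ℕ), 2 ≤ D → ∀ μ : Measure (ℤ → Fin D), IsProbabilityMeasure μ → Unc μ → ∀ s : ℝ,
    μ {x | localEntropy μ x ≤ (s : EReal)} ≤ μ {x | ((Real.log D - s : ℝ) : EReal) ≤ localEntropy μ x}

/-- `S_range`. The local entropy of ANY probability measure is almost everywhere between `0` and `log D`.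
Proof. `≥ 0`: `info μ n x ≥ 0` since `μ.real _ ≤ 1` (`Real.log` of a number in `[0, 1]` is `≤ 0`).
`≤ log D`: for `ε > 0` the set `B n` of the `x` with `μ[x 0 … x (n-1)] < D ^ (-n) exp (- ε n)` is a union of at most
`D ^ n` cylinders of mass at most `D ^ (-n) exp (- ε n)`, so `μ (B n) ≤ exp (- ε n)`, which is summable; by
Borel–Cantelli (`measure_limsup_atTop_eq_zero`) almost every `x` is in finitely many `B n`, and outside of `B n`
(`n ≥ 1`) `info μ n x ≤ log D + ε`. -/
def S_range : Prop :=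
  ∀ (D : ℕ), 2 ≤ D → ∀ μ : Measure (ℤ → Fin D), IsProbabilityMeasure μ →
    ∀ᵐ x ∂μ, 0 ≤ localEntropy μ x ∧ localEntropy μ x ≤ ((Real.log D : ℝ) : EReal)

/-- `S_meas`. Measurability. (`word n x` has values in a finite discrete space and is measurable; `cylinder 0 w` is
measurable; `Measurable.limsup`.) -/
def S_meas : Prop :=
  ∀ (D : ℕ) (μ : Measure (ℤ → Fin D)),
    (∀ n : ℕ, Measurable fun x : ℤ → Fin D => word n x) ∧
    (∀ (m : ℤ) (n : ℕ) (w : Fin n → Fin D), MeasurableSet (cylinder m w)) ∧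
    (∀ n : ℕ, Measurable (info μ n)) ∧ Measurable (localEntropy μ)

/-- `S_scar`. Zero entropy part and uniform part.
Proof. Let `t = μ {localEntropy ≤ 0}`, `p = D ^ (-l)`, `δ > 0` (WLOG `δ < p`, and `l ≥ 1`; the case `l = 0` is trivial).
Let `z < 1` be close to `1` such that `β := (1 - p + p z) z ^ (- (p - δ)) < 1` (the derivative of the logarithm at
`z = 1` is `p - (p - δ) = δ > 0`). For `N ≥ 1`, `n = l N`, let `B` be the set of the words `w` of length `n` for which
at most `(p - δ) N` of the `N` disjoint subwords `w (l j), …, w (l j + l - 1)`, `j < N`, are equal to `c`. By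
`∑_w z ^ (number) = (D ^ l - 1 + z) ^ N = D ^ n (1 - p + p z) ^ N` one gets `#B ≤ D ^ n β ^ N`. Choose `ε > 0` with
`exp (ε l) β < 1`, and let `A` be the set of the words of length `n` with `μ[w] ≥ exp (- ε n)`; `#A ≤ exp (ε n)`.
Almost every `x` with `localEntropy μ x ≤ 0` has `word n x ∈ A` for all large `n` (careful: `Real.log 0 = 0`, but the
set of the `x` with `μ[x 0 … x (n-1)] = 0` has measure `0`), so `∑_A μ[w] ≥ t - η` for large `N` (Fatou). By `Unc`,
`∑_A + ∑_B ≤ 1 + √(#A #B / D ^ n) ≤ 1 + η` for large `N`. So `∑_{w ∉ B} μ[w] ≥ t - 2 η`. The mean number of `j < N`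
with `w (l j), … = c` is `N μ.real (cylinder 0 c)` by `Inv`, and it is at least `(p - δ) N (t - 2 η)`. Let
`η, δ → 0`. -/
def S_scar : Prop :=
  ∀ (D : ℕ), 2 ≤ D → ∀ μ : Measure (ℤ → Fin D), IsProbabilityMeasure μ → Unc μ → Inv μ →
    ∀ (m : ℤ) (l : ℕ) (c : Fin l → Fin D),
      μ.real {x | localEntropy μ x ≤ 0} * (1 / (D : ℝ) ^ l) ≤ μ.real (cylinder m c)

/-- `S_state`. The law of the masked digits is the diagonal of an invariant state.
Proof. Let `τ 0 = |0⟩⟨0|`, `τ 1 = |f⟩⟨f|` with `f = F e_0 = D ^ (-1/2) (1, …, 1)`, `τ 2 = D⁻¹ • 1`, and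
`q n t = P.real {ω | ∀ i < n, T ω i = t i}` for `t : Fin n → Fin 3`. Put
`ρ n u v = ∑_t q n t * ∏_i τ (t i) (u i) (v i)`. `τ a` is positive semidefinite with trace `1`,
`Fᴴ * τ a * F = τ (sw a)` for `F = fourier D`. `q (n+1) (snoc t a)` sums over `a` to `q n t`, and
`q (n+1) (cons a t)` sums to `P {ω | ∀ i < n, T ω (i + 1) = t i} = q n t` (shift), `q n (sw ∘ t) = q n t` (swap; note
that `sw` is an involution). The diagonal of `τ 0` is the point mass at `0`, the diagonals of `τ 1` and `τ 2` are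
uniform; so `(ρ n w w).re = ∑_t q n t ∏_i (if t i = 0 then (if w i = 0 then 1 else 0) else 1 / D)`, which is
`(maskLaw D P T).real (cylinder 0 w)`: fix `ω`, the probability of `∀ i < n, mask T (ω, y) i = w i` is the product
(`Measure.infinitePi` of a box), and integrate over `ω` (a function of the `t i = T ω i`). For `cylinder m w` use
that the law of `T` is invariant under `T ω i ↦ T ω (i + m)`. -/
def S_state : Prop :=
  ∀ (D : ℕ) [NeZero D], 2 ≤ D → ∀ (Ω : Type) [MeasurableSpace Ω] (P : Measure Ω) [IsProbabilityMeasure P]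
    (T : Ω → ℤ → Fin 3), Types P T →
    IsProbabilityMeasure (maskLaw D P T) ∧
    ∃ ρ : (n : ℕ) → Matrix (Fin n → Fin D) (Fin n → Fin D) ℂ, IsInvariantState D ρ ∧ IsDiagonal (maskLaw D P T) ρ

/-- `S_local`. The local entropy of the law of the masked digits, if there are only polynomially many patterns of
places of type `0`.
Proof. Write `μ = maskLaw D P T`, `Z = zeros T n ω`, `w = word n (mask T (ω, y))`, `κ S = P {ω | zeros T n ω = S}`.
(i) `μ[w] = ∑_S κ S 1[w = 0 on S] D ^ (-(n - |S|))` (fix `ω`, box probability, integrate).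
(ii) Upper bound of the information: `μ[w] ≥ κ Z D ^ (-(n - |Z|))`; the `ω` with `κ (zeros T n ω) < δ` have probability
at most `(number of patterns) δ ≤ K (n+1)^K δ`; take `δ = (n+1)^(-K-2)`, Borel–Cantelli. So eventually
`info ≤ (1 - |Z| / n) log D + (K + 2) log (n + 1) / n`.
(iii) Lower bound: for fixed `ω` the word `w` takes each of the `D ^ (n - |Z|)` words with `w = 0 on Z` with
probability `D ^ (-(n - |Z|))`, and `∑_w μ[w] ≤ 1`, so the mean of `μ[w] D ^ (n - |Z|)` is at most `1`; by Markov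
`P (μ[w] D ^ (n - |Z|) ≥ exp (ε n)) ≤ exp (-ε n)`, summable, Borel–Cantelli: eventually
`info ≥ (1 - |Z| / n) log D - ε`. -/
def S_local : Prop :=
  ∀ (D : ℕ) [NeZero D], 2 ≤ D → ∀ (Ω : Type) [MeasurableSpace Ω] (P : Measure Ω) [IsProbabilityMeasure P]
    (T : Ω → ℤ → Fin 3), (∀ i, Measurable fun ω => T ω i) → ∀ a : Ω → ℝ,
    (∀ᵐ ω ∂P, Tendsto (fun n : ℕ => ((zeros T n ω).card : ℝ) / n) atTop (𝓝 (a ω))) →
    (∃ K : ℕ, ∀ n : ℕ, (Set.range (zeros T n)).ncard ≤ K * (n + 1) ^ K) →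
    ∀ᵐ p ∂(P.prod (digits D)),
      Tendsto (fun n : ℕ => info (maskLaw D P T) n (mask T p)) atTop (𝓝 ((1 - a p.1) * Real.log D))

/-- `S_typ`. Proof: `S (b, p, θ) = (b, p, θ + α)`, `R (b, p, θ) = (!b, p, θ)`; `fr` is measurable
(`AddCircle.measurableEquivIco` or `AddCircle.measurable_equivIco`…). -/
def S_typ : Prop :=
  ∀ (α : ℝ) (π : Measure (ℝ × ℝ)), IsProbabilityMeasure π →
    IsProbabilityMeasure (parLaw π) ∧ Types (parLaw π) (typ α)

/-- `S_count`. Proof. Let `t = fr θ`, `u i = fr (i • α)`. `fr (θ + i • α)` is `t + u i` if `u i < 1 - t` and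
`t + u i - 1` otherwise. So for real `r ≤ 1` the set `{i < n | fr (θ + i • α) < r}` is
`({u < 1 - t} ∩ {u < r - t}) ∪ ({u < r + 1 - t} \ {u < 1 - t})` (and it is everything for `r > 1`), and the initial
segments `{i < n | u i < c}`, `c` real, form a chain of subsets of `Fin n`, so that there are at most `n + 1` of them
(they are determined by their cardinality). So there are at most `(n + 1) ^ 3 + 1` sets `{i < n | fr (θ + i • α) < r}`.
`zeros (typ α) n ω` is such a set (coin `false`) or the difference of two of them (coin `true`). -/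
def S_count : Prop :=
  ∀ α : ℝ, ∃ K : ℕ, ∀ n : ℕ, (Set.range (zeros (typ α) n)).ncard ≤ K * (n + 1) ^ K

/-- `S_freq`. Proof. `Pool.Agent.R332.TW.rotation_freq` (module `Pool.Graph.R_seed8.R332.TW.Rot`) bounds the frequency
of the visits of an irrational rotation to a closed arc of length `c₀` by `c > c₀`. Apply it to `[0, r]` and to
`[r, 1]` (complement): the frequency of `fr (θ + i • α) < r` tends to `r` for `0 ≤ r ≤ 1`. For the coin `true` the
places of type `0` are those with `1 - x ≤ fr < 2 - x - y`. -/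
def S_freq : Prop :=
  ∀ α : ℝ, Irrational α → ∀ ω : Par, 0 ≤ ω.2.1.1 → ω.2.1.1 ≤ 1 → 0 ≤ ω.2.1.2 → ω.2.1.2 ≤ 1 →
    1 ≤ ω.2.1.1 + ω.2.1.2 →
    Tendsto (fun n : ℕ => ((zeros (typ α) n ω).card : ℝ) / n) atTop
      (𝓝 (if ω.1 then 1 - ω.2.1.2 else 1 - ω.2.1.1))

/-- `S_quant`. Proof. Let `F` be the distribution function of `m`, `u` uniform on `(0, 1)`, `X u = inf {x | u ≤ F x}`,
`Y u = inf {x | 1 - u < F x}`, `π` the law of `(X, Y)`. `X u ≤ x ↔ u ≤ F x`, and
`1 - u < F x → Y u ≤ x → 1 - u ≤ F x`, so `X` and `Y` have the law `m`. If `X u + Y u < 1`, then `s = X u` has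
`u ≤ F s = m (Iic s) ≤ m (Ici (1 - s)) = 1 - m (Iio (1 - s))`, and there is `t < 1 - s` with `1 - u < F t ≤
m (Iio (1 - s))`, a contradiction. -/
def S_quant : Prop :=
  ∀ m : Measure ℝ, IsProbabilityMeasure m → m (Icc 0 1) = 1 → (∀ s : ℝ, m (Iic s) ≤ m (Ici (1 - s))) →
    ∃ π : Measure (ℝ × ℝ), IsProbabilityMeasure π ∧ π.map Prod.fst = m ∧ π.map Prod.snd = m ∧
      ∀ᵐ p ∂π, 0 ≤ p.1 ∧ p.1 ≤ 1 ∧ 0 ≤ p.2 ∧ p.2 ≤ 1 ∧ 1 ≤ p.1 + p.2

end Pool.Agent.H34.WB
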