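import Pool.Agent.H34.WB.Stm

/-!
# Project WB2: the low entropy part of a quantum limit (statements of the modules)

Goal 1 (hand-in `LowEntropyParts`): a measure `κ` on the phase space is the part of local entropy `< (log D) / 2` of a
quantum limit iff it is invariant under the shift and under `x ↦ - x`, has mass `≤ 1/2` and local entropy `< (log D)/2`.

Goal 2 (hand-in `ZeroEntropyPart`): a probability measure `μ` is a quantum limit iff `μ = κ + t λ + (1 - 2 t) ν` with
`λ` the uniform measure, `κ` a measure of mass `t ≤ 1/2`, invariant under the shift and `x ↦ - x`, of local entropy `0`,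
and `ν` a quantum limit without zero entropy part. (So every quantum limit contains with a zero entropy part of mass `t`
exactly `t` times the uniform measure, and the rest is again a quantum limit.)

Module `S_xxx` is proved as `theorem s_xxx : S_xxx` (or `theorem s_xxx : S_yyy → S_xxx` if the doc string says that it
uses `S_yyy`). `Pool/Agent/H34/WB/Law.lean` has basic lemmas: `meas_cyl`, `meas_word`, `cyl_word`, `real_mem`,
`sum_le_one`, `ae_pos`, `big`, `card_big`, `ae_big`, `pair_bound`; `Unc.lean` has `unc_vec`, `psd_factor`,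
`fourier_norm`, `fpow_unit`, `fpow_norm`; `State.lean` has `ten_mul`, `four_uni`, …
-/

set_option autoImplicit false

open MeasureTheory Filter Topology Set
open scoped ComplexConjugate Matrix ComplexOrder
open Pool.Agent.Results.MP_07c750_an.WalshBakerQuantumLimits

noncomputable section

namespace Pool.Agent.H34.WB

/-- the shift -/
def shf {D : ℕ} (x : ℤ → Fin D) : ℤ → Fin D := fun i => x (i + 1)

/-- the change of the signs of the digits modulo `D` -/
def ngv {D : ℕ} [NeZero D] (x : ℤ → Fin D) : ℤ → Fin D := fun i => - x i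

/-- `S_cle`. A measure which is smaller on all cylinders is smaller.
Proof. The sets `{x | (fun i : Fin n => x (m + i)) ∈ A}` (`m : ℤ`, `n`, `A : Set (Fin n → Fin D)`) form an algebra of
sets generating the product `σ`-algebra (or use `measurableCylinders`). Sum the hypothesis: `μ C ≤ ν C` for `C` in the
algebra. For measurable `S` and `ε > 0` there is `C` in the algebra with `(μ + ν) (S ∆ C) < ε`
(`Measure.MeasureDense.of_generateFrom_isSetAlgebra_finite`), so `μ S ≤ μ C + ε ≤ ν C + ε ≤ ν S + 2 ε`. -/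
def S_cle : Prop :=
  ∀ (D : ℕ) (μ ν : Measure (ℤ → Fin D)), IsFiniteMeasure μ → IsFiniteMeasure ν →
    (∀ (m : ℤ) (n : ℕ) (w : Fin n → Fin D), μ.real (cylinder m w) ≤ ν.real (cylinder m w)) → μ ≤ ν

/-- `S_ext`. Kolmogorov's extension theorem for a finite alphabet.
Proof. For `N : ℕ` let `P N` be the finite sum `∑_{w : Fin (2 N) → Fin D} c (2 N) w • dirac (x_w)`, where
`x_w i = w (i + N)` for `- N ≤ i < N` and `x_w i = 0` otherwise; it is a probability measure, and
`P N (cylinder m w) = c n w` if `- N ≤ m`, `m + n ≤ N`. The space `ProbabilityMeasure (ℤ → Fin D)` is compact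
(`Mathlib.MeasureTheory.Measure.Prokhorov`, instance for compact spaces), so that `P N` has a limit `μ` along the
ultrafilter `hyperfilter ℕ`; cylinders are clopen, so that their masses converge
(`ProbabilityMeasure.tendsto_measure_of_null_frontier_of_tendsto'`). -/
def S_ext : Prop :=
  ∀ (D : ℕ) [NeZero D] (c : (n : ℕ) → (Fin n → Fin D) → ℝ), (∀ n w, 0 ≤ c n w) → (∀ w, c 0 w = 1) →
    (∀ n (w : Fin n → Fin D), ∑ a, c (n + 1) (Fin.snoc w a) = c n w) →
    (∀ n (w : Fin n → Fin D), ∑ a, c (n + 1) (Fin.cons a w) = c n w) →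
    ∃ μ : Measure (ℤ → Fin D), IsProbabilityMeasure μ ∧
      ∀ (m : ℤ) (n : ℕ) (w : Fin n → Fin D), μ.real (cylinder m w) = c n w

/-- `S_res`. The local entropy of a part of a measure is the local entropy of the measure.
Proof. `κ`-almost every `x` has `κ[word n x] > 0` for all `n` (as `ae_pos`, which is for probability measures).
`≥`: `κ[w] ≤ μ[w]`. `≤`: for `ε > 0`, `κ {x | κ[word n x] < exp (- ε n) μ[word n x]} ≤ ∑_w exp (- ε n) μ[w] =
exp (- ε n) μ(1)`, which is summable; Borel–Cantelli: eventually `κ[word n x] ≥ exp (- ε n) μ[word n x]`, so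
`info κ n x ≤ info μ n x + ε`. -/
def S_res : Prop :=
  ∀ (D : ℕ) (κ μ : Measure (ℤ → Fin D)), IsFiniteMeasure μ → κ ≤ μ →
    ∀ᵐ x ∂κ, localEntropy κ x = localEntropy μ x

/-- `S_inv` (uses `S_cle`). Proof. The two measures have the same masses of cylinders: `μ.map shf (cylinder m w) =
μ (cylinder (m + 1) w)`, `μ.map ngv (cylinder m w) = μ (cylinder m (- w))`. For the last claim apply
`IsInvariantState.fourier` twice: `G = fourierPow D n` has `(G * G) u v = if u = - v then 1 else 0`
(`Pool.Agent.N282.WB.DF_sq` in module `Pool.Graph.R_pool_sql_team_seeded_63374d34.N282.WB.Df`; `dft` is by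
definition the same as `fourier`; `ten_mul` in `State.lean`). -/
def S_inv : Prop :=
  ∀ (D : ℕ) [NeZero D], 2 ≤ D → ∀ μ : Measure (ℤ → Fin D), IsProbabilityMeasure μ →
    ∀ ρ : (n : ℕ) → Matrix (Fin n → Fin D) (Fin n → Fin D) ℂ, IsInvariantState D ρ → IsDiagonal μ ρ →
      μ.map shf = μ ∧ μ.map ngv = μ ∧
      ∀ (n : ℕ) (u v : Fin n → Fin D), ρ n (fun i => - u i) (fun i => - v i) = ρ n u v

/-- `S_lei`. Proof. First part: for `x` with `μ[word n x] > 0` for all `n` (almost all), `cylinder 0 (word (n+1) x) ⊆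
shf ⁻¹' (cylinder 0 (word n (shf x)))`, so `μ[word n (shf x)] ≥ μ[word (n+1) x]` and
`info μ n (shf x) ≤ (n+1)/n * info μ (n+1) x`, hence `localEntropy μ (shf x) ≤ localEntropy μ x` (if
`localEntropy μ x < c`, `c` real, then `localEntropy μ (shf x) ≤ c`). For `f = localEntropy μ` and rational `c`,
`{f < c} ⊆ {f ∘ shf < c}` up to a null set, and both have the same measure, so that
`{f ∘ shf < f} ⊆ ⋃ c, {f ∘ shf < c} \ {f < c}` is a null set. Second part: `μ[- w] = μ[w]`. -/
def S_lei : Prop :=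
  ∀ (D : ℕ) [NeZero D] (μ : Measure (ℤ → Fin D)), IsFiniteMeasure μ →
    (μ.map shf = μ → ∀ᵐ x ∂μ, localEntropy μ (shf x) = localEntropy μ x) ∧
    (μ.map ngv = μ → ∀ x, localEntropy μ (ngv x) = localEntropy μ x)

/-- `S_app`. Approximation of the low entropy part by sets of words.
Proof. Let `E = {localEntropy μ ≤ s}`, `c = (max s 0 + (log D) / 2) / 2`, and let `A n` be a set `A` which minimizes
`μ ({word n ∈ A} ∆ E)` among the (finitely many) symmetric sets `A` of words of length `n` with `#A ≤ exp (c n)`. Then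
`#A² / D ^ n ≤ exp ((2 c - log D) n)`. For `k, N, n` let `A k N n` be the set of the words `w` of length `n` with
`μ[w 0 … w (j-1)] ≥ exp (- (s + 1/(k+1)) j)` for all `N ≤ j ≤ n`: it is symmetric, and `#A k N n ≤ exp (c n)` for
`s + 1/(k+1) ≤ c`, `n ≥ N`. For `n → ∞` the sets `{word n ∈ A k N n}` decrease to `E k N = {∀ j ≥ N, μ[word j x] ≥ …}`,
for `N → ∞` these increase to `E k`, and for `k → ∞` the sets `E k` decrease to `E` up to a null set (for `x` with all
`μ[word j x] > 0`: `limsup info ≤ s` iff for all `k` eventually `info ≤ s + 1/(k+1)`). -/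
def S_app : Prop :=
  ∀ (D : ℕ) [NeZero D], 2 ≤ D → ∀ μ : Measure (ℤ → Fin D), IsProbabilityMeasure μ → μ.map ngv = μ →
    ∀ s : ℝ, s < Real.log D / 2 →
    ∃ A : (n : ℕ) → Finset (Fin n → Fin D), (∀ n w, w ∈ A n ↔ (fun i => - w i) ∈ A n) ∧
      Tendsto (fun n => ((A n).card : ℝ) ^ 2 / (D : ℝ) ^ n) atTop (𝓝 0) ∧
      Tendsto (fun n => μ.real (symmDiff {x | word n x ∈ A n} {x | localEntropy μ x ≤ (s : EReal)})) atTop (𝓝 0)

/-- the reduced state of the last `m` of `n + m` sites, if the first `n` sites show a word in `A` -/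
def TZ {D n : ℕ} (ρ : (n : ℕ) → Matrix (Fin n → Fin D) (Fin n → Fin D) ℂ) (A : Finset (Fin n → Fin D)) (m : ℕ) :
    Matrix (Fin m → Fin D) (Fin m → Fin D) ℂ :=
  fun u v => ∑ z ∈ A, ρ (n + m) (Fin.append z u) (Fin.append z v)

/-- `S_psd`. Almost orthogonality of a small set of words and its Fourier transform, as an operator inequality.
Proof. Write `G m = fourierPow D m`, `ρ (n + m) = Mᴴ * M` (`psd_factor`), `ε = (#A)² / D ^ n`. Hermitian: clear. For
`c : (Fin m → Fin D) → ℂ` let `y z : vector = M *ᵥ (z ⊗ c)`, that is `y z k = ∑_v M k (append z v) * c v`. Then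
(1) `c* (ρ m) c = ∑_z ‖y z‖²` (sum over all words `z` of length `n`; this is
`ρ m u v = ∑_z ρ (n + m) (append z u) (append z v)`, the property `left` applied `n` times);
(2) `c* (TZ ρ A m) c = ∑_{z ∈ A} ‖y z‖²`;
(3) `c* ((G m)ᴴ * TZ ρ A m * G m) c = ∑_{z ∈ A} (z ⊗ (G m c))* ρ (n + m) (z ⊗ (G m c))`, and
`ρ (n + m) = G (n+m) * ρ (n+m) * (G (n+m))ᴴ`, `(G (n+m))ᴴ (z ⊗ G m c) = ((G n)ᴴ e_z) ⊗ c` because
`G (n+m) (append z u) (append z' v) = G n z z' * G m u v` (`Fin.prod_univ_add`), so that this is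
`∑_{z ∈ A} ‖∑_{z'} conj (G n z z') • y z'‖²`.
Now apply `unc_vec` (with `g = D ^ (- n / 2)`, `fpow_norm`, the matrix `G n` conjugated and transposed as needed, it is
symmetric) to each component `k` of the family `y`, and sum over `k`. -/
def S_psd : Prop :=
  ∀ (D : ℕ), 2 ≤ D → ∀ ρ : (n : ℕ) → Matrix (Fin n → Fin D) (Fin n → Fin D) ℂ, IsInvariantState D ρ →
    ∀ (n m : ℕ) (A : Finset (Fin n → Fin D)),
      (((1 + Real.sqrt ((A.card : ℝ) ^ 2 / (D : ℝ) ^ n) : ℝ) : ℂ) • ρ m - TZ ρ A m -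
        (fourierPow D m)ᴴ * TZ ρ A m * fourierPow D m).PosSemidef

/-- `S_lim` (helper34). The part of the state on the invariant set `E`. -/
def S_lim : Prop :=
  ∀ (D : ℕ) [NeZero D], 2 ≤ D → ∀ μ : Measure (ℤ → Fin D), IsProbabilityMeasure μ → μ.map shf = μ →
    ∀ ρ : (n : ℕ) → Matrix (Fin n → Fin D) (Fin n → Fin D) ℂ, IsInvariantState D ρ → IsDiagonal μ ρ →
    (∀ (n : ℕ) (u v : Fin n → Fin D), ρ n (fun i => - u i) (fun i => - v i) = ρ n u v) →
    ∀ E : Set (ℤ → Fin D), MeasurableSet E → μ.real (symmDiff (shf ⁻¹' E) E) = 0 →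
    ∀ A : (n : ℕ) → Finset (Fin n → Fin D), (∀ n w, w ∈ A n ↔ (fun i => - w i) ∈ A n) →
    Tendsto (fun n => μ.real (symmDiff {x | word n x ∈ A n} E)) atTop (𝓝 0) →
    ∃ σ : (n : ℕ) → Matrix (Fin n → Fin D) (Fin n → Fin D) ℂ,
      (∀ m, Tendsto (fun n => TZ ρ (A n) m) (hyperfilter ℕ : Filter ℕ) (𝓝 (σ m))) ∧
      (∀ m, (σ m).PosSemidef) ∧
      (∀ m (u v : Fin m → Fin D), ∑ a, σ (m + 1) (Fin.snoc u a) (Fin.snoc v a) = σ m u v) ∧
      (∀ m (u v : Fin m → Fin D), ∑ a, σ (m + 1) (Fin.cons a u) (Fin.cons a v) = σ m u v) ∧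
      (∀ m (u v : Fin m → Fin D), σ m (fun i => - u i) (fun i => - v i) = σ m u v) ∧
      (∀ (j : ℤ) (m : ℕ) (u : Fin m → Fin D), (σ m u u).re = μ.real (E ∩ cylinder j u))

end Pool.Agent.H34.WB
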