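import Pool.Agent.H34.WB.Split
import Pool.Agent.H34.WB.Res

/-! The structure of a quantum limit with a part of low entropy. -/

set_option autoImplicit false

open MeasureTheory Filter Topology Set
open scoped ComplexConjugate Matrix ComplexOrder ENNReal
open Pool.Agent.Results.MP_07c750_an.WalshBakerQuantumLimits

noncomputable section

namespace Pool.Agent.H34.WB

variable {D : ℕ}

lemma eq_of_cyl (hcle : S_cle) (μ ν : Measure (ℤ → Fin D)) [IsFiniteMeasure μ] [IsFiniteMeasure ν]
    (h : ∀ (m : ℤ) (n : ℕ) (w : Fin n → Fin D), μ.real (cylinder m w) = ν.real (cylinder m w)) : μ = ν :=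
  le_antisymm (hcle D μ ν inferInstance inferInstance fun m n w => (h m n w).le)
    (hcle D ν μ inferInstance inferInstance fun m n w => (h m n w).ge)

lemma eq_of_le_mass {Ω : Type*} [MeasurableSpace Ω] (μ ν : Measure Ω) [IsFiniteMeasure μ] [IsFiniteMeasure ν]
    (h : μ ≤ ν) (h' : μ univ = ν univ) : μ = ν := by
  refine Measure.ext fun S hS => ?_
  have h1 : ∀ S, μ.real S ≤ ν.real S := fun S => ENNReal.toReal_mono (measure_ne_top _ _) (h S)
  have h2 : μ.real univ = ν.real univ := by unfold Measure.real; rw [h']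
  have h3 := measureReal_add_measureReal_compl hS (μ := μ)
  have h4 := measureReal_add_measureReal_compl hS (μ := ν)
  have h5 : μ.real S = ν.real S := le_antisymm (h1 S) (by linarith [h1 Sᶜ])
  rw [← ofReal_measureReal (μ := μ), ← ofReal_measureReal (μ := ν), h5]

variable [NeZero D]

lemma Fam.QL' (hext : S_ext) (hD : 2 ≤ D) {τ : (n : ℕ) → Matrix (Fin n → Fin D) (Fin n → Fin D) ℂ} {c : ℝ}
    (h : Fam D τ c) (μ₀ : Measure (ℤ → Fin D)) [IsProbabilityMeasure μ₀] (h0 : IsQuantumLimit D μ₀) :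
    ∃ μ : Measure (ℤ → Fin D), IsProbabilityMeasure μ ∧ IsQuantumLimit D μ ∧
      ∀ (m : ℤ) (n : ℕ) (w : Fin n → Fin D), c * μ.real (cylinder m w) = (τ n w w).re := by
  rcases h.mass_nonneg.eq_or_lt with hc | hc
  · refine ⟨μ₀, inferInstance, h0, fun m n w => ?_⟩
    subst hc
    rw [h.zero, zero_mul]
  · exact h.QL hext hD hc

/-- the low entropy part -/
def lowPart (μ : Measure (ℤ → Fin D)) (s : ℝ) : Set (ℤ → Fin D) := {x | localEntropy μ x ≤ (s : EReal)}

omit [NeZero D] in
lemma meas_lowPart (μ : Measure (ℤ → Fin D)) (s : ℝ) : MeasurableSet (lowPart μ s) :=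
  (s_meas D μ).2.2.2 measurableSet_Iic

theorem struct (hpsd : S_psd) (hext : S_ext) (hcle : S_cle) (hinv : S_inv) (hlei : S_lei) (happ : S_app) (hD : 2 ≤ D)
    {μ : Measure (ℤ → Fin D)} [IsProbabilityMeasure μ] (hQ : IsQuantumLimit D μ) {s : ℝ} (hs : s < Real.log D / 2) :
    ∃ μ₁ μ₂ : Measure (ℤ → Fin D), IsProbabilityMeasure μ₁ ∧ IsProbabilityMeasure μ₂ ∧ IsQuantumLimit D μ₁ ∧
      IsQuantumLimit D μ₂ ∧ 2 * μ (lowPart μ s) ≤ 1 ∧
      μ = (2 * μ (lowPart μ s)) • μ₁ + (1 - 2 * μ (lowPart μ s)) • μ₂ ∧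
      μ.restrict (lowPart μ s) ≤ (2 * μ (lowPart μ s)) • μ₁ := by
  obtain ⟨ρ, hρ, hd⟩ := QL_state hD hQ
  obtain ⟨i1, i2, -⟩ := hinv D hD μ inferInstance ρ hρ hd
  set E := lowPart μ s with hE
  have hEm : MeasurableSet E := meas_lowPart μ s
  have hE' : μ.real (symmDiff (shf ⁻¹' E) E) = 0 := by
    rw [measureReal_eq_zero_iff, measure_symmDiff_eq_zero_iff]
    filter_upwards [(hlei D μ inferInstance).1 i1] with x hx
    have : (shf x ∈ E) = (x ∈ E) := by
      show (localEntropy μ (shf x) ≤ (s : EReal)) = (localEntropy μ x ≤ (s : EReal))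
      rw [hx]
    exact this
  obtain ⟨A, hA1, hA2, hA3⟩ := happ D hD μ inferInstance i2 s hs
  obtain ⟨α, β, hα, hβ, hab, hle⟩ := split hpsd hD i1 hρ hd hEm hE' hA1 hA2 hA3
  obtain ⟨μ₁, p1, q1, r1⟩ := hα.QL' hext hD μ hQ
  obtain ⟨μ₂, p2, q2, r2⟩ := hβ.QL' hext hD μ hQ
  have ht : 0 ≤ 1 - 2 * μ.real E := hβ.mass_nonneg
  have e1 : (2 * μ E).toReal = 2 * μ.real E := by
    rw [ENNReal.toReal_mul]
    rfl
  have hle1 : 2 * μ E ≤ 1 := by
    rw [← ENNReal.toReal_le_toReal (ENNReal.mul_ne_top (by norm_num) (measure_ne_top _ _)) ENNReal.one_ne_top, e1,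
      ENNReal.toReal_one]
    linarith
  have e2 : (1 - 2 * μ E).toReal = 1 - 2 * μ.real E := by
    rw [ENNReal.toReal_sub_of_le hle1 ENNReal.one_ne_top, e1, ENNReal.toReal_one]
  have hsum : 2 * μ E + (1 - 2 * μ E) = 1 := add_tsub_cancel_of_le hle1
  have hPc := prob_convex (μ := μ₁) (ν := μ₂) _ _ hsum
  refine ⟨μ₁, μ₂, p1, p2, q1, q2, hle1, ?_, ?_⟩
  · refine eq_of_cyl hcle _ _ fun m n w => ?_
    rw [real_convex _ _ hsum, e1, e2, r1 m n w, r2 m n w, hd m n w, hab n, Matrix.add_apply, Complex.add_re]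
  · have hf : IsFiniteMeasure ((2 * μ E) • μ₁) := by
      refine ⟨?_⟩
      rw [Measure.smul_apply, measure_univ, smul_eq_mul, mul_one]
      exact lt_of_le_of_lt hle1 ENNReal.one_lt_top
    refine hcle D _ _ inferInstance hf fun m n w => ?_
    have e3 : ((2 * μ E) • μ₁).real (cylinder m w) = 2 * μ.real E * μ₁.real (cylinder m w) := by
      unfold Measure.real
      rw [Measure.smul_apply, smul_eq_mul, ENNReal.toReal_mul, e1]
      rfl
    rw [e3, r1 m n w, measureReal_restrict_apply (meas_cyl m w), Set.inter_comm]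
    exact hle m n w

omit [NeZero D] in
lemma le_zero_lem (μ : Measure (ℤ → Fin D)) : lowPart μ 0 = {x | localEntropy μ x ≤ 0} := by
  unfold lowPart
  rw [EReal.coe_zero]

omit [NeZero D] in
lemma lE_nonneg (μ : Measure (ℤ → Fin D)) (h : ∀ S, μ.real S ≤ 1) (x : ℤ → Fin D) : 0 ≤ localEntropy μ x := by
  have h1 : limsup (fun _ : ℕ => (0 : EReal)) atTop ≤ localEntropy μ x := by
    refine limsup_le_limsup (Eventually.of_forall fun n => ?_) (by isBoundedDefault) (by isBoundedDefault)
    rw [← EReal.coe_zero, EReal.coe_le_coe_iff]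
    unfold info
    have : Real.log (μ.real (cylinder 0 (word n x))) ≤ 0 := Real.log_nonpos measureReal_nonneg (h _)
    exact div_nonneg (by linarith) (Nat.cast_nonneg n)
  rwa [limsup_const] at h1

/-- the local entropy of a multiple of the uniform measure -/
lemma lE_digits (c : ℝ≥0∞) (hc : c ≠ 0) (hc' : c ≠ ⊤) (x : ℤ → Fin D) :
    localEntropy (c • digits D) x = ((Real.log D : ℝ) : EReal) := by
  have hD0 : (0 : ℝ) < D := by exact_mod_cast NeZero.pos D
  have hc0 : 0 < c.toReal := ENNReal.toReal_pos hc hc'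
  have h1 : ∀ n : ℕ, 0 < n → info (c • digits D) n x = Real.log D - Real.log c.toReal / n := by
    intro n hn
    have hn' : (n : ℝ) ≠ 0 := by exact_mod_cast hn.ne'
    have e : (c • digits D).real (cylinder 0 (word n x)) = c.toReal * ((D : ℝ) ^ n)⁻¹ := by
      rw [← digits_cyl 0 (word n x)]
      unfold Measure.real
      rw [Measure.smul_apply, smul_eq_mul, ENNReal.toReal_mul]
    unfold info
    rw [e, Real.log_mul hc0.ne' (by positivity), Real.log_inv, Real.log_pow]
    field_simp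
    ring
  have h2 : Tendsto (fun n : ℕ => ((info (c • digits D) n x : ℝ) : EReal)) atTop (𝓝 ((Real.log D : ℝ) : EReal)) := by
    refine (continuous_coe_real_ereal.tendsto _).comp ?_
    have h3 : Tendsto (fun n : ℕ => Real.log D - Real.log c.toReal / (n : ℝ)) atTop (𝓝 (Real.log D - 0)) :=
      (tendsto_const_div_atTop_nhds_zero_nat _).const_sub _
    rw [sub_zero] at h3
    refine h3.congr' ?_
    filter_upwards [eventually_gt_atTop 0] with n hn
    rw [h1 n hn]
  exact h2.limsup_eq

/-- **The zero entropy part.** -/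
theorem zero_struct (hpsd : S_psd) (hext : S_ext) (hcle : S_cle) (hinv : S_inv) (hlei : S_lei) (happ : S_app)
    (hscar : S_scar) (hD : 2 ≤ D) {μ : Measure (ℤ → Fin D)} [IsProbabilityMeasure μ] (hQ : IsQuantumLimit D μ) :
    2 * μ (lowPart μ 0) ≤ 1 ∧ ∃ μ₂ : Measure (ℤ → Fin D), IsProbabilityMeasure μ₂ ∧ IsQuantumLimit D μ₂ ∧
      μ = μ.restrict (lowPart μ 0) + μ (lowPart μ 0) • digits D + (1 - 2 * μ (lowPart μ 0)) • μ₂ := by
  have hL : 0 < Real.log D := Real.log_pos (by exact_mod_cast (by omega : 1 < D))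
  obtain ⟨μ₁, μ₂, p1, p2, q1, q2, hle1, hμ, hres⟩ := struct hpsd hext hcle hinv hlei happ hD hQ
    (s := 0) (by linarith)
  refine ⟨hle1, μ₂, p2, q2, ?_⟩
  set E := lowPart μ 0 with hE
  have hEm : MeasurableSet E := meas_lowPart μ 0
  have key : (2 * μ E) • μ₁ = μ.restrict E + μ E • digits D := by
    by_cases ht : μ E = 0
    · rw [ht, mul_zero, zero_smul, zero_smul, add_zero, Measure.restrict_eq_zero.2 ht]
    have htt : μ E ≠ ⊤ := measure_ne_top _ _
    set κ := μ.restrict E with hκ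
    have hκμ : κ ≤ μ := Measure.restrict_le_self
    have hκ1 : κ ≤ μ₁ := by
      refine hres.trans ?_
      intro S
      rw [Measure.smul_apply, smul_eq_mul]
      calc 2 * μ E * μ₁ S ≤ 1 * μ₁ S := mul_le_mul_left hle1 _
        _ = μ₁ S := one_mul _
    let Z : Set (ℤ → Fin D) := lowPart μ₁ 0
    have hZm : MeasurableSet Z := meas_lowPart μ₁ 0
    have hκZ : κ Zᶜ = 0 := by
      have h1 := s_res D κ μ inferInstance hκμ
      have h2 := s_res D κ μ₁ inferInstance hκ1
      have h3 : ∀ᵐ x ∂κ, x ∈ E := ae_restrict_mem hEm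
      have h4 : ∀ᵐ x ∂κ, x ∈ Z := by
        filter_upwards [h1, h2, h3] with x e1 e2 e3
        show localEntropy μ₁ x ≤ ((0 : ℝ) : EReal)
        rw [← e2, e1]
        exact e3
      exact h4
    have hκu : κ univ = μ E := by rw [hκ, Measure.restrict_apply_univ]
    have hZ : (1 / 2 : ℝ) ≤ μ₁.real Z := by
      have h1 : κ univ ≤ 2 * μ E * μ₁ Z := by
        calc κ univ ≤ κ Z + κ Zᶜ := by rw [← measure_add_measure_compl hZm]
          _ = κ Z := by rw [hκZ, add_zero]
          _ ≤ ((2 * μ E) • μ₁) Z := hres Z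
          _ = 2 * μ E * μ₁ Z := by rw [Measure.smul_apply, smul_eq_mul]
      rw [hκu] at h1
      have h2 := ENNReal.toReal_mono (ENNReal.mul_ne_top (ENNReal.mul_ne_top (by norm_num) htt)
        (measure_ne_top _ _)) h1
      rw [ENNReal.toReal_mul, ENNReal.toReal_mul, ENNReal.toReal_ofNat] at h2
      have h3 : 0 < (μ E).toReal := ENNReal.toReal_pos ht htt
      have h4 : (μ E).toReal * 1 ≤ (μ E).toReal * (2 * μ₁.real Z) := by
        unfold Measure.real
        linarith
      have h5 := le_of_mul_le_mul_left h4 h3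
      linarith
    obtain ⟨ρ₁, s1, s2⟩ := QL_state hD q1
    obtain ⟨u1, u2⟩ := s_unc D hD μ₁ p1 ρ₁ s1 s2
    have hhalf : (1 / 2 : ℝ≥0∞) • digits D ≤ μ₁ := by
      have hf : IsFiniteMeasure ((1 / 2 : ℝ≥0∞) • digits D) := by
        refine ⟨?_⟩
        rw [Measure.smul_apply, measure_univ, smul_eq_mul, mul_one]
        simp
      refine hcle D _ _ hf inferInstance fun m n w => ?_
      have h1 := hscar D hD μ₁ p1 u1 u2 m n w
      have h2 : ((1 / 2 : ℝ≥0∞) • digits D).real (cylinder m w) = 1 / 2 * (1 / (D : ℝ) ^ n) := by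
        have h3 := digits_cyl m w
        unfold Measure.real at h3 ⊢
        rw [Measure.smul_apply, smul_eq_mul, ENNReal.toReal_mul, h3]
        simp
      rw [h2]
      refine le_trans ?_ h1
      refine mul_le_mul_of_nonneg_right ?_ (by positivity)
      rw [← le_zero_lem]
      exact hZ
    have hdZ : digits D Z = 0 := by
      have h1 := s_res D _ μ₁ inferInstance hhalf
      have h2 : ∀ᵐ x ∂((1 / 2 : ℝ≥0∞) • digits D), x ∉ Z := by
        filter_upwards [h1] with x hx
        rw [lE_digits _ (by simp) (by simp)] at hx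
        intro hZx
        have h3 : localEntropy μ₁ x ≤ ((0 : ℝ) : EReal) := hZx
        rw [← hx, EReal.coe_le_coe_iff] at h3
        linarith
      have h3 : ((1 / 2 : ℝ≥0∞) • digits D) Z = 0 := by
        rw [ae_iff] at h2
        simpa using h2
      rw [Measure.smul_apply, smul_eq_mul, mul_eq_zero] at h3
      rcases h3 with h3 | h3
      · simp at h3
      · exact h3
    have hfin1 : IsFiniteMeasure (κ + μ E • digits D) := by
      refine ⟨?_⟩
      rw [Measure.add_apply, Measure.smul_apply, measure_univ (μ := digits D), smul_eq_mul, mul_one]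
      exact ENNReal.add_lt_top.2 ⟨measure_lt_top _ _, measure_lt_top _ _⟩
    have hfin2 : IsFiniteMeasure ((2 * μ E) • μ₁) := by
      refine ⟨?_⟩
      rw [Measure.smul_apply, measure_univ, smul_eq_mul, mul_one]
      exact lt_of_le_of_lt hle1 ENNReal.one_lt_top
    refine (eq_of_le_mass _ _ ?_ ?_).symm
    · refine Measure.le_iff.2 fun S hS => ?_
      rw [Measure.add_apply, Measure.smul_apply, Measure.smul_apply, smul_eq_mul, smul_eq_mul]
      have h1 : κ S ≤ 2 * μ E * μ₁ (S ∩ Z) := by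
        calc κ S = κ (S ∩ Z) + κ (S \ Z) := (measure_inter_add_sdiff S hZm).symm
          _ = κ (S ∩ Z) := by
            rw [measure_mono_null (fun x hx => hx.2 : S \ Z ⊆ Zᶜ) hκZ, add_zero]
          _ ≤ ((2 * μ E) • μ₁) (S ∩ Z) := hres _
          _ = _ := by rw [Measure.smul_apply, smul_eq_mul]
      have h2 : μ E * digits D S ≤ 2 * μ E * μ₁ (S \ Z) := by
        have h3 : digits D S = digits D (S \ Z) := by
          rw [← measure_inter_add_sdiff S hZm, measure_mono_null inter_subset_right hdZ, zero_add]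
        have h4 : 1 / 2 * digits D (S \ Z) ≤ μ₁ (S \ Z) := by
          have := hhalf (S \ Z)
          rwa [Measure.smul_apply, smul_eq_mul] at this
        rw [h3]
        calc μ E * digits D (S \ Z) = 2 * μ E * (1 / 2 * digits D (S \ Z)) := by
              rw [mul_comm 2 (μ E), mul_assoc, ← mul_assoc 2 (1 / 2), one_div, ENNReal.mul_inv_cancel (by norm_num)
                (by norm_num), one_mul]
          _ ≤ _ := mul_le_mul_right h4 _
      calc κ S + μ E * digits D S ≤ 2 * μ E * μ₁ (S ∩ Z) + 2 * μ E * μ₁ (S \ Z) := add_le_add h1 h2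
        _ = 2 * μ E * μ₁ S := by rw [← mul_add, measure_inter_add_sdiff S hZm]
    · rw [Measure.add_apply, Measure.smul_apply, Measure.smul_apply, measure_univ (μ := digits D),
        measure_univ (μ := μ₁), smul_eq_mul, smul_eq_mul, mul_one, mul_one, hκu, two_mul]
  rw [← key]
  exact hμ

end Pool.Agent.H34.WB
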